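import Mathlib

/-!
# Simultaneous approximation (module 2 of RootK)

Proof sketch of `dirichlet_sim`: pigeonhole for `j ∈ {0, ..., Q ^ B.card}` on the vectors
`b ↦ ⌊Q * Int.fract (j * y b)⌋₊ ∈ {0, ..., Q-1}`: two values of `j` give the same vector; take the
difference. Proof of `dirichlet_scale`: apply `dirichlet_sim` with `4 * Q` in place of `Q`, `m`;
`θ = 1 / m`; for `g` large `r = ⌊g / m⌋₊` satisfies `|y b * g - r * n b| ≤ r / Q`: indeed
`|m y b - n b| ≤ 1/(4Q)` gives `|y b g - (g/m) n b| ≤ (g/m)/(4Q)`, `|n b| ≤ m Y + 1`, and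
`|g/m - r| ≤ 1`.
-/

open Finset

namespace Pool.Agent.Lib.Pabc10

theorem dirichlet_sim (B : Finset ℕ) (y : ℕ → ℝ) (Q : ℕ) (hQ : 1 ≤ Q) :
    ∃ m : ℕ, 1 ≤ m ∧ m ≤ Q ^ B.card ∧ ∀ b ∈ B, ∃ n : ℤ, |(m : ℝ) * y b - n| ≤ 1 / Q := by
  classical
  have hQ0 : (0 : ℝ) < Q := by exact_mod_cast hQ
  let f : ℕ → (B → ℕ) := fun j b => ⌊(Q : ℝ) * Int.fract ((j : ℝ) * y b)⌋₊
  have hmaps : Set.MapsTo f (Finset.range (Q ^ B.card + 1) : Set ℕ)
      (Fintype.piFinset fun _ : B => Finset.range Q : Set (B → ℕ)) := by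
    intro j _
    rw [Finset.mem_coe, Fintype.mem_piFinset]
    intro b
    rw [Finset.mem_range, Nat.floor_lt (by positivity)]
    have := Int.fract_lt_one ((j : ℝ) * y b)
    nlinarith
  have hcard : (Fintype.piFinset fun _ : B => Finset.range Q).card < (Finset.range (Q ^ B.card + 1)).card := by
    rw [Fintype.card_piFinset, Finset.card_range]
    simp
  obtain ⟨i, hi, j, hj, hij, he⟩ := Finset.exists_ne_map_eq_of_card_lt_of_maps_to hcard hmaps
  rw [Finset.mem_range] at hi hj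
  have key : ∀ i j : ℕ, i < j → j < Q ^ B.card + 1 → f i = f j →
      ∃ m : ℕ, 1 ≤ m ∧ m ≤ Q ^ B.card ∧ ∀ b ∈ B, ∃ n : ℤ, |(m : ℝ) * y b - n| ≤ 1 / Q := by
    intro i j hij hj he
    refine ⟨j - i, by omega, by omega, fun b hb => ⟨⌊(j : ℝ) * y b⌋ - ⌊(i : ℝ) * y b⌋, ?_⟩⟩
    have e := congrFun he ⟨b, hb⟩
    have e' : ⌊(Q : ℝ) * Int.fract ((i : ℝ) * y b)⌋₊ = ⌊(Q : ℝ) * Int.fract ((j : ℝ) * y b)⌋₊ := e
    have h1 := Nat.floor_le (show 0 ≤ (Q : ℝ) * Int.fract ((i : ℝ) * y b) by positivity)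
    have h2 := Nat.lt_floor_add_one ((Q : ℝ) * Int.fract ((i : ℝ) * y b))
    have h3 := Nat.floor_le (show 0 ≤ (Q : ℝ) * Int.fract ((j : ℝ) * y b) by positivity)
    have h4 := Nat.lt_floor_add_one ((Q : ℝ) * Int.fract ((j : ℝ) * y b))
    rw [e'] at h1 h2
    have h5 : ((j - i : ℕ) : ℝ) * y b - ((⌊(j : ℝ) * y b⌋ - ⌊(i : ℝ) * y b⌋ : ℤ) : ℝ) =
        Int.fract ((j : ℝ) * y b) - Int.fract ((i : ℝ) * y b) := by
      rw [Nat.cast_sub hij.le, Int.fract, Int.fract]
      push_cast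
      ring
    rw [h5, abs_le]
    constructor
    · rw [neg_le, ← neg_sub, neg_neg, le_div_iff₀ hQ0]
      nlinarith
    · rw [le_div_iff₀ hQ0]
      nlinarith
  rcases lt_or_gt_of_ne hij with h | h
  · exact key i j h hj he
  · exact key j i h hi he.symm

/-- A natural number `r`, comparable with `g`, such that all `y b * g` are nearly multiples. -/
theorem dirichlet_scale (k Q : ℕ) (hQ : 1 ≤ Q) (Y : ℝ) (hY : 1 ≤ Y) :
    ∃ G : ℝ, 1 ≤ G ∧ ∀ (B : Finset ℕ) (y : ℕ → ℝ) (g : ℝ), B.card ≤ k →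
      (∀ b ∈ B, 0 ≤ y b ∧ y b ≤ Y) → G ≤ g →
      ∃ r : ℕ, 1 ≤ r ∧ (r : ℝ) ≤ g ∧ g ≤ 2 * (4 * Q : ℝ) ^ k * r ∧
        ∀ b ∈ B, ∃ n : ℕ, |y b * g - r * n| ≤ (r : ℝ) / Q := by
  have hQ1 : (1 : ℝ) ≤ Q := by exact_mod_cast hQ
  have hQ0 : (0 : ℝ) < Q := by linarith
  set K : ℝ := (4 * Q : ℝ) ^ k with hK
  have hK1 : 1 ≤ K := one_le_pow₀ (by linarith)
  refine ⟨K * (2 * Q * (K * Y + 1) + 2), ?_, ?_⟩
  · have h1 : 0 ≤ 2 * Q * (K * Y + 1) := by positivity
    nlinarith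
  · intro B y g hB hy hg
    obtain ⟨m, hm1, hm2, hm3⟩ := dirichlet_sim B y (4 * Q) (by omega)
    have hm0 : (1 : ℝ) ≤ m := by exact_mod_cast hm1
    have hmK : (m : ℝ) ≤ K := by
      have h1 : m ≤ (4 * Q) ^ k := hm2.trans (Nat.pow_le_pow_right (by omega) hB)
      have h2 : (m : ℝ) ≤ ((4 * Q) ^ k : ℕ) := by exact_mod_cast h1
      rw [hK]
      push_cast at h2
      exact h2
    have hg0 : 0 < g := by
      have h1 : 0 < K * (2 * Q * (K * Y + 1) + 2) := by positivity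
      linarith
    set t : ℝ := g / m with ht
    have htg : t * m = g := by rw [ht]; field_simp
    have ht2 : 2 * Q * (K * Y + 1) + 2 ≤ t := by
      rw [ht, le_div_iff₀ (by linarith)]
      refine le_trans ?_ hg
      calc (2 * Q * (K * Y + 1) + 2) * (m : ℝ) ≤ (2 * Q * (K * Y + 1) + 2) * K :=
            mul_le_mul_of_nonneg_left hmK (by positivity)
        _ = K * (2 * Q * (K * Y + 1) + 2) := by ring
    have hY0 : 0 ≤ 2 * Q * (K * Y + 1) := by positivity
    have hr1 := Nat.floor_le (show 0 ≤ t by linarith)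
    have hr2 := Nat.lt_floor_add_one t
    set r : ℕ := ⌊t⌋₊ with hr
    have hr3 : 2 * Q * (K * Y + 1) + 1 ≤ r := by linarith
    have hrR : (1 : ℝ) ≤ r := by linarith
    refine ⟨r, by exact_mod_cast hrR, ?_, ?_, ?_⟩
    · refine hr1.trans ?_
      rw [← htg]
      nlinarith
    · rw [← htg]
      have h1 : t ≤ 2 * r := by linarith
      calc t * m ≤ (2 * r) * K := mul_le_mul h1 hmK (by linarith) (by positivity)
        _ = 2 * K * r := by ring
    · intro b hb
      obtain ⟨n, hn⟩ := hm3 b hb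
      obtain ⟨hy0, hyY⟩ := hy b hb
      have hn4 : (1 : ℝ) / ((4 * Q : ℕ) : ℝ) ≤ 1 / 4 := by
        push_cast
        apply div_le_div_of_nonneg_left (by norm_num) (by norm_num)
        linarith
      have hn1 := abs_le.1 hn
      have hmy : 0 ≤ (m : ℝ) * y b := by positivity
      have hnn : (0 : ℤ) ≤ n := by
        by_contra hcon
        push Not at hcon
        have h1 : n ≤ -1 := by omega
        have h2 : (n : ℝ) ≤ -1 := by exact_mod_cast h1
        linarith [hn1.2]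
      obtain ⟨n', rfl⟩ := Int.eq_ofNat_of_zero_le hnn
      refine ⟨n', ?_⟩
      simp only [Int.cast_natCast] at hn hn1
      have hnY : (n' : ℝ) ≤ K * Y + 1 := by
        have h1 : (m : ℝ) * y b ≤ K * Y := mul_le_mul hmK hyY hy0 (by linarith)
        linarith [hn1.1]
      have h1 : y b * g - r * n' = t * ((m : ℝ) * y b - n') + (t - r) * n' := by
        rw [← htg]
        ring
      rw [h1]
      have h2 : |t * ((m : ℝ) * y b - n')| ≤ t * (1 / (4 * Q)) := by
        rw [abs_mul, abs_of_nonneg (show 0 ≤ t by linarith)]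
        refine mul_le_mul_of_nonneg_left ?_ (by linarith)
        have h3 := hn
        push_cast at h3
        exact h3
      have h3 : |(t - r) * (n' : ℝ)| ≤ K * Y + 1 := by
        rw [abs_mul, abs_of_nonneg (show 0 ≤ t - r by linarith), abs_of_nonneg (Nat.cast_nonneg n')]
        have h4 : (0 : ℝ) ≤ n' := Nat.cast_nonneg n'
        nlinarith
      have h4 : t * (1 / (4 * Q)) ≤ r / (2 * Q) := by
        rw [mul_one_div, div_le_div_iff₀ (by positivity) (by positivity)]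
        nlinarith
      have h5 : K * Y + 1 ≤ r / (2 * Q) := by
        rw [le_div_iff₀ (by positivity)]
        nlinarith
      have h6 : (r : ℝ) / Q = r / (2 * Q) + r / (2 * Q) := by
        field_simp
        ring
      rw [h6]
      exact (abs_add_le _ _).trans (add_le_add (h2.trans h4) (h3.trans h5))

end Pool.Agent.Lib.Pabc10
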