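import Mathlib
import Pool.Agent.Lib.Pabc1.SCover

/-!
# Scales (combinatorial module of BOX)

`P` a finite set with masses `u p ≥ 0` and weights `v p ≥ 0`. Either a subset of mass at least `dfin` has
weight at most `1/(K+1)` of the total, or at one of `K + 1` scales `d` the elements of mass `< d` have
total mass `≤ c d`. Here `c` is any positive function of the scale.

Proof sketch. Scales: `d 0 = 1`, `d (j+1) = min (d j) (c (d j) / (2 (2K+1)))/2` (positive, decreasing),
`dfin = d (K+1)` (the least). Suppose for all `j ≤ K` the elements with `u p < d j` have mass `> c (d j)`.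
If for some `j ≤ K` the elements with `u p < d (j+1)` have mass `≥ c (d j) / 2 ≥ d (j+1) * (2K+1)`, then
`greedy_add` (Pabc1.SCover) with `δ = d (j+1)`, `k = K`, `f = u`, applied to `P.filter (u < d (j+1))`, gives
a subset of mass `≥ d (j+1)` and weight `≤ (∑ v)/(K+1)`. Otherwise every class
`P.filter (d (j+1) ≤ u p < d j)`, `j = 0..K`, has mass `≥ c (d j)/2 ≥ dfin`; the `K+1` classes are disjoint, so
one of them has weight `≤ (∑ v)/(K+1)`.
-/

open Finset

namespace Pool.Agent.Lib.Pabc10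

open Pool.Agent.Lib.Pabc1

/-- the scales -/
noncomputable def sc (K : ℕ) (c : ℝ → ℝ) : ℕ → ℝ
  | 0 => 1
  | j + 1 => min (sc K c j) (c (sc K c j) / (2 * (2 * K + 1))) / 2

theorem sc_succ (K : ℕ) (c : ℝ → ℝ) (j : ℕ) :
    sc K c (j + 1) = min (sc K c j) (c (sc K c j) / (2 * (2 * K + 1))) / 2 := rfl

theorem sc_pos (K : ℕ) (c : ℝ → ℝ) (hc : ∀ d, 0 < d → 0 < c d) (j : ℕ) : 0 < sc K c j := by
  induction j with
  | zero => exact one_pos
  | succ j ih =>
    rw [sc_succ]
    have h1 := hc _ ih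
    have h2 : 0 < c (sc K c j) / (2 * (2 * K + 1)) := by positivity
    have h3 := lt_min ih h2
    linarith

theorem sc_le (K : ℕ) (c : ℝ → ℝ) (hc : ∀ d, 0 < d → 0 < c d) (j : ℕ) :
    sc K c (j + 1) ≤ sc K c j := by
  have h1 := sc_pos K c hc j
  rw [sc_succ]
  have h2 := min_le_left (sc K c j) (c (sc K c j) / (2 * (2 * K + 1)))
  linarith

theorem sc_anti (K : ℕ) (c : ℝ → ℝ) (hc : ∀ d, 0 < d → 0 < c d) : Antitone (sc K c) :=
  antitone_nat_of_succ_le (sc_le K c hc)

theorem sc_mul (K : ℕ) (c : ℝ → ℝ) (hc : ∀ d, 0 < d → 0 < c d) (j : ℕ) :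
    sc K c (j + 1) * (2 * K + 1) ≤ c (sc K c j) / 2 := by
  have h1 := sc_pos K c hc j
  have h2 := hc _ h1
  have h3 := min_le_right (sc K c j) (c (sc K c j) / (2 * (2 * K + 1)))
  have hK : (0 : ℝ) < 2 * K + 1 := by positivity
  have h4 : sc K c (j + 1) ≤ c (sc K c j) / (2 * (2 * K + 1)) / 2 := by
    rw [sc_succ]
    linarith
  calc sc K c (j + 1) * (2 * K + 1) ≤ c (sc K c j) / (2 * (2 * K + 1)) / 2 * (2 * K + 1) :=
        mul_le_mul_of_nonneg_right h4 hK.le
    _ = c (sc K c j) / 4 := by field_simp; ring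
    _ ≤ c (sc K c j) / 2 := by linarith

theorem exists_scales (K : ℕ) (c : ℝ → ℝ) (hc : ∀ d, 0 < d → 0 < c d) :
    ∃ (D : Finset ℝ) (dfin : ℝ), 0 < dfin ∧ (∀ d ∈ D, 0 < d ∧ d ≤ 1) ∧
      ∀ (P : Finset ℕ) (u v : ℕ → ℝ), (∀ p ∈ P, 0 ≤ u p) → (∀ p ∈ P, 0 ≤ v p) →
        (∃ Q ⊆ P, dfin ≤ ∑ p ∈ Q, u p ∧ ((K : ℝ) + 1) * ∑ p ∈ Q, v p ≤ ∑ p ∈ P, v p) ∨
        ∃ d ∈ D, ∑ p ∈ P.filter (fun p => u p < d), u p ≤ c d := by
  classical
  refine ⟨(Finset.range (K + 1)).image (sc K c), sc K c (K + 1), sc_pos K c hc _, ?_, ?_⟩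
  · intro d hd
    obtain ⟨j, _, rfl⟩ := Finset.mem_image.1 hd
    exact ⟨sc_pos K c hc j, sc_anti K c hc (Nat.zero_le j)⟩
  intro P u v hu hv
  by_cases hR : ∃ d ∈ (Finset.range (K + 1)).image (sc K c),
      ∑ p ∈ P.filter (fun p => u p < d), u p ≤ c d
  · exact Or.inr hR
  left
  push Not at hR
  have hR' : ∀ j ∈ Finset.range (K + 1),
      c (sc K c j) < ∑ p ∈ P.filter (fun p => u p < sc K c j), u p := fun j hj =>
    hR _ (Finset.mem_image_of_mem _ hj)
  have hmono : ∀ Q : Finset ℕ, Q ⊆ P → ∑ p ∈ Q, v p ≤ ∑ p ∈ P, v p := fun Q hQ =>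
    Finset.sum_le_sum_of_subset_of_nonneg hQ fun p hp _ => hv p hp
  by_cases hA : ∃ j ∈ Finset.range (K + 1),
      c (sc K c j) / 2 ≤ ∑ p ∈ P.filter (fun p => u p < sc K c (j + 1)), u p
  · obtain ⟨j, hj, h1⟩ := hA
    obtain ⟨Q, hQ, h2, h3⟩ := greedy_add (sc_pos K c hc (j + 1)) u v K
      (P.filter fun p => u p < sc K c (j + 1)) (fun p hp => (Finset.mem_filter.1 hp).2.le)
      ((sc_mul K c hc j).trans h1)
    refine ⟨Q, hQ.trans (Finset.filter_subset _ _), ?_, ?_⟩
    · refine le_trans (sc_anti K c hc ?_) h2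
      rw [Finset.mem_range] at hj
      omega
    · exact h3.trans (hmono _ (Finset.filter_subset _ _))
  · push Not at hA
    let C : ℕ → Finset ℕ := fun j => P.filter fun p => sc K c (j + 1) ≤ u p ∧ u p < sc K c j
    have hCP : ∀ j, C j ⊆ P := fun j => Finset.filter_subset _ _
    have hmass : ∀ j ∈ Finset.range (K + 1), sc K c (K + 1) ≤ ∑ p ∈ C j, u p := by
      intro j hj
      have h1 := hR' j hj
      have h2 := hA j hj
      have h3 : P.filter (fun p => u p < sc K c j) =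
          P.filter (fun p => u p < sc K c (j + 1)) ∪ C j := by
        ext p
        simp only [C, Finset.mem_union, Finset.mem_filter]
        have := sc_le K c hc j
        constructor
        · rintro ⟨hp, h4⟩
          rcases lt_or_ge (u p) (sc K c (j + 1)) with h5 | h5
          · exact Or.inl ⟨hp, h5⟩
          · exact Or.inr ⟨hp, h5, h4⟩
        · rintro (⟨hp, h4⟩ | ⟨hp, _, h4⟩)
          · exact ⟨hp, h4.trans_le this⟩
          · exact ⟨hp, h4⟩
      have h4 : Disjoint (P.filter (fun p => u p < sc K c (j + 1))) (C j) := by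
        rw [Finset.disjoint_left]
        intro p hp hp'
        rw [Finset.mem_filter] at hp hp'
        exact absurd hp.2 (not_lt.2 hp'.2.1)
      rw [h3, Finset.sum_union h4] at h1
      have h5 := sc_mul K c hc j
      have h6 : sc K c (j + 1) * 1 ≤ sc K c (j + 1) * (2 * K + 1) := by
        apply mul_le_mul_of_nonneg_left _ (sc_pos K c hc (j + 1)).le
        have : (0 : ℝ) ≤ K := Nat.cast_nonneg K
        linarith
      have h7 : sc K c (K + 1) ≤ sc K c (j + 1) := by
        apply sc_anti K c hc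
        rw [Finset.mem_range] at hj
        omega
      linarith
    by_contra hcon
    push Not at hcon
    have h1 : ∀ j ∈ Finset.range (K + 1),
        ∑ p ∈ P, v p < ((K : ℝ) + 1) * ∑ p ∈ C j, v p := fun j hj =>
      hcon (C j) (hCP j) (hmass j hj)
    have h2 := Finset.sum_lt_sum_of_nonempty (s := Finset.range (K + 1)) ⟨0, by simp⟩ h1
    rw [Finset.sum_const, Finset.card_range, nsmul_eq_mul, ← Finset.mul_sum] at h2
    push_cast at h2
    have h3 : ∑ j ∈ Finset.range (K + 1), ∑ p ∈ C j, v p =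
        ∑ p ∈ (Finset.range (K + 1)).biUnion C, v p := by
      rw [Finset.sum_biUnion]
      intro i _ j _ hij
      rw [Function.onFun, Finset.disjoint_left]
      intro p hp hp'
      simp only [C, Finset.mem_filter] at hp hp'
      rcases lt_or_gt_of_ne hij with h | h
      · have := sc_anti K c hc (show i + 1 ≤ j by omega)
        linarith [hp.2.1, hp'.2.2]
      · have := sc_anti K c hc (show j + 1 ≤ i by omega)
        linarith [hp'.2.1, hp.2.2]
    have h4 : ∑ p ∈ (Finset.range (K + 1)).biUnion C, v p ≤ ∑ p ∈ P, v p :=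
      hmono _ (Finset.biUnion_subset.2 fun j _ => hCP j)
    rw [h3] at h2
    have hK : (0 : ℝ) < (K : ℝ) + 1 := by positivity
    have h5 := lt_of_mul_lt_mul_left h2 hK.le
    linarith

end Pool.Agent.Lib.Pabc10
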