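import Mathlib
import Pool.Agent.Lib.Pabc1.SCount
import Pool.Agent.Lib.Pabc9.RadLemma
import Pool.Agent.Lib.Pabcv.RadCount

/-!
# Small heights (module of BOX)

Few integers `m ≤ n ^ M` have all their primes in a given set `S` with `∏ p ∈ S, p ≤ n`; hence few triples
of height `≤ M log n` have two members with given primes.
-/

open Finset Filter

namespace Pool.Agent.Lib.Pabc10

open Pool.Agent.Lib.Pabc1 Pool.Agent.Lib.Pabc2

theorem card_pow_le (B ε : ℝ) (hB : 1 ≤ B) (hε : 0 < ε) :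
    ∃ K : ℝ, 1 ≤ K ∧ ∀ S : Finset ℕ, (∀ p ∈ S, 2 ≤ p) →
      B ^ S.card ≤ K * (∏ p ∈ S, (p : ℝ)) ^ ε := by
  have hl2 : 0 < Real.log 2 := Real.log_pos (by norm_num)
  obtain ⟨K, hK1, hK⟩ := Pool.Agent.Lib.Pabc9.prod_const_log_le (max 1 (B / Real.log 2)) ε
    (le_max_left _ _) hε
  refine ⟨K, hK1, fun S hS => ?_⟩
  refine le_trans ?_ (hK S hS)
  rw [← Finset.prod_const]
  apply Finset.prod_le_prod (fun _ _ => by linarith)
  intro p hp
  have h2 : Real.log 2 ≤ Real.log p := Real.log_le_log (by norm_num) (by exact_mod_cast hS p hp)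
  have h3 : B / Real.log 2 ≤ max 1 (B / Real.log 2) := le_max_right _ _
  have h4 : 0 ≤ B / Real.log 2 := by positivity
  calc B = B / Real.log 2 * Real.log 2 := by field_simp
    _ ≤ max 1 (B / Real.log 2) * Real.log p := mul_le_mul h3 h2 hl2.le (h4.trans h3)

theorem card_smooth_aux (S F : Finset ℕ) (X : ℕ) (B : ℝ)
    (hF : ∀ m ∈ F, 0 < m ∧ m ≤ X ∧ m.primeFactors ⊆ S)
    (hB : ∀ r : ℕ, (((Finset.Icc 1 X).filter (fun n => Pabcv.rad n = r)).card : ℝ) ≤ B) :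
    (F.card : ℝ) ≤ 2 ^ S.card * B := by
  classical
  have hsub : F ⊆ S.powerset.biUnion (fun Q =>
      (Finset.Icc 1 X).filter (fun n => Pabcv.rad n = ∏ p ∈ Q, p)) := by
    intro m hm
    obtain ⟨h1, h2, h3⟩ := hF m hm
    refine Finset.mem_biUnion.mpr ⟨m.primeFactors, Finset.mem_powerset.mpr h3, ?_⟩
    exact Finset.mem_filter.mpr ⟨Finset.mem_Icc.mpr ⟨h1, h2⟩, rfl⟩
  calc (F.card : ℝ) ≤ ((S.powerset.biUnion (fun Q =>
      (Finset.Icc 1 X).filter (fun n => Pabcv.rad n = ∏ p ∈ Q, p))).card : ℝ) := by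
        exact_mod_cast Finset.card_le_card hsub
    _ ≤ ∑ Q ∈ S.powerset, (((Finset.Icc 1 X).filter
        (fun n => Pabcv.rad n = ∏ p ∈ Q, p)).card : ℝ) := by
        exact_mod_cast Finset.card_biUnion_le
    _ ≤ ∑ _Q ∈ S.powerset, B := Finset.sum_le_sum (fun Q _ => hB _)
    _ = 2 ^ S.card * B := by
        rw [Finset.sum_const, Finset.card_powerset, nsmul_eq_mul]
        push_cast
        ring

theorem card_smooth_le (M ε : ℝ) (hM : 0 < M) (hε : 0 < ε) :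
    ∀ᶠ n : ℕ in atTop, ∀ (S F : Finset ℕ), (∀ p ∈ S, p.Prime) →
      ((∏ p ∈ S, p : ℕ) : ℝ) ≤ n →
      (∀ m ∈ F, 0 < m ∧ (m : ℝ) ≤ (n : ℝ) ^ M ∧ m.primeFactors ⊆ S) →
      (F.card : ℝ) ≤ (n : ℝ) ^ ε := by
  obtain ⟨K, hK1, hK⟩ := card_pow_le 2 (ε / 3) (by norm_num) (by positivity)
  obtain ⟨C, hC1, hC⟩ := Pabcv.card_rad_eq_le (ε / (3 * M)) (by positivity)
  have hlim : Tendsto (fun n : ℕ => (n : ℝ) ^ (ε / 3)) atTop atTop :=
    (tendsto_rpow_atTop (by positivity)).comp tendsto_natCast_atTop_atTop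
  filter_upwards [hlim.eventually (eventually_ge_atTop (K * C)), eventually_ge_atTop 1] with
    n hn hn1 S F hS hSn hF
  have hn1' : (1 : ℝ) ≤ n := by exact_mod_cast hn1
  have hn0 : (0 : ℝ) < n := by linarith
  have hX : ((⌊(n : ℝ) ^ M⌋₊ : ℕ) : ℝ) ≤ (n : ℝ) ^ M := Nat.floor_le (by positivity)
  have h1 := card_smooth_aux S F ⌊(n : ℝ) ^ M⌋₊ (C * (n : ℝ) ^ (ε / 3)) (by
    intro m hm
    obtain ⟨a1, a2, a3⟩ := hF m hm
    exact ⟨a1, Nat.le_floor a2, a3⟩) (by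
    intro r
    refine (hC _ r).trans ?_
    apply mul_le_mul_of_nonneg_left _ (by linarith)
    calc ((⌊(n : ℝ) ^ M⌋₊ : ℕ) : ℝ) ^ (ε / (3 * M)) ≤ ((n : ℝ) ^ M) ^ (ε / (3 * M)) :=
          Real.rpow_le_rpow (Nat.cast_nonneg _) hX (by positivity)
      _ = (n : ℝ) ^ (ε / 3) := by
          rw [← Real.rpow_mul hn0.le]
          congr 1
          field_simp)
  have h2 := hK S (fun p hp => (hS p hp).two_le)
  have h3 : (∏ p ∈ S, (p : ℝ)) ^ (ε / 3) ≤ (n : ℝ) ^ (ε / 3) := by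
    apply Real.rpow_le_rpow (Finset.prod_nonneg fun p _ => Nat.cast_nonneg p) _ (by positivity)
    rw [← Nat.cast_prod]
    exact hSn
  have hne : 0 ≤ (n : ℝ) ^ (ε / 3) := by positivity
  calc (F.card : ℝ) ≤ 2 ^ S.card * (C * (n : ℝ) ^ (ε / 3)) := h1
    _ ≤ (K * (n : ℝ) ^ (ε / 3)) * (C * (n : ℝ) ^ (ε / 3)) := by
        apply mul_le_mul_of_nonneg_right _ (by positivity)
        exact h2.trans (mul_le_mul_of_nonneg_left h3 (by linarith))
    _ = (K * C) * ((n : ℝ) ^ (ε / 3) * (n : ℝ) ^ (ε / 3)) := by ring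
    _ ≤ (n : ℝ) ^ (ε / 3) * ((n : ℝ) ^ (ε / 3) * (n : ℝ) ^ (ε / 3)) :=
        mul_le_mul_of_nonneg_right hn (by positivity)
    _ = (n : ℝ) ^ ε := by
        rw [← Real.rpow_add hn0, ← Real.rpow_add hn0]
        congr 1
        ring

theorem exists_labels' : ∀ l1 : Fin 3, ∃ l2 l3 : Fin 3, l2 ≠ l1 ∧ l3 ≠ l1 ∧ l3 ≠ l2 := by decide

/-- The two components with labels `l2`, `l3` determine the triple. -/
theorem comp_pair_inj (l2 l3 : Fin 3) (h : l2 ≠ l3) {t t' : ℕ × ℕ}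
    (h2 : comp t l2 = comp t' l2) (h3 : comp t l3 = comp t' l3) : t = t' := by
  have a2 : l2 = 0 ∨ l2 = 1 ∨ l2 = 2 := by omega
  have a3 : l3 = 0 ∨ l3 = 1 ∨ l3 = 2 := by omega
  obtain ⟨x, y⟩ := t
  obtain ⟨x', y'⟩ := t'
  rcases a2 with rfl | rfl | rfl <;> rcases a3 with rfl | rfl | rfl <;>
    simp_all [comp]

theorem small_height (M ε : ℝ) (hM : 0 < M) (hε : 0 < ε) :
    ∀ᶠ n : ℕ in atTop, ∀ (S : Finset ℕ) (l1 : Fin 3) (T : Finset (ℕ × ℕ)),
      (∀ t ∈ T, IsT t ∧ rd t ≤ n ∧ ht t ≤ M * Real.log n ∧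
        (N t).primeFactors.filter (fun p => lab t p ≠ l1) = S) →
      (T.card : ℝ) ≤ (n : ℝ) ^ ε := by
  classical
  filter_upwards [card_smooth_le M (ε / 2) hM (by positivity), eventually_ge_atTop 1] with
    n hn hn1 S l1 T hT
  have hn1' : (1 : ℝ) ≤ n := by exact_mod_cast hn1
  have hn0 : (0 : ℝ) < n := by linarith
  rcases T.eq_empty_or_nonempty with rfl | hne
  · rw [Finset.card_empty, Nat.cast_zero]
    positivity
  obtain ⟨t0, ht0⟩ := hne
  obtain ⟨l2, l3, h12, h31, h32⟩ := exists_labels' l1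
  have hSp : ∀ p ∈ S, p.Prime := by
    intro p hp
    rw [← (hT t0 ht0).2.2.2, Finset.mem_filter] at hp
    exact Nat.prime_of_mem_primeFactors hp.1
  have hSn : ((∏ p ∈ S, p : ℕ) : ℝ) ≤ n := by
    have h1 : ∏ p ∈ S, p ≤ rd t0 := by
      unfold rd
      rw [← (hT t0 ht0).2.2.2]
      apply Finset.prod_le_prod_of_subset_of_one_le' (Finset.filter_subset _ _)
      intro p hp _
      exact (Nat.prime_of_mem_primeFactors hp).one_lt.le
    exact_mod_cast h1.trans (hT t0 ht0).2.1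
  have hcomp : ∀ l : Fin 3, l ≠ l1 → ∀ t ∈ T, 0 < comp t l ∧ (comp t l : ℝ) ≤ (n : ℝ) ^ M ∧
      (comp t l).primeFactors ⊆ S := by
    intro l hl t ht'
    obtain ⟨hI, _, hH, hS⟩ := hT t ht'
    have hpos := comp_pos hI l
    have hpos' : (0 : ℝ) < comp t l := by exact_mod_cast hpos
    refine ⟨hpos, ?_, ?_⟩
    · rw [← Real.log_le_log_iff hpos' (by positivity), Real.log_rpow hn0]
      exact (log_comp_le hI l).trans hH
    · intro p hp
      have h1 := comp_primeFactors hI l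
      rw [h1, Finset.mem_filter] at hp
      rw [← hS, Finset.mem_filter]
      exact ⟨hp.1, fun h => hl (hp.2.symm.trans h)⟩
  have h2 := hn S (T.image (fun t => comp t l2)) hSp hSn (by
    intro m hm
    rw [Finset.mem_image] at hm
    obtain ⟨t, ht', rfl⟩ := hm
    exact hcomp l2 h12 t ht')
  have h3 := hn S (T.image (fun t => comp t l3)) hSp hSn (by
    intro m hm
    rw [Finset.mem_image] at hm
    obtain ⟨t, ht', rfl⟩ := hm
    exact hcomp l3 h31 t ht')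
  have h4 : T.card ≤ (T.image (fun t => comp t l2)).card * (T.image (fun t => comp t l3)).card := by
    rw [← Finset.card_product]
    apply Finset.card_le_card_of_injOn (fun t => (comp t l2, comp t l3))
    · intro t ht'
      rw [Finset.mem_coe, Finset.mem_product]
      exact ⟨Finset.mem_image_of_mem _ ht', Finset.mem_image_of_mem _ ht'⟩
    · intro t _ t' _ h
      simp only [Prod.mk.injEq] at h
      exact comp_pair_inj l2 l3 h32.symm h.1 h.2
  calc (T.card : ℝ) ≤ ((T.image (fun t => comp t l2)).card : ℝ) *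
        (T.image (fun t => comp t l3)).card := by exact_mod_cast h4
    _ ≤ (n : ℝ) ^ (ε / 2) * (n : ℝ) ^ (ε / 2) := by gcongr
    _ = (n : ℝ) ^ ε := by
        rw [← Real.rpow_add hn0]
        congr 1
        ring

end Pool.Agent.Lib.Pabc10
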