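import Mathlib
import Pool.Agent.Lib.Pabc10.Scales
import Pool.Agent.Lib.Pabc10.SmallH
import Pool.Agent.Lib.Pabc1.SCount

/-!
# The fibres of BOX: two members with given primes (module of BOX)

Hypothesis `FibreStmt A` (proved in FibreK.lean): the fixed `S` form of the count of the structures of
type `K`.  Conclusion `box_fibre`: the number of triples of radical `≤ n` (and height `≤ n ^ A`) whose
two members of label `≠ m` have exactly the primes `P` is `≤ n ^ ε`.

SKETCH.  Fix `ε`.  Apply `FibreStmt` with `d = 1/2`, `η = ε / 8` and, for each `d' ∈ (0, 1]`, with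
`k = ⌊1 / d'⌋`: constants `c d' > 0`, `K d'`.  Let `Kc ≥ 8/ε` natural; `exists_scales Kc c` gives `D`, `dfin`.
For `t ∈ T` let `Q_t` be the primes of label `m`, `u = u t`, `v = log p`.
(1) There is `Q ⊆ Q_t` with `dfin ≤ ∑_Q u` and `(Kc + 1) ∑_Q log p ≤ ∑_{Q_t} log p ≤ log n`: then
    `∏_Q p ≤ n ^ (ε / 8)`, and `GoodD dfin (P ∪ Q) t` (the mass outside `P ∪ Q` is `≤ 1 - dfin` because the
    mass of label `m` is `log (comp t m) / ht t ≤ 1`), so for fixed `Q` there are `≤ n ^ (ε / 8)` triples by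
    `Pabc1.card_goodD_le` + `card_pow_le`; there are `≤ n ^ (ε / 8)` products `∏_Q p`.
(2) There is `d' ∈ D` with `∑_{Q_t, u < d'} u ≤ c d'`: put `H = {p ∈ Q_t : d' ≤ u}`, `|H| ≤ 1 / d'`, `S = P`,
    `l = 2` if `m ≠ 2` and `l = 1` if `m = 2` (mass of label `l` `≥ 1/2` as `b ≥ c / 2` and `ht ≥ 2 log 2`); the rest
    with labels `≠ l` has mass `≤ c d'`.  For heights `≥ K d' log n`: `FibreStmt` bounds these by `n ^ (ε / 8)`.
    Let `K* = max (over D) K d'` (and large enough for `GoodD.big`).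
(3) Heights `≤ K* log n`: `small_height` (two members with given primes).
Sum: `|D| + 2` families, each `≤ n ^ (ε / 2)`.
-/

open Finset Filter Topology

namespace Pool.Agent.Lib.Pabc10

open Pool.Agent.Lib.Pabc1 Pool.Agent.Lib.Pabc2

/-- The fixed `S` form of the count of the structures of type `K` (proved in FibreK.lean). -/
def FibreStmt (A : ℝ) : Prop :=
  ∀ (d η : ℝ) (k : ℕ), 0 < d → d ≤ 1 → 0 < η → ∃ c : ℝ, 0 < c ∧ ∃ K : ℝ,
    ∀ᶠ n : ℕ in atTop, ∀ (S : Finset ℕ) (l : Fin 3) (T : Finset (ℕ × ℕ)),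
      (∀ t ∈ T, IsT t ∧ rd t ≤ n ∧ K * Real.log n ≤ ht t ∧ ht t ≤ (n : ℝ) ^ A ∧
        S ⊆ (N t).primeFactors ∧ d ≤ ∑ p ∈ S.filter (fun p => lab t p = l), u t p ∧
          ∃ H ⊆ (N t).primeFactors \ S, H.card ≤ k ∧
            ∑ p ∈ ((N t).primeFactors \ (S ∪ H)).filter (fun p => lab t p ≠ l), u t p ≤ c) →
      (T.card : ℝ) ≤ (n : ℝ) ^ η

namespace BoxFibreAux

/-- Few sets of primes have a small product. -/
theorem card_prod_le (F : Finset (Finset ℕ)) (hF : ∀ Q ∈ F, ∀ p ∈ Q, p.Prime) (X : ℝ) (hX : 0 ≤ X)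
    (hb : ∀ Q ∈ F, ((∏ p ∈ Q, p : ℕ) : ℝ) ≤ X) : (F.card : ℝ) ≤ X := by
  have h1 : F.card ≤ (Finset.Icc 1 ⌊X⌋₊).card := by
    apply Finset.card_le_card_of_injOn (fun Q => ∏ p ∈ Q, p)
    · intro Q hQ
      rw [Finset.mem_coe] at hQ
      rw [Finset.mem_coe, Finset.mem_Icc]
      exact ⟨Finset.prod_pos fun p hp => (hF Q hQ p hp).pos, Nat.le_floor (hb Q hQ)⟩
    · intro Q hQ Q' hQ' h
      rw [Finset.mem_coe] at hQ hQ'
      have h' : ∏ p ∈ Q, p = ∏ p ∈ Q', p := h
      rw [← Nat.primeFactors_prod (hF Q hQ), ← Nat.primeFactors_prod (hF Q' hQ'), h']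
  rw [Nat.card_Icc, Nat.add_sub_cancel] at h1
  exact (Nat.cast_le.2 h1).trans (Nat.floor_le hX)

theorem light (δ A σ η : ℝ) (hδ : 0 < δ) (hδ1 : δ ≤ 1) (hA : 0 ≤ A) (hη : 0 < η) :
    ∀ᶠ n : ℕ in atTop, ∀ (P : Finset ℕ) (T : Finset (ℕ × ℕ)),
      (∀ t ∈ T, IsT t ∧ rd t ≤ n ∧ ht t ≤ (n : ℝ) ^ A ∧ 2 / δ ≤ ht t ∧
        P ⊆ (N t).primeFactors ∧
        ∃ Q ⊆ (N t).primeFactors, ((∏ p ∈ Q, p : ℕ) : ℝ) ≤ (n : ℝ) ^ σ ∧
          ∑ p ∈ (N t).primeFactors \ (P ∪ Q), u t p ≤ 1 - δ) →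
      (T.card : ℝ) ≤ (n : ℝ) ^ (σ + η) := by
  classical
  set K : ℕ := ⌈8 / δ⌉₊ with hKdef
  have hK : 8 / δ ≤ K := Nat.le_ceil _
  have hK0 : (0 : ℝ) < K := lt_of_lt_of_le (by positivity) hK
  have hB1 : 1 ≤ BconD K := by
    unfold BconD
    have : (1 : ℝ) ≤ 2 ^ (3 * K) := one_le_pow₀ (by norm_num)
    linarith
  obtain ⟨C, hC1, hC⟩ := card_pow_le (BconD K) (η / 2) hB1 (by positivity)
  set B := BconD K with hB
  have hB0 : 0 < B := BconD_pos K
  set ρ : ℝ := Real.log (1 + δ / 4) with hρ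
  have hρ0 : 0 < ρ := Real.log_pos (by linarith)
  set C0 : ℝ := (K + 1) * (A / ρ + 1) * C with hC0
  have hlim : Tendsto (fun n : ℕ => Real.log (n : ℝ)) atTop atTop :=
    Real.tendsto_log_atTop.comp tendsto_natCast_atTop_atTop
  filter_upwards [hlim.eventually (eventually_ge_atTop 1),
    ev_log_pow_le C0 1 (η / 2) (by positivity), eventually_ge_atTop 1] with n hx1 hlogpow hn1 P T hT
  rw [Real.rpow_one] at hlogpow
  set x := Real.log (n : ℝ) with hx
  have hx0 : 0 < x := by linarith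
  have hn0 : (0 : ℝ) < n := by exact_mod_cast hn1
  have hn1' : (1 : ℝ) ≤ n := by exact_mod_cast hn1
  choose! Q hQs hQz hQu using fun t (h : t ∈ T) => (hT t h).2.2.2.2.2
  have hH1 : 1 ≤ (n : ℝ) ^ A := Real.one_le_rpow hn1' hA
  set F := T.image (fun t => P ∪ Q t) with hF
  have b1 := card_le_sum_of_goodD hδ hδ1 hK ((n : ℝ) ^ A) hH1 T F (fun t => P ∪ Q t)
    (fun t h => Finset.mem_image_of_mem _ h) (by
      intro t h
      have h1 := (hT t h).1
      have hsub : P ∪ Q t ⊆ (N t).primeFactors :=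
        Finset.union_subset (hT t h).2.2.2.2.1 (hQs t h)
      refine ⟨⟨h1, hsub, ?_, (hT t h).2.2.2.1⟩, (hT t h).2.2.1⟩
      rw [← sum_u_eq h1, ← Finset.sum_sdiff hsub]
      have := hQu t h
      linarith)
  have hpr : ∀ t ∈ T, ∀ p ∈ (N t).primeFactors, p.Prime := fun t _ p hp =>
    Nat.prime_of_mem_primeFactors hp
  have b2 : ∀ S ∈ F, B ^ S.card ≤ C * (n : ℝ) ^ (η / 2) := by
    intro S hS
    rw [hF, Finset.mem_image] at hS
    obtain ⟨t, ht', rfl⟩ := hS
    have hsub : P ∪ Q t ⊆ (N t).primeFactors :=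
      Finset.union_subset (hT t ht').2.2.2.2.1 (hQs t ht')
    refine (hC _ fun p hp => (hpr t ht' p (hsub hp)).two_le).trans ?_
    have h2 : ∏ p ∈ P ∪ Q t, p ≤ n := by
      refine le_trans ?_ (hT t ht').2.1
      unfold rd
      apply Finset.prod_le_prod_of_subset_of_one_le' hsub
      intro p hp _
      exact (Nat.prime_of_mem_primeFactors hp).one_lt.le
    have h3 : ((∏ p ∈ P ∪ Q t, p : ℕ) : ℝ) ≤ (n : ℝ) := Nat.cast_le.2 h2
    rw [Nat.cast_prod] at h3
    have h4 : 0 ≤ ∏ p ∈ P ∪ Q t, (p : ℝ) := Finset.prod_nonneg fun p _ => Nat.cast_nonneg p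
    exact mul_le_mul_of_nonneg_left (Real.rpow_le_rpow h4 h3 (by positivity)) (by linarith)
  have b3 : (F.card : ℝ) ≤ (n : ℝ) ^ σ := by
    have h1 : F.card ≤ (T.image Q).card := by
      have : F = (T.image Q).image (fun S => P ∪ S) := by
        rw [Finset.image_image]
        rfl
      rw [this]
      exact Finset.card_image_le
    refine (Nat.cast_le.2 h1).trans (card_prod_le (T.image Q) ?_ _ (by positivity) ?_)
    · intro S hS p hp
      obtain ⟨t, ht', rfl⟩ := Finset.mem_image.1 hS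
      exact hpr t ht' p (hQs t ht' hp)
    · intro S hS
      obtain ⟨t, ht', rfl⟩ := Finset.mem_image.1 hS
      exact hQz t ht'
  have b4 : ∑ S ∈ F, B ^ S.card ≤ (n : ℝ) ^ σ * (C * (n : ℝ) ^ (η / 2)) := by
    calc ∑ S ∈ F, B ^ S.card ≤ ∑ _S ∈ F, C * (n : ℝ) ^ (η / 2) := Finset.sum_le_sum b2
      _ = F.card * (C * (n : ℝ) ^ (η / 2)) := by rw [Finset.sum_const, nsmul_eq_mul]
      _ ≤ _ := mul_le_mul_of_nonneg_right b3 (by positivity)
  have hlogH : Real.log ((n : ℝ) ^ A) = A * x := Real.log_rpow hn0 A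
  rw [hlogH, ← hρ] at b1
  have hfac : ((K : ℝ) + 1) * (A * x / ρ + 1) * C ≤ C0 * x := by
    calc ((K : ℝ) + 1) * (A * x / ρ + 1) * C ≤ ((K : ℝ) + 1) * (A * x / ρ + x) * C := by gcongr
      _ = C0 * x := by rw [hC0]; ring
  have hfac0 : 0 ≤ ((K : ℝ) + 1) * (A * x / ρ + 1) := by positivity
  calc (T.card : ℝ) ≤ ((K : ℝ) + 1) * (A * x / ρ + 1) *
        ((n : ℝ) ^ σ * (C * (n : ℝ) ^ (η / 2))) := b1.trans (mul_le_mul_of_nonneg_left b4 hfac0)
    _ = ((K : ℝ) + 1) * (A * x / ρ + 1) * C * ((n : ℝ) ^ σ * (n : ℝ) ^ (η / 2)) := by ring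
    _ ≤ (C0 * x) * ((n : ℝ) ^ σ * (n : ℝ) ^ (η / 2)) :=
        mul_le_mul_of_nonneg_right hfac (by positivity)
    _ ≤ (n : ℝ) ^ (η / 2) * ((n : ℝ) ^ σ * (n : ℝ) ^ (η / 2)) :=
        mul_le_mul_of_nonneg_right hlogpow (by positivity)
    _ = (n : ℝ) ^ (σ + η) := by
        rw [← Real.rpow_add hn0, ← Real.rpow_add hn0]
        congr 1
        ring

/-- The mass of a label. -/
theorem mass_eq {t : ℕ × ℕ} (h : IsT t) (l : Fin 3) :
    ∑ p ∈ (N t).primeFactors.filter (fun p => lab t p = l), u t p =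
      Real.log (comp t l) / ht t := by
  rw [log_comp_eq h l, Finset.sum_div]
  rfl

theorem mass_le_one {t : ℕ × ℕ} (h : IsT t) (l : Fin 3) :
    ∑ p ∈ (N t).primeFactors.filter (fun p => lab t p = l), u t p ≤ 1 := by
  rw [mass_eq h l, div_le_one (ht_pos h)]
  exact log_comp_le h l

end BoxFibreAux

open BoxFibreAux

theorem box_fibre (A : ℝ) (hA : 0 ≤ A) (hF : FibreStmt A) (ε : ℝ) (hε : 0 < ε) :
    ∀ᶠ n : ℕ in atTop, ∀ (P : Finset ℕ) (m : Fin 3) (T : Finset (ℕ × ℕ)),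
      (∀ t ∈ T, IsT t ∧ rd t ≤ n ∧ ht t ≤ (n : ℝ) ^ A ∧
        (N t).primeFactors.filter (fun p => lab t p ≠ m) = P) →
      (T.card : ℝ) ≤ (n : ℝ) ^ ε := by
  classical
  choose c hc Kf hev using fun d' : ℝ =>
    hF (1 / 2) (ε / 8) ⌊1 / d'⌋₊ (by norm_num) (by norm_num) (by positivity)
  obtain ⟨Kc, hKc⟩ := exists_nat_gt (8 / ε)
  have hKc0 : (0 : ℝ) < Kc := lt_trans (by positivity) hKc
  obtain ⟨D, dfin, hdfin, hD, hsc⟩ := exists_scales Kc c (fun d _ => hc d)
  set δ : ℝ := min dfin 1 with hδ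
  have hδ0 : 0 < δ := lt_min hdfin one_pos
  have hδ1 : δ ≤ 1 := min_le_right _ _
  have hδf : δ ≤ dfin := min_le_left _ _
  set Ks : ℝ := 1 + ∑ d ∈ D, |Kf d| with hKs
  have hKs1 : 1 ≤ Ks := by
    have : 0 ≤ ∑ d ∈ D, |Kf d| := Finset.sum_nonneg fun _ _ => abs_nonneg _
    linarith
  have hKsd : ∀ d ∈ D, Kf d ≤ Ks := by
    intro d hd
    have h1 : |Kf d| ≤ ∑ d ∈ D, |Kf d| :=
      Finset.single_le_sum (f := fun d => |Kf d|) (fun _ _ => abs_nonneg _) hd
    have h2 := le_abs_self (Kf d)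
    linarith
  have hlim : Tendsto (fun n : ℕ => Real.log (n : ℝ)) atTop atTop :=
    Real.tendsto_log_atTop.comp tendsto_natCast_atTop_atTop
  have hpow : Tendsto (fun n : ℕ => (n : ℝ) ^ (ε / 2)) atTop atTop :=
    (tendsto_rpow_atTop (by positivity)).comp tendsto_natCast_atTop_atTop
  filter_upwards [small_height Ks (ε / 2) (by linarith) (by positivity),
    light δ A (ε / 8) (ε / 8) hδ0 hδ1 hA (by positivity),
    (Filter.eventually_all_finset D).2 (fun d _ => hev d),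
    hlim.eventually (eventually_ge_atTop 2), hlim.eventually (eventually_ge_atTop (2 / δ)),
    hpow.eventually (eventually_ge_atTop ((D.card : ℝ) + 2)), eventually_ge_atTop 1] with
    n h1 h2 h3 hx2 hxδ hp hn1 P m T hT
  set x := Real.log (n : ℝ) with hx
  have hx0 : 0 < x := by linarith
  have hn0 : (0 : ℝ) < n := by exact_mod_cast hn1
  have hn1' : (1 : ℝ) ≤ n := by exact_mod_cast hn1
  set T3 := T.filter (fun t => ht t ≤ Ks * x) with hT3
  set T1 := T.filter (fun t => Ks * x < ht t ∧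
    ∃ Q ⊆ (N t).primeFactors.filter (fun p => lab t p = m), dfin ≤ ∑ p ∈ Q, u t p ∧
      ((Kc : ℝ) + 1) * ∑ p ∈ Q, Real.log (p : ℝ) ≤
        ∑ p ∈ (N t).primeFactors.filter (fun p => lab t p = m), Real.log (p : ℝ)) with hT1
  set T2 : ℝ → Finset (ℕ × ℕ) := fun d => T.filter (fun t => Ks * x < ht t ∧
    ∑ p ∈ ((N t).primeFactors.filter (fun p => lab t p = m)).filter (fun p => u t p < d), u t p
      ≤ c d) with hT2
  have hcover : T ⊆ T3 ∪ (T1 ∪ D.biUnion T2) := by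
    intro t ht'
    have hI := (hT t ht').1
    rw [Finset.mem_union, Finset.mem_union, Finset.mem_biUnion]
    by_cases c1 : ht t ≤ Ks * x
    · left
      exact Finset.mem_filter.2 ⟨ht', c1⟩
    · right
      push Not at c1
      rcases hsc ((N t).primeFactors.filter (fun p => lab t p = m)) (u t)
        (fun p => Real.log (p : ℝ)) (fun p _ => u_nonneg hI p)
        (fun p _ => Real.log_natCast_nonneg p) with hQ | ⟨d, hd, hd'⟩
      · left
        exact Finset.mem_filter.2 ⟨ht', c1, hQ⟩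
      · right
        exact ⟨d, hd, Finset.mem_filter.2 ⟨ht', c1, hd'⟩⟩
  -- heights
  have hbigδ : ∀ t, Ks * x < ht t → 2 / δ ≤ ht t := by
    intro t ht'
    have : x ≤ Ks * x := by nlinarith
    linarith
  have hbig2 : ∀ t, Ks * x < ht t → 2 ≤ ht t := by
    intro t ht'
    have : x ≤ Ks * x := by nlinarith
    linarith
  have hPsub : ∀ t ∈ T, P ⊆ (N t).primeFactors := by
    intro t ht'
    rw [← (hT t ht').2.2.2]
    exact Finset.filter_subset _ _
  have hPmem : ∀ t ∈ T, ∀ p, p ∈ P ↔ p ∈ (N t).primeFactors ∧ lab t p ≠ m := by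
    intro t ht' p
    rw [← (hT t ht').2.2.2, Finset.mem_filter]
  -- bounds
  have c3 : (T3.card : ℝ) ≤ (n : ℝ) ^ (ε / 2) := by
    refine h1 P m T3 fun t ht' => ?_
    rw [hT3, Finset.mem_filter] at ht'
    obtain ⟨a1, a2, _, a4⟩ := hT t ht'.1
    exact ⟨a1, a2, ht'.2, a4⟩
  have c1 : (T1.card : ℝ) ≤ (n : ℝ) ^ (ε / 8 + ε / 8) := by
    refine h2 P T1 fun t ht' => ?_
    rw [hT1, Finset.mem_filter] at ht'
    obtain ⟨htT, hbig, Q, hQ, hQu, hQv⟩ := ht'
    obtain ⟨a1, a2, a3, a4⟩ := hT t htT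
    have hQs : Q ⊆ (N t).primeFactors := hQ.trans (Finset.filter_subset _ _)
    refine ⟨a1, a2, a3, hbigδ t hbig, hPsub t htT, Q, hQs, ?_, ?_⟩
    · have hprime : ∀ p ∈ (N t).primeFactors, p.Prime := fun p hp =>
        Nat.prime_of_mem_primeFactors hp
      have hlogprod : ∀ Q ⊆ (N t).primeFactors, Real.log ((∏ p ∈ Q, p : ℕ) : ℝ) =
          ∑ p ∈ Q, Real.log (p : ℝ) := by
        intro Q hQ
        push_cast
        exact Real.log_prod (fun p hp => by exact_mod_cast (hprime p (hQ hp)).ne_zero)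
      have hprodpos : ∀ Q ⊆ (N t).primeFactors, (0 : ℝ) < ((∏ p ∈ Q, p : ℕ) : ℝ) := by
        intro Q hQ
        exact_mod_cast Finset.prod_pos (fun p hp => (hprime p (hQ hp)).pos)
      have hLx : ∑ p ∈ (N t).primeFactors, Real.log (p : ℝ) ≤ x := by
        rw [← hlogprod _ (Finset.Subset.refl _)]
        apply Real.log_le_log (hprodpos _ (Finset.Subset.refl _))
        exact_mod_cast a2
      have hLm : ∑ p ∈ (N t).primeFactors.filter (fun p => lab t p = m), Real.log (p : ℝ) ≤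
          ∑ p ∈ (N t).primeFactors, Real.log (p : ℝ) :=
        Finset.sum_le_sum_of_subset_of_nonneg (Finset.filter_subset _ _)
          (fun p _ _ => Real.log_natCast_nonneg p)
      rw [← Real.log_le_log_iff (hprodpos Q hQs) (by positivity), hlogprod Q hQs,
        Real.log_rpow hn0]
      have h5 : ((Kc : ℝ) + 1) * ∑ p ∈ Q, Real.log (p : ℝ) ≤ x := by linarith
      have h6 : 0 ≤ ∑ p ∈ Q, Real.log (p : ℝ) :=
        Finset.sum_nonneg fun p _ => Real.log_natCast_nonneg p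
      have h7 : 8 / ε * ∑ p ∈ Q, Real.log (p : ℝ) ≤ x := by
        refine le_trans (mul_le_mul_of_nonneg_right ?_ h6) h5
        linarith
      have h8 : ε / 8 * (8 / ε * ∑ p ∈ Q, Real.log (p : ℝ)) ≤ ε / 8 * x :=
        mul_le_mul_of_nonneg_left h7 (by positivity)
      have h9 : ε / 8 * (8 / ε * ∑ p ∈ Q, Real.log (p : ℝ)) = ∑ p ∈ Q, Real.log (p : ℝ) := by
        field_simp
      rw [h9] at h8
      exact h8
    · have e1 : (N t).primeFactors \ (P ∪ Q) =
          ((N t).primeFactors.filter (fun p => lab t p = m)) \ Q := by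
        ext p
        rw [Finset.mem_sdiff, Finset.mem_union, hPmem t htT, Finset.mem_sdiff, Finset.mem_filter]
        tauto
      rw [e1]
      have e2 := Finset.sum_sdiff hQ (f := fun p => u t p)
      have e3 := mass_le_one a1 m
      linarith
  have c2 : ∀ d ∈ D, ((T2 d).card : ℝ) ≤ (n : ℝ) ^ (ε / 8) := by
    intro d hd
    refine h3 d hd P (lM m) (T2 d) fun t ht' => ?_
    rw [hT2, Finset.mem_filter] at ht'
    obtain ⟨htT, hbig, hcd⟩ := ht'
    obtain ⟨a1, a2, a3, a4⟩ := hT t htT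
    have hHt := ht_pos a1
    have hlm : lM m ≠ m := (labels m).1
    refine ⟨a1, a2, ?_, a3, hPsub t htT, ?_, ?_⟩
    · have := hKsd d hd
      have h5 : Kf d * x ≤ Ks * x := mul_le_mul_of_nonneg_right this hx0.le
      linarith
    · have e1 : P.filter (fun p => lab t p = lM m) =
          (N t).primeFactors.filter (fun p => lab t p = lM m) := by
        ext p
        rw [Finset.mem_filter, hPmem t htT, Finset.mem_filter]
        constructor
        · rintro ⟨⟨b1, _⟩, b2⟩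
          exact ⟨b1, b2⟩
        · rintro ⟨b1, b2⟩
          exact ⟨⟨b1, fun h => hlm (b2.symm.trans h)⟩, b2⟩
      rw [e1, mass_eq a1, le_div_iff₀ hHt]
      have h5 := log_compM_ge a1 m
      have h6 := log_two_bd
      have h7 := hbig2 t hbig
      linarith
    · refine ⟨((N t).primeFactors.filter (fun p => lab t p = m)).filter (fun p => d ≤ u t p),
        ?_, ?_, ?_⟩
      · intro p hp
        rw [Finset.mem_filter, Finset.mem_filter] at hp
        rw [Finset.mem_sdiff, hPmem t htT]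
        exact ⟨hp.1.1, fun h => h.2 hp.1.2⟩
      · obtain ⟨hd0, _⟩ := hD d hd
        apply Nat.le_floor
        rw [le_div_iff₀ hd0]
        have e1 : ∑ p ∈ ((N t).primeFactors.filter (fun p => lab t p = m)).filter
            (fun p => d ≤ u t p), d ≤ ∑ p ∈ ((N t).primeFactors.filter
            (fun p => lab t p = m)).filter (fun p => d ≤ u t p), u t p :=
          Finset.sum_le_sum fun p hp => (Finset.mem_filter.1 hp).2
        have e2 : ∑ p ∈ ((N t).primeFactors.filter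
            (fun p => lab t p = m)).filter (fun p => d ≤ u t p), u t p ≤
            ∑ p ∈ (N t).primeFactors.filter (fun p => lab t p = m), u t p :=
          Finset.sum_le_sum_of_subset_of_nonneg (Finset.filter_subset _ _)
            (fun p _ _ => u_nonneg a1 p)
        rw [Finset.sum_const, nsmul_eq_mul] at e1
        exact e1.trans (e2.trans (mass_le_one a1 m))
      · refine le_trans (Finset.sum_le_sum_of_subset_of_nonneg ?_
          (fun p _ _ => u_nonneg a1 p)) hcd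
        intro p hp
        rw [Finset.mem_filter, Finset.mem_sdiff, Finset.mem_union, hPmem t htT,
          Finset.mem_filter, Finset.mem_filter] at hp
        rw [Finset.mem_filter, Finset.mem_filter]
        obtain ⟨⟨b1, b2⟩, _⟩ := hp
        push Not at b2
        have b3 : lab t p = m := by
          by_contra h
          exact h (b2.1 b1)
        exact ⟨⟨b1, b3⟩, b2.2 ⟨b1, b3⟩⟩
  have hcard : (T.card : ℝ) ≤ T3.card + (T1.card + ∑ d ∈ D, ((T2 d).card : ℝ)) := by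
    have a1 := Finset.card_le_card hcover
    have a2 := Finset.card_union_le T3 (T1 ∪ D.biUnion T2)
    have a3 := Finset.card_union_le T1 (D.biUnion T2)
    have a4 : (D.biUnion T2).card ≤ ∑ d ∈ D, (T2 d).card := Finset.card_biUnion_le
    have a5 : T.card ≤ T3.card + (T1.card + ∑ d ∈ D, (T2 d).card) := by omega
    exact_mod_cast a5
  have hmono : ∀ a : ℝ, a ≤ ε / 2 → (n : ℝ) ^ a ≤ (n : ℝ) ^ (ε / 2) := fun a ha =>
    Real.rpow_le_rpow_of_exponent_le hn1' ha
  have c4 : ∑ d ∈ D, ((T2 d).card : ℝ) ≤ D.card * (n : ℝ) ^ (ε / 2) := by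
    calc ∑ d ∈ D, ((T2 d).card : ℝ) ≤ ∑ _d ∈ D, (n : ℝ) ^ (ε / 2) :=
          Finset.sum_le_sum fun d hd => (c2 d hd).trans (hmono _ (by linarith))
      _ = D.card * (n : ℝ) ^ (ε / 2) := by rw [Finset.sum_const, nsmul_eq_mul]
  have c5 := c1.trans (hmono (ε / 8 + ε / 8) (by linarith))
  calc (T.card : ℝ) ≤ ((D.card : ℝ) + 2) * (n : ℝ) ^ (ε / 2) := by linarith
    _ ≤ (n : ℝ) ^ (ε / 2) * (n : ℝ) ^ (ε / 2) := mul_le_mul_of_nonneg_right hp (by positivity)
    _ = (n : ℝ) ^ ε := by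
        rw [← Real.rpow_add hn0]
        congr 1
        ring

end Pool.Agent.Lib.Pabc10
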