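import Mathlib
import Pool.Agent.Lib.Pabc2.Count

/-!
# Lower bound for the number of abc triples in a box of radicals (module of BOX)

`box_lower`: for all `A, B, C ≥ 2` there are at least `κ * (product of the two smallest)` coprime pairs
`(a, b)` with `rad a ≤ A`, `rad b ≤ B`, `rad (a + b) ≤ C`.

PROOF. `box_sieve`: at least a quarter of the pairs `(x, y)` in `(0, X] × (0, Y]` have `x` odd and are
coprime, because `∑_{d odd, d ≥ 3} 1/d^2 ≤ 1/4`. If the sum is allowed to be the largest, or `C` is at least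
the smaller of `A, B`, coprime pairs in a box do. If `C < A ≤ B`, use for every odd `m ≤ C/2` the number
`c = 2^j m` in `(A/2, A]` and `a = 2 y + m` with `y` coprime to `m`, `b = c - a`.
-/

open Finset

namespace Pool.Agent.Lib.Pabc10

private lemma rad_le (n : ℕ) (hn : 0 < n) : ∏ p ∈ n.primeFactors, p ≤ n :=
  Nat.le_of_dvd hn (Nat.prod_primeFactors_dvd n)

private lemma tele_sum (N : ℕ) :
    ∑ k ∈ range N, (1 : ℝ) / (2 * (k : ℝ) + 3) ^ 2 ≤ 1 / 4 - 1 / (4 * ((N : ℝ) + 1)) := by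
  induction N with
  | zero => simp
  | succ N ih =>
    rw [sum_range_succ]
    have h : (1 : ℝ) / (2 * (N : ℝ) + 3) ^ 2 ≤
        1 / (4 * ((N : ℝ) + 1)) - 1 / (4 * (((N + 1 : ℕ) : ℝ) + 1)) := by
      push_cast
      rw [div_sub_div _ _ (by positivity) (by positivity), div_le_div_iff₀ (by positivity) (by positivity)]
      nlinarith [(Nat.cast_nonneg N : (0 : ℝ) ≤ N)]
    linarith

private lemma card_odd (X : ℕ) : (X : ℝ) / 2 ≤ (((Ioc 0 X).filter fun x => Odd x).card : ℝ) := by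
  have h1 := Finset.card_filter_add_card_filter_not (s := Ioc 0 X) (fun x => 2 ∣ x)
  have h2 : ((Ioc 0 X).filter fun x => 2 ∣ x).card = X / 2 := Nat.Ioc_filter_dvd_card_eq_div X 2
  have h3 : ((Ioc 0 X).filter fun x => ¬ 2 ∣ x) = (Ioc 0 X).filter fun x => Odd x := by
    refine filter_congr fun x _ => ?_
    rw [← Nat.not_even_iff_odd, even_iff_two_dvd]
  rw [h2, h3, Nat.card_Ioc] at h1
  have h4 : X ≤ 2 * ((Ioc 0 X).filter fun x => Odd x).card := by omega
  have h5 : (X : ℝ) ≤ 2 * (((Ioc 0 X).filter fun x => Odd x).card : ℝ) := by exact_mod_cast h4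
  linarith

/-- At least a quarter of the pairs in a box have an odd first coordinate and are coprime. -/
theorem box_sieve (X Y : ℕ) : (X : ℝ) * Y / 4 ≤
    (((Ioc 0 X ×ˢ Ioc 0 Y).filter fun t : ℕ × ℕ => Odd t.1 ∧ Nat.Coprime t.1 t.2).card : ℝ) := by
  classical
  set U : Finset (ℕ × ℕ) := Ioc 0 X ×ˢ Ioc 0 Y with hU
  have h1 := Finset.card_filter_add_card_filter_not (s := U.filter fun t => Odd t.1)
    (fun t : ℕ × ℕ => Nat.Coprime t.1 t.2)
  rw [filter_filter, filter_filter] at h1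
  have h2 : ((U.filter fun t => Odd t.1).card : ℝ) ≥ (X : ℝ) * Y / 2 := by
    have e : (U.filter fun t => Odd t.1) = ((Ioc 0 X).filter fun x => Odd x) ×ˢ Ioc 0 Y := by
      ext t
      simp only [hU, mem_filter, mem_product]
      tauto
    rw [e, card_product, Nat.card_Ioc]
    have := card_odd X
    push_cast
    have hY : (0 : ℝ) ≤ ((Y - 0 : ℕ) : ℝ) := Nat.cast_nonneg _
    have hY' : ((Y - 0 : ℕ) : ℝ) = Y := by simp
    rw [hY'] at hY
    have h3 : (X : ℝ) * Y / 2 = (X : ℝ) / 2 * Y := by ring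
    rw [ge_iff_le, h3]
    simpa using mul_le_mul_of_nonneg_right this hY
  have h3 : ((U.filter fun t => Odd t.1 ∧ ¬ Nat.Coprime t.1 t.2).card : ℝ) ≤ (X : ℝ) * Y / 4 := by
    have hsub : (U.filter fun t => Odd t.1 ∧ ¬ Nat.Coprime t.1 t.2) ⊆
        (range X).biUnion fun k => ((Ioc 0 X).filter fun x => (2 * k + 3) ∣ x) ×ˢ
          ((Ioc 0 Y).filter fun y => (2 * k + 3) ∣ y) := by
      intro t ht
      rw [mem_filter, hU, mem_product] at ht
      obtain ⟨⟨hx, hy⟩, ho, hc⟩ := ht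
      obtain ⟨p, hp, hp1, hp2⟩ := Nat.Prime.not_coprime_iff_dvd.mp hc
      have hpo : Odd p := ho.of_dvd_nat hp1
      have hp3 : 3 ≤ p := by
        rcases hpo with ⟨q, hq⟩
        have := hp.two_le
        omega
      obtain ⟨q, hq⟩ := hpo
      have hle : p ≤ X := (Nat.le_of_dvd (mem_Ioc.mp hx).1 hp1).trans (mem_Ioc.mp hx).2
      rw [mem_biUnion]
      refine ⟨q - 1, mem_range.mpr (by omega), ?_⟩
      have e : 2 * (q - 1) + 3 = p := by omega
      rw [mem_product, mem_filter, mem_filter, e]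
      exact ⟨⟨hx, hp1⟩, hy, hp2⟩
    have hcard : ((U.filter fun t => Odd t.1 ∧ ¬ Nat.Coprime t.1 t.2).card : ℝ) ≤
        ∑ k ∈ range X, ((X / (2 * k + 3) * (Y / (2 * k + 3)) : ℕ) : ℝ) := by
      have h := (card_le_card hsub).trans card_biUnion_le
      have h' : ∑ k ∈ range X, (((Ioc 0 X).filter fun x => (2 * k + 3) ∣ x) ×ˢ
          ((Ioc 0 Y).filter fun y => (2 * k + 3) ∣ y)).card =
          ∑ k ∈ range X, (X / (2 * k + 3) * (Y / (2 * k + 3))) := by
        refine sum_congr rfl fun k _ => ?_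
        rw [card_product, Nat.Ioc_filter_dvd_card_eq_div, Nat.Ioc_filter_dvd_card_eq_div]
      rw [h'] at h
      exact_mod_cast h
    refine hcard.trans ?_
    have hterm : ∀ k ∈ range X, ((X / (2 * k + 3) * (Y / (2 * k + 3)) : ℕ) : ℝ) ≤
        (X : ℝ) * Y * (1 / (2 * (k : ℝ) + 3) ^ 2) := by
      intro k _
      push_cast
      have e1 : ((X / (2 * k + 3) : ℕ) : ℝ) ≤ (X : ℝ) / (2 * (k : ℝ) + 3) := by
        have := @Nat.cast_div_le ℝ _ _ _ X (2 * k + 3)
        push_cast at this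
        exact this
      have e2 : ((Y / (2 * k + 3) : ℕ) : ℝ) ≤ (Y : ℝ) / (2 * (k : ℝ) + 3) := by
        have := @Nat.cast_div_le ℝ _ _ _ Y (2 * k + 3)
        push_cast at this
        exact this
      calc ((X / (2 * k + 3) : ℕ) : ℝ) * ((Y / (2 * k + 3) : ℕ) : ℝ)
          ≤ (X : ℝ) / (2 * (k : ℝ) + 3) * ((Y : ℝ) / (2 * (k : ℝ) + 3)) :=
            mul_le_mul e1 e2 (Nat.cast_nonneg _) (by positivity)
        _ = (X : ℝ) * Y * (1 / (2 * (k : ℝ) + 3) ^ 2) := by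
            field_simp
    refine (sum_le_sum hterm).trans ?_
    rw [← mul_sum]
    have h5 := tele_sum X
    have h6 : (0 : ℝ) ≤ 1 / (4 * ((X : ℝ) + 1)) := by positivity
    have h7 : (0 : ℝ) ≤ (X : ℝ) * Y := by positivity
    nlinarith [mul_le_mul_of_nonneg_left (h5.trans (by linarith : 1 / 4 - 1 / (4 * ((X : ℝ) + 1)) ≤ 1 / 4)) h7]
  have h4 : ((U.filter fun t => Odd t.1 ∧ Nat.Coprime t.1 t.2).card : ℝ) +
      ((U.filter fun t => Odd t.1 ∧ ¬ Nat.Coprime t.1 t.2).card : ℝ) =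
      ((U.filter fun t => Odd t.1).card : ℝ) := by exact_mod_cast h1
  linarith

private def Good (A B C : ℕ) (t : ℕ × ℕ) : Prop :=
  0 < t.1 ∧ 0 < t.2 ∧ Nat.Coprime t.1 t.2 ∧
      ∏ p ∈ t.1.primeFactors, p ≤ A ∧ ∏ p ∈ t.2.primeFactors, p ≤ B ∧
      ∏ p ∈ (t.1 + t.2).primeFactors, p ≤ C

private lemma half_ge {A : ℕ} (hA : 2 ≤ A) : (A : ℝ) / 3 ≤ ((A / 2 : ℕ) : ℝ) := by
  have h : A ≤ 3 * (A / 2) := by omega
  have : (A : ℝ) ≤ 3 * ((A / 2 : ℕ) : ℝ) := by exact_mod_cast h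
  linarith

/-- The easy box: `a ≤ A / 2`, `b ≤ D / 2`. -/
private lemma easy (A B C D : ℕ) (hA : 2 ≤ A) (hD : 2 ≤ D) (hDB : D ≤ B) (hDC : D ≤ C) (hAC : A ≤ C) :
    ∃ T : Finset (ℕ × ℕ), (∀ t ∈ T, Good A B C t) ∧ (A : ℝ) * D / 36 ≤ T.card := by
  refine ⟨(Ioc 0 (A / 2) ×ˢ Ioc 0 (D / 2)).filter fun t : ℕ × ℕ => Odd t.1 ∧ Nat.Coprime t.1 t.2, ?_, ?_⟩
  · intro t ht
    rw [mem_filter, mem_product, mem_Ioc, mem_Ioc] at ht
    obtain ⟨⟨⟨h1, h2⟩, h3, h4⟩, _, h5⟩ := ht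
    refine ⟨h1, h3, h5, (rad_le _ h1).trans (by omega), (rad_le _ h3).trans (by omega),
      (rad_le _ (by omega)).trans (by omega)⟩
  · have h1 := box_sieve (A / 2) (D / 2)
    have h2 := half_ge hA
    have h3 := half_ge hD
    have h4 : (A : ℝ) / 3 * ((D : ℝ) / 3) ≤ ((A / 2 : ℕ) : ℝ) * ((D / 2 : ℕ) : ℝ) :=
      mul_le_mul h2 h3 (by positivity) (by positivity)
    linarith

/-- `2^j m` in `(A/2, A]`. -/
private lemma dyadic {A m : ℕ} (hm : 0 < m) (hmA : m ≤ A) :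
    2 ^ Nat.log 2 (A / m) * m ≤ A ∧ A < 2 * (2 ^ Nat.log 2 (A / m) * m) := by
  have h1 : 0 < A / m := Nat.div_pos hmA hm
  constructor
  · have := Nat.pow_log_le_self 2 h1.ne'
    calc 2 ^ Nat.log 2 (A / m) * m ≤ A / m * m := Nat.mul_le_mul_right m this
      _ ≤ A := Nat.div_mul_le_self A m
  · have h2 := Nat.lt_pow_succ_log_self (b := 2) (by norm_num) (A / m)
    have h3 : A < (A / m + 1) * m := by
      have := Nat.lt_div_mul_add (a := A) hm
      linarith [Nat.succ_mul (A / m) m]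
    calc A < (A / m + 1) * m := h3
      _ ≤ 2 ^ (Nat.log 2 (A / m) + 1) * m := Nat.mul_le_mul_right m h2
      _ = 2 * (2 ^ Nat.log 2 (A / m) * m) := by rw [pow_succ]; ring

private lemma rad_pow_two_mul (j m : ℕ) (hm : 0 < m) :
    ∏ p ∈ (2 ^ j * m).primeFactors, p ≤ 2 * m := by
  classical
  have hsub : (2 ^ j * m).primeFactors ⊆ insert 2 m.primeFactors := by
    intro p hp
    rw [Nat.mem_primeFactors] at hp
    obtain ⟨hp, hd, _⟩ := hp
    rcases (hp.dvd_mul).mp hd with h | h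
    · have := hp.dvd_of_dvd_pow h
      rw [(Nat.prime_dvd_prime_iff_eq hp Nat.prime_two).mp this]
      exact mem_insert_self _ _
    · exact mem_insert_of_mem (Nat.mem_primeFactors.mpr ⟨hp, h, hm.ne'⟩)
  have h1 : ∏ p ∈ (2 ^ j * m).primeFactors, p ≤ ∏ p ∈ insert 2 m.primeFactors, p := by
    refine Finset.prod_le_prod_of_subset_of_one_le' hsub ?_
    intro p hp _
    rcases mem_insert.mp hp with h | h
    · omega
    · exact (Nat.prime_of_mem_primeFactors h).one_lt.le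
  refine h1.trans ?_
  by_cases h2 : 2 ∈ m.primeFactors
  · rw [insert_eq_of_mem h2]
    exact (rad_le m hm).trans (by omega)
  · rw [prod_insert h2]
    exact Nat.mul_le_mul_left 2 (rad_le m hm)

/-- The hard box: `C < A ≤ B`, `A ≥ 8`. -/
private lemma hard (A B C : ℕ) (hA : 8 ≤ A) (hC : 2 ≤ C) (hCA : C < A) (hAB : A ≤ B) :
    ∃ T : Finset (ℕ × ℕ), (∀ t ∈ T, Good A B C t) ∧ (A : ℝ) * C / 512 ≤ T.card := by
  classical
  set X : ℕ := (C + 3) / 4 with hX
  set Y : ℕ := (A / 2 - X) / 2 with hY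
  have hX1 : 1 ≤ X := by omega
  have hX2 : 2 * X ≤ C := by omega
  have hX4 : C ≤ 4 * X := by omega
  have hXY : 2 * Y + X ≤ A / 2 := by omega
  have hY1 : A ≤ 32 * Y := by omega
  set P : Finset (ℕ × ℕ) := (Ioc 0 X ×ˢ Ioc 0 Y).filter fun t : ℕ × ℕ => Odd t.1 ∧ Nat.Coprime t.1 t.2
    with hP
  let c : ℕ → ℕ := fun m => 2 ^ Nat.log 2 (A / m) * m
  let φ : ℕ × ℕ → ℕ × ℕ := fun t => (2 * t.2 + t.1, c t.1 - (2 * t.2 + t.1))
  have hmem : ∀ t ∈ P, (0 < t.1 ∧ t.1 ≤ X) ∧ (0 < t.2 ∧ t.2 ≤ Y) ∧ Odd t.1 ∧ Nat.Coprime t.1 t.2 ∧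
      c t.1 ≤ A ∧ A < 2 * c t.1 ∧ 2 * t.2 + t.1 < c t.1 := by
    intro t ht
    rw [hP, mem_filter, mem_product, mem_Ioc, mem_Ioc] at ht
    obtain ⟨⟨⟨h1, h2⟩, h3, h4⟩, h5, h6⟩ := ht
    have h7 := dyadic (A := A) h1 (by omega)
    have h8 : A < 2 * c t.1 := h7.2
    refine ⟨⟨h1, h2⟩, ⟨h3, h4⟩, h5, h6, h7.1, h8, ?_⟩
    omega
  have hinj : Set.InjOn φ P := by
    intro t ht s hs hts
    obtain ⟨⟨t1, _⟩, ⟨t2, _⟩, hto, _, _, _, tl⟩ := hmem t ht
    obtain ⟨⟨s1, _⟩, ⟨s2, _⟩, hso, _, _, _, sl⟩ := hmem s hs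
    simp only [φ, Prod.mk.injEq] at hts
    obtain ⟨e1, e2⟩ := hts
    have e3 : c t.1 = c s.1 := by omega
    have e4 : t.1 = s.1 := by
      have h5 : 2 ^ Nat.log 2 (A / t.1) * t.1 = 2 ^ Nat.log 2 (A / s.1) * s.1 := e3
      have key : ∀ i j x y : ℕ, Odd x → 2 ^ i * x = 2 ^ j * y → x ∣ y := by
        intro i j x y hx h
        have h1 : x ∣ 2 ^ j * y := by rw [← h]; exact Dvd.intro_left _ rfl
        exact (Nat.Coprime.pow_right j (Nat.coprime_two_right.mpr hx)).dvd_of_dvd_mul_left h1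
      exact Nat.dvd_antisymm (key _ _ _ _ hto h5) (key _ _ _ _ hso h5.symm)
    ext
    · exact e4
    · omega
  refine ⟨P.image φ, ?_, ?_⟩
  · intro s hs
    obtain ⟨t, ht, rfl⟩ := mem_image.mp hs
    obtain ⟨⟨t1, t1'⟩, ⟨t2, t2'⟩, hto, tc, hcA, hcA2, tl⟩ := hmem t ht
    have hadd : 2 * t.2 + t.1 + (c t.1 - (2 * t.2 + t.1)) = c t.1 := by omega
    have hodd : Odd (2 * t.2 + t.1) := by
      obtain ⟨q, hq⟩ := hto
      exact ⟨t.2 + q, by omega⟩
    have hcop : Nat.Coprime (2 * t.2 + t.1) (c t.1) := by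
      have h1 : Nat.Coprime (2 * t.2 + t.1) (2 ^ Nat.log 2 (A / t.1)) :=
        Nat.Coprime.pow_right _ (Nat.coprime_two_right.mpr hodd)
      have h2 : Nat.Coprime (2 * t.2 + t.1) t.1 := by
        rw [Nat.coprime_add_self_left]
        exact Nat.Coprime.mul_left (Nat.coprime_two_left.mpr hto) tc.symm
      exact Nat.Coprime.mul_right h1 h2
    refine ⟨by simp only [φ]; omega, by simp only [φ]; omega, ?_, ?_, ?_, ?_⟩
    · show Nat.Coprime (2 * t.2 + t.1) (c t.1 - (2 * t.2 + t.1))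
      refine Nat.coprime_self_add_right.mp ?_
      rw [hadd]
      exact hcop
    · show ∏ p ∈ (2 * t.2 + t.1).primeFactors, p ≤ A
      exact (rad_le _ (by omega)).trans (by omega)
    · show ∏ p ∈ (c t.1 - (2 * t.2 + t.1)).primeFactors, p ≤ B
      exact (rad_le _ (by omega)).trans (by omega)
    · show ∏ p ∈ (2 * t.2 + t.1 + (c t.1 - (2 * t.2 + t.1))).primeFactors, p ≤ C
      rw [hadd]
      exact (rad_pow_two_mul _ _ t1).trans (by omega)
  · rw [card_image_of_injOn hinj]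
    have h1 := box_sieve X Y
    have h2 : (C : ℝ) ≤ 4 * X := by exact_mod_cast hX4
    have h3 : (A : ℝ) ≤ 32 * Y := by exact_mod_cast hY1
    have h4 : (A : ℝ) * C ≤ (32 * Y) * (4 * X) :=
      mul_le_mul h3 h2 (Nat.cast_nonneg _) (by positivity)
    have h5 : (A : ℝ) * C / 512 ≤ (X : ℝ) * Y / 4 := by linarith
    exact h5.trans h1

/-- `B` is the largest. -/
private lemma bmax (A B C : ℕ) (hA : 2 ≤ A) (hC : 2 ≤ C) (hAB : A ≤ B) (hCB : C ≤ B) :
    ∃ T : Finset (ℕ × ℕ), (∀ t ∈ T, Good A B C t) ∧ (A : ℝ) * C / 512 ≤ T.card := by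
  have hnn : (0 : ℝ) ≤ (A : ℝ) * C := by positivity
  by_cases h : A ≤ C
  · obtain ⟨T, h1, h2⟩ := easy A B C C hA hC hCB le_rfl h
    exact ⟨T, h1, by linarith⟩
  · by_cases h8 : 8 ≤ A
    · exact hard A B C h8 hC (by omega) hAB
    · refine ⟨{(1, 1)}, ?_, ?_⟩
      · intro t ht
        rw [mem_singleton] at ht
        subst ht
        refine ⟨by norm_num, by norm_num, by norm_num, ?_, ?_, ?_⟩
        · simp only [Nat.primeFactors_one, prod_empty]; omega
        · simp only [Nat.primeFactors_one, prod_empty]; omega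
        · exact (rad_le _ (by norm_num)).trans (by norm_num; omega)
      · rw [card_singleton]
        have h9 : A * C ≤ 7 * 7 := Nat.mul_le_mul (by omega) (by omega)
        have h10 : (A : ℝ) * C ≤ 49 := by exact_mod_cast h9
        push_cast
        linarith

/-- The product of the two smallest of three numbers, `≥`-form: at least `κ` times it many triples. -/
theorem box_lower : ∃ κ : ℝ, 0 < κ ∧ ∀ A B C : ℕ, 2 ≤ A → 2 ≤ B → 2 ≤ C →
    ∃ T : Finset (ℕ × ℕ), (∀ t ∈ T, 0 < t.1 ∧ 0 < t.2 ∧ Nat.Coprime t.1 t.2 ∧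
      ∏ p ∈ t.1.primeFactors, p ≤ A ∧ ∏ p ∈ t.2.primeFactors, p ≤ B ∧
      ∏ p ∈ (t.1 + t.2).primeFactors, p ≤ C) ∧
      κ * ((A : ℝ) * B * C / max A (max B C)) ≤ T.card := by
  classical
  refine ⟨1 / 512, by norm_num, ?_⟩
  intro A B C hA hB hC
  have hA0 : (0 : ℝ) < A := by exact_mod_cast (by omega : 0 < A)
  have hB0 : (0 : ℝ) < B := by exact_mod_cast (by omega : 0 < B)
  have hC0 : (0 : ℝ) < C := by exact_mod_cast (by omega : 0 < C)
  by_cases h1 : A ≤ B ∧ C ≤ B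
  · obtain ⟨T, hT, hc⟩ := bmax A B C hA hC h1.1 h1.2
    refine ⟨T, hT, ?_⟩
    have e : max A (max B C) = B := by
      rw [max_eq_left h1.2, max_eq_right h1.1]
    rw [e]
    have : (1 : ℝ) / 512 * ((A : ℝ) * B * C / B) = (A : ℝ) * C / 512 := by
      field_simp
    rw [this]
    exact hc
  · by_cases h2 : B ≤ A ∧ C ≤ A
    · obtain ⟨T, hT, hc⟩ := bmax B A C hB hC h2.1 h2.2
      refine ⟨T.image Prod.swap, ?_, ?_⟩
      · intro s hs
        obtain ⟨t, ht, rfl⟩ := mem_image.mp hs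
        obtain ⟨g1, g2, g3, g4, g5, g6⟩ := hT t ht
        refine ⟨g2, g1, g3.symm, g5, g4, ?_⟩
        show ∏ p ∈ (t.2 + t.1).primeFactors, p ≤ C
        rw [add_comm]
        exact g6
      · rw [card_image_of_injective _ Prod.swap_injective]
        have e : max A (max B C) = A := max_eq_left (max_le h2.1 h2.2)
        rw [e]
        have : (1 : ℝ) / 512 * ((A : ℝ) * B * C / A) = (B : ℝ) * C / 512 := by
          field_simp
        rw [this]
        exact hc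
    · have hAC : A ≤ C := by omega
      have hBC : B ≤ C := by omega
      obtain ⟨T, hT, hc⟩ := easy A B C B hA hB le_rfl hBC hAC
      refine ⟨T, hT, ?_⟩
      have e : max A (max B C) = C := by
        rw [max_eq_right hBC, max_eq_right hAC]
      rw [e]
      have e2 : (1 : ℝ) / 512 * ((A : ℝ) * B * C / C) = (A : ℝ) * B / 512 := by
        field_simp
      rw [e2]
      have : (0 : ℝ) ≤ (A : ℝ) * B := by positivity
      linarith

end Pool.Agent.Lib.Pabc10
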