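import Mathlib
import Pool.Agent.Lib.Pabc9.Height
import Pool.Agent.Lib.Pabc9.ThmEProof

/-!
# An effective bound for the height of all triples
-/

open Finset Filter Topology

namespace Pool.Agent.Lib.Pabc10

open Pool.Agent.Lib.Pabc2 Pool.Agent.Lib.Pabc1 Pool.Agent.Lib.Pabc9

/-- All triples of radical at most `n` have height at most `exp (n ^ 3)`. -/
theorem cube_ht_le : ∀ᶠ n : ℕ in atTop, ∀ t : ℕ × ℕ, IsT t → rd t ≤ n →
    ht t ≤ (n : ℝ) ^ (3 : ℝ) := by
  filter_upwards [height thmE 1 one_pos, eventually_ge_atTop 1] with n hn hn1 t hI hrd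
  obtain ⟨R, hR⟩ := exists_prime hI
  have hn0 : (0 : ℝ) < n := by exact_mod_cast hn1
  refine (hn t hI hrd R hR).trans ?_
  have h1 : ∏ p ∈ (N t).primeFactors.erase R, (p : ℝ) ≤ n := by
    rw [← Nat.cast_prod]
    have h2 : ∏ p ∈ (N t).primeFactors.erase R, p ≤ rd t :=
      Finset.prod_le_prod_of_subset_of_one_le' (Finset.erase_subset _ _) (fun p h _ =>
        (Nat.prime_of_mem_primeFactors h).one_lt.le)
    exact_mod_cast h2.trans hrd
  have h3 : 0 ≤ ∏ p ∈ (N t).primeFactors.erase R, (p : ℝ) :=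
    Finset.prod_nonneg fun p _ => Nat.cast_nonneg p
  rw [Real.rpow_one, show (3 : ℝ) = ((3 : ℕ) : ℝ) by norm_num, Real.rpow_natCast]
  calc (∏ p ∈ (N t).primeFactors.erase R, (p : ℝ)) ^ 2 * (n : ℝ) ≤ (n : ℝ) ^ 2 * n := by
        gcongr
    _ = (n : ℝ) ^ 3 := by ring

end Pool.Agent.Lib.Pabc10
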