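import Mathlib

/-!
# A divisor of the radical type
-/

open Finset

namespace Pool.Agent.Lib.Pabc10

/-- A number `M0` with the primes of `M`, whose `N`-th power is a small multiple of `M`. -/
theorem exists_MZero (M N : ℕ) (hM : 0 < M) (hN : 0 < N) : ∃ M0 : ℕ, 0 < M0 ∧ M ∣ M0 ^ N ∧
    M0 ^ N ≤ M * (∏ q ∈ M.primeFactors, q) ^ N ∧ (∀ q : ℕ, q.Coprime M → q.Coprime M0) := by
  set a : ℕ → ℕ := fun q => (M.factorization q + (N - 1)) / N with ha
  have ha1 : ∀ q, M.factorization q ≤ a q * N := by
    intro q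
    have h1 := Nat.div_add_mod (M.factorization q + (N - 1)) N
    have h2 := Nat.mod_lt (M.factorization q + (N - 1)) hN
    have h3 : a q * N = N * ((M.factorization q + (N - 1)) / N) := by rw [ha, mul_comm]
    omega
  have ha2 : ∀ q, a q * N ≤ M.factorization q + N := by
    intro q
    have h1 := Nat.div_mul_le_self (M.factorization q + (N - 1)) N
    have h3 : a q * N = (M.factorization q + (N - 1)) / N * N := by rw [ha]
    omega
  have hMf : ∏ q ∈ M.primeFactors, q ^ M.factorization q = M :=
    Nat.prod_factorization_pow_eq_self hM.ne'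
  refine ⟨∏ q ∈ M.primeFactors, q ^ a q, ?_, ?_, ?_, ?_⟩
  · exact Finset.prod_pos fun q hq => pow_pos (Nat.prime_of_mem_primeFactors hq).pos _
  · conv_lhs => rw [← hMf]
    rw [← Finset.prod_pow]
    refine Finset.prod_dvd_prod_of_dvd _ _ ?_
    intro q _
    rw [← pow_mul]
    exact pow_dvd_pow _ (ha1 q)
  · conv_rhs => rw [← hMf]
    have hpf : (∏ q ∈ M.primeFactors, q ^ M.factorization q).primeFactors = M.primeFactors := by
      rw [hMf]
    rw [hpf, ← Finset.prod_pow, ← Finset.prod_pow, ← Finset.prod_mul_distrib]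
    refine Finset.prod_le_prod' ?_
    intro q hq
    rw [← pow_mul, ← pow_add]
    exact Nat.pow_le_pow_right (Nat.prime_of_mem_primeFactors hq).pos (ha2 q)
  · intro q hq
    refine Nat.Coprime.prod_right ?_
    intro q' hq'
    refine Nat.Coprime.pow_right _ ?_
    exact Nat.Coprime.coprime_dvd_right (Nat.dvd_of_mem_primeFactors hq') hq

end Pool.Agent.Lib.Pabc10
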