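import Mathlib
import Pool.Agent.Lib.AbcE.Core
import Pool.Agent.Lib.Pabc10.MZero

/-!
# Abstract class lemma

A family of congruences `A i * P i ^ r * u ≡ σ * A' i * N i ^ r * v` modulo one large integer `M`, with
`A i, A' i` of small height and with private primes `q i ∣ P i * N i`, is small.
-/

open Finset

namespace Pool.Agent.Lib.Pabc10

open Pool.Agent.AbcE

section

variable {ι : Type*} [DecidableEq ι]

omit [DecidableEq ι] in
/-- The product congruence of two subsets. -/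
theorem prod_cong (T : Finset ι) (P N A A' : ι → ℕ) (M r w : ℕ)
    (u v : ℕ) (hu : u.Coprime M) (hv : v.Coprime M) (σ : ℤ)
    (hdiv : ∀ i ∈ T, (M : ℤ) ∣ ((A i * P i ^ r * u : ℕ) : ℤ) - σ * ((A' i * N i ^ r * v : ℕ) : ℤ))
    (I J : Finset ι) (hI : I ⊆ T) (hJ : J ⊆ T) (hIc : I.card = w) (hJc : J.card = w) :
    (M : ℤ) ∣ ((((∏ i ∈ I, A i) * ∏ i ∈ J, A' i : ℕ)) : ℤ) *
        (((∏ i ∈ I, P i) * ∏ i ∈ J, N i : ℕ) : ℤ) ^ r -
      ((((∏ i ∈ I, A' i) * ∏ i ∈ J, A i : ℕ)) : ℤ) *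
        (((∏ i ∈ I, N i) * ∏ i ∈ J, P i : ℕ) : ℤ) ^ r := by
  have hrel : ∀ K ⊆ T, K.card = w →
      (M : ℤ) ∣ ((((∏ i ∈ K, A i) * (∏ i ∈ K, P i) ^ r * u ^ w : ℕ)) : ℤ) -
        σ ^ w * ((((∏ i ∈ K, A' i) * (∏ i ∈ K, N i) ^ r * v ^ w : ℕ)) : ℤ) := by
    intro K hK hKc
    have h1 : ∀ i ∈ K, ((A i * P i ^ r * u : ℕ) : ℤ) ≡
        σ * ((A' i * N i ^ r * v : ℕ) : ℤ) [ZMOD (M : ℤ)] := by
      intro i hi
      exact (Int.modEq_iff_dvd.mpr (hdiv i (hK hi))).symm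
    have h2 := Int.ModEq.prod h1
    rw [Finset.prod_mul_distrib, Finset.prod_const, hKc] at h2
    have h3 := Int.modEq_iff_dvd.mp h2.symm
    have e1 : ∏ i ∈ K, ((A i * P i ^ r * u : ℕ) : ℤ) =
        ((((∏ i ∈ K, A i) * (∏ i ∈ K, P i) ^ r * u ^ w : ℕ)) : ℤ) := by
      push_cast
      rw [Finset.prod_mul_distrib, Finset.prod_mul_distrib, Finset.prod_const, hKc,
        Finset.prod_pow]
    have e2 : ∏ i ∈ K, ((A' i * N i ^ r * v : ℕ) : ℤ) =
        ((((∏ i ∈ K, A' i) * (∏ i ∈ K, N i) ^ r * v ^ w : ℕ)) : ℤ) := by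
      push_cast
      rw [Finset.prod_mul_distrib, Finset.prod_mul_distrib, Finset.prod_const, hKc,
        Finset.prod_pow]
    rw [e1, e2] at h3
    exact h3
  have r1 := hrel I hI hIc
  have r2 := hrel J hJ hJc
  set AI := ∏ i ∈ I, A i
  set AJ := ∏ i ∈ J, A i
  set AI' := ∏ i ∈ I, A' i
  set AJ' := ∏ i ∈ J, A' i
  set PI := ∏ i ∈ I, P i
  set PJ := ∏ i ∈ J, P i
  set NI := ∏ i ∈ I, N i
  set NJ := ∏ i ∈ J, N i
  have r3 : (M : ℤ) ∣ ((u ^ w * v ^ w : ℕ) : ℤ) *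
      (((AI * AJ' : ℕ) : ℤ) * ((PI * NJ : ℕ) : ℤ) ^ r -
        ((AI' * AJ : ℕ) : ℤ) * ((NI * PJ : ℕ) : ℤ) ^ r) := by
    have e : ((u ^ w * v ^ w : ℕ) : ℤ) * (((AI * AJ' : ℕ) : ℤ) * ((PI * NJ : ℕ) : ℤ) ^ r -
        ((AI' * AJ : ℕ) : ℤ) * ((NI * PJ : ℕ) : ℤ) ^ r) =
        (((AI * PI ^ r * u ^ w : ℕ) : ℤ) - σ ^ w * ((AI' * NI ^ r * v ^ w : ℕ) : ℤ)) *
          ((AJ' * NJ ^ r * v ^ w : ℕ) : ℤ) -
        (((AJ * PJ ^ r * u ^ w : ℕ) : ℤ) - σ ^ w * ((AJ' * NJ ^ r * v ^ w : ℕ) : ℤ)) *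
          ((AI' * NI ^ r * v ^ w : ℕ) : ℤ) := by
      push_cast
      ring
    rw [e]
    exact dvd_sub (Dvd.dvd.mul_right r1 _) (Dvd.dvd.mul_right r2 _)
  have hc : IsCoprime (M : ℤ) ((u ^ w * v ^ w : ℕ) : ℤ) := by
    rw [Nat.isCoprime_iff_coprime]
    exact (Nat.Coprime.mul_left (hu.pow_left _) (hv.pow_left _)).symm
  exact hc.dvd_of_dvd_mul_left r3

/-- The numerical part of the size estimate. -/
theorem size_aux {r D d n w K3 : ℕ} {δ H x lB lA : ℝ} (hδ : 0 < δ) (hH0 : 0 < H) (hx0 : 0 < x)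
    (hrR : (0 : ℝ) < r) (hn1 : (1 : ℝ) ≤ n) (hK3R : (192 : ℝ) ≤ K3)
    (hK3 : 192 * (w : ℝ) ≤ δ * K3) (hx : 100 * (K3 : ℝ) ≤ δ * x) (hnx : (n : ℝ) * x ≤ H)
    (hD1R : (K3 : ℝ) * D ≤ r) (hd1R : (d : ℝ) * (D + 1) ≤ 4 * n) (hDn : 4 * (D : ℝ) ≤ n + 1)
    (hdr : (d : ℝ) * r ≤ 4 * n * K3) (hlogB : lB ≤ 4 * w * H / r)
    (hlogA : lA ≤ δ * x * r / (96 * K3)) :
    2 * Real.log (((D : ℝ) + 1) * (d + 1)) + (D + d * r) * Real.log 4 + 6 * D * lB + 6 * d * lA <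
      δ * H := by
  have hD0 : (0 : ℝ) ≤ D := Nat.cast_nonneg _
  have hd0 : (0 : ℝ) ≤ d := Nat.cast_nonneg _
  have hδH : 0 < δ * H := mul_pos hδ hH0
  have hnδ : 100 * (K3 : ℝ) * n ≤ δ * H := by
    calc 100 * (K3 : ℝ) * n ≤ δ * x * n := mul_le_mul_of_nonneg_right hx (Nat.cast_nonneg _)
      _ = δ * (n * x) := by ring
      _ ≤ δ * H := mul_le_mul_of_nonneg_left hnx hδ.le
  have hnδ' : 19200 * (n : ℝ) ≤ δ * H := by nlinarith
  have t1 : 2 * Real.log (((D : ℝ) + 1) * (d + 1)) ≤ 12 * n := by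
    have h0 : (0 : ℝ) < ((D : ℝ) + 1) * (d + 1) := by positivity
    have h1 : ((D : ℝ) + 1) * (d + 1) ≤ 4 * n + (D + 1) := by
      have : ((D : ℝ) + 1) * (d + 1) = d * (D + 1) + (D + 1) := by ring
      rw [this]
      linarith
    have h2 := Real.log_le_sub_one_of_pos h0
    linarith
  have t2 : ((D : ℝ) + d * r) * Real.log 4 ≤ 7 * K3 * n := by
    have h1 : Real.log 4 ≤ 1.4 := by
      have h2 : Real.log 4 = 2 * Real.log 2 := by
        rw [show (4 : ℝ) = 2 ^ 2 from by norm_num, Real.log_pow]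
        norm_num
      have := Real.log_two_lt_d9
      rw [h2]; linarith
    have h3 : (0 : ℝ) ≤ (D : ℝ) + d * r := by positivity
    calc ((D : ℝ) + d * r) * Real.log 4 ≤ ((D : ℝ) + d * r) * 1.4 :=
          mul_le_mul_of_nonneg_left h1 h3
      _ ≤ (n + 4 * n * K3) * 1.4 := by
          have : (D : ℝ) ≤ n := by linarith
          linarith
      _ ≤ 7 * K3 * n := by nlinarith
  have t3 : 6 * (D : ℝ) * lB ≤ δ * H / 8 := by
    have h1 : 6 * (D : ℝ) * lB ≤ 6 * D * (4 * w * H / r) :=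
      mul_le_mul_of_nonneg_left hlogB (by positivity)
    have h2 : (6 * (D : ℝ) * (4 * w * H / r)) ≤ δ * H / 8 := by
      rw [mul_div_assoc', div_le_div_iff₀ hrR (by norm_num)]
      have h3 : 192 * (w : ℝ) * D ≤ δ * r := by
        calc 192 * (w : ℝ) * D ≤ δ * K3 * D := mul_le_mul_of_nonneg_right hK3 hD0
          _ = δ * (K3 * D) := by ring
          _ ≤ δ * r := mul_le_mul_of_nonneg_left hD1R hδ.le
      calc 6 * (D : ℝ) * (4 * w * H) * 8 = 192 * (w : ℝ) * D * H := by ring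
        _ ≤ δ * r * H := mul_le_mul_of_nonneg_right h3 hH0.le
        _ = δ * H * r := by ring
    exact h1.trans h2
  have t4 : 6 * (d : ℝ) * lA ≤ δ * H / 4 := by
    have h1 : 6 * (d : ℝ) * lA ≤ 6 * d * (δ * x * r / (96 * K3)) :=
      mul_le_mul_of_nonneg_left hlogA (by positivity)
    have h2 : (6 * (d : ℝ) * (δ * x * r / (96 * K3))) ≤ δ * H / 4 := by
      rw [mul_div_assoc', div_le_div_iff₀ (by positivity) (by norm_num)]
      calc 6 * (d : ℝ) * (δ * x * r) * 4 = 24 * (δ * x) * (d * r) := by ring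
        _ ≤ 24 * (δ * x) * (4 * n * K3) := mul_le_mul_of_nonneg_left hdr (by positivity)
        _ = δ * (n * x) * (96 * K3) := by ring
        _ ≤ δ * H * (96 * K3) := by
            apply mul_le_mul_of_nonneg_right _ (by positivity)
            exact mul_le_mul_of_nonneg_left hnx hδ.le
    exact h1.trans h2
  linarith

/-- **Abstract class lemma.** -/
theorem class_abs (T : Finset ι) (P N A A' : ι → ℕ)
    (hP : ∀ i ∈ T, 0 < P i) (hN : ∀ i ∈ T, 0 < N i) (hA : ∀ i ∈ T, 0 < A i)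
    (hA' : ∀ i ∈ T, 0 < A' i)
    (M r w K3 : ℕ) (hM : 0 < M) (hw : 1 ≤ w)
    (cP : ∀ i ∈ T, (P i).Coprime M) (cN : ∀ i ∈ T, (N i).Coprime M)
    (cA' : ∀ i ∈ T, (A' i).Coprime M) (cA : ∀ i ∈ T, (A i).Coprime M)
    (u v : ℕ) (hu : u.Coprime M) (hv : v.Coprime M) (σ : ℤ)
    (hdiv : ∀ i ∈ T, (M : ℤ) ∣ ((A i * P i ^ r * u : ℕ) : ℤ) - σ * ((A' i * N i ^ r * v : ℕ) : ℤ))
    (q : ι → ℕ) (hq : ∀ i ∈ T, (q i).Prime) (hown : ∀ i ∈ T, q i ∣ P i * N i)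
    (hPN : ∀ i ∈ T, (P i).Coprime (N i))
    (hpriv : ∀ i ∈ T, ∀ j ∈ T, i ≠ j → ¬ q i ∣ P j * N j)
    (δ H x : ℝ) (hδ : 0 < δ) (hδ1 : δ ≤ 1) (hx0 : 0 < x) (hK3 : 192 * (w : ℝ) ≤ δ * K3)
    (hx : 100 * (K3 : ℝ) ≤ δ * x) (hH : 2 * x ≤ H) (hr0 : 48 * K3 ≤ r)
    (hr1 : 4 * x * r ≤ K3 * H) (hM1 : δ * H ≤ Real.log M) (hM2 : Real.log M ≤ 2 * H)
    (hPb : ∀ i ∈ T, r * Real.log (P i) ≤ 2 * H) (hNb : ∀ i ∈ T, r * Real.log (N i) ≤ 2 * H)
    (hAb : ∀ i ∈ T, 192 * w * K3 * Real.log (A i) ≤ δ * x * r)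
    (hAb' : ∀ i ∈ T, 192 * w * K3 * Real.log (A' i) ≤ δ * x * r) :
    (T.card.choose w : ℝ) ≤ Real.exp (4 * x) * ((∏ p ∈ M.primeFactors, p : ℕ) : ℝ) := by
  classical
  by_contra hcon
  push Not at hcon
  have hw0 : (1 : ℝ) ≤ w := by exact_mod_cast hw
  have hK3R : (192 : ℝ) ≤ K3 := by
    by_contra h
    push Not at h
    have : δ * (K3 : ℝ) ≤ 1 * K3 := mul_le_mul_of_nonneg_right hδ1 (Nat.cast_nonneg _)
    linarith
  have hK3N : 192 ≤ K3 := by exact_mod_cast hK3R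
  have hH0 : 0 < H := by linarith
  have hMR : (0 : ℝ) < M := by exact_mod_cast hM
  have hr0' : 9216 ≤ r := by
    calc 9216 = 48 * 192 := by norm_num
      _ ≤ 48 * K3 := Nat.mul_le_mul_left _ hK3N
      _ ≤ r := hr0
  have hrpos : 0 < r := by omega
  have hrR : (0 : ℝ) < r := by exact_mod_cast hrpos
  have hr0R : 48 * (K3 : ℝ) ≤ r := by exact_mod_cast hr0
  -- the number of conditions
  set n : ℕ := ⌊H / x⌋₊ with hn
  have hnle : (n : ℝ) ≤ H / x := Nat.floor_le (by positivity)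
  have hnlt : H / x < (n : ℝ) + 1 := Nat.lt_floor_add_one _
  have hHx : 2 ≤ H / x := by rw [le_div_iff₀ hx0]; linarith
  have hn1 : (1 : ℝ) ≤ n := by
    have : 1 ≤ n := by
      rw [hn]
      apply Nat.le_floor
      push_cast
      linarith
    exact_mod_cast this
  have hn0 : 0 < n := by
    have : (0 : ℝ) < n := by linarith
    exact_mod_cast this
  have hnx : (n : ℝ) * x ≤ H := by
    rw [le_div_iff₀ hx0] at hnle
    exact hnle
  have hHn : H < (n + 1) * x := by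
    rw [div_lt_iff₀ hx0] at hnlt
    exact hnlt
  obtain ⟨M0, hM0, hMM0, hM0le, hM0cop⟩ := exists_MZero M n hM hn0
  set R : ℝ := ((∏ p ∈ M.primeFactors, p : ℕ) : ℝ) with hR
  have hR1 : 1 ≤ R := by
    rw [hR]
    exact_mod_cast Nat.succ_le_of_lt
      (Finset.prod_pos fun q hq => (Nat.prime_of_mem_primeFactors hq).pos)
  have hM0R : (0 : ℝ) < M0 := by exact_mod_cast hM0
  have hM0e : (M0 : ℝ) ≤ Real.exp (4 * x) * R := by
    have h1 : ((M0 : ℝ)) ^ n ≤ M * R ^ n := by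
      rw [hR]
      exact_mod_cast hM0le
    have h2 := Real.log_le_log (by positivity) h1
    rw [Real.log_mul hMR.ne' (by positivity), Real.log_pow, Real.log_pow] at h2
    have h3 : Real.log M0 ≤ 4 * x + Real.log R := by
      have h4 : (n : ℝ) * Real.log M0 ≤ n * (4 * x + Real.log R) := by
        have h5 : 2 * H ≤ n * (4 * x) := by nlinarith
        linarith
      exact le_of_mul_le_mul_left h4 (by linarith)
    calc (M0 : ℝ) = Real.exp (Real.log M0) := (Real.exp_log hM0R).symm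
      _ ≤ Real.exp (4 * x + Real.log R) := Real.exp_le_exp.2 h3
      _ = Real.exp (4 * x) * R := by rw [Real.exp_add, Real.exp_log (by linarith)]
  have hcard : M0 < (T.powersetCard w).card := by
    rw [Finset.card_powersetCard]
    have : (M0 : ℝ) < (T.card.choose w : ℝ) := lt_of_le_of_lt hM0e hcon
    exact_mod_cast this
  have : NeZero M0 := ⟨hM0.ne'⟩
  -- pigeonhole
  obtain ⟨I, hI, J, hJ, hne, hfe⟩ := Finset.exists_ne_map_eq_of_card_lt_of_maps_to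
    (s := T.powersetCard w) (t := (Finset.univ : Finset (ZMod M0)))
    (f := fun I => ((∏ i ∈ I, P i : ℕ) : ZMod M0) * ((∏ i ∈ I, N i : ℕ) : ZMod M0)⁻¹)
    (by rw [Finset.card_univ, ZMod.card]; exact hcard) (fun I _ => Finset.mem_univ _)
  rw [Finset.mem_powersetCard] at hI hJ
  set B1 : ℕ := (∏ i ∈ I, P i) * ∏ i ∈ J, N i with hB1
  set B2 : ℕ := (∏ i ∈ I, N i) * ∏ i ∈ J, P i with hB2
  set A1 : ℕ := (∏ i ∈ I, A i) * ∏ i ∈ J, A' i with hA1
  set A2 : ℕ := (∏ i ∈ I, A' i) * ∏ i ∈ J, A i with hA2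
  have hcop : ∀ (f : ι → ℕ), (∀ i ∈ T, (f i).Coprime M) → ∀ K ⊆ T, (∏ i ∈ K, f i).Coprime M :=
    fun f hf K hK => Nat.Coprime.prod_left fun i hi => hf i (hK hi)
  have hpos : ∀ (f : ι → ℕ), (∀ i ∈ T, 0 < f i) → ∀ K ⊆ T, 0 < ∏ i ∈ K, f i :=
    fun f hf K hK => Finset.prod_pos fun i hi => hf i (hK hi)
  have hB1pos : 0 < B1 := Nat.mul_pos (hpos P hP I hI.1) (hpos N hN J hJ.1)
  have hB2pos : 0 < B2 := Nat.mul_pos (hpos N hN I hI.1) (hpos P hP J hJ.1)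
  have hA1pos : 0 < A1 := Nat.mul_pos (hpos A hA I hI.1) (hpos A' hA' J hJ.1)
  have hA2pos : 0 < A2 := Nat.mul_pos (hpos A' hA' I hI.1) (hpos A hA J hJ.1)
  have hBdvd : (M0 : ℤ) ∣ (B1 : ℤ) - B2 := by
    rw [← ZMod.intCast_zmod_eq_zero_iff_dvd]
    rw [hB1, hB2]
    push_cast
    rw [sub_eq_zero]
    have i1 := ZMod.coe_mul_inv_eq_one (∏ i ∈ I, N i) (hM0cop _ (hcop N cN I hI.1))
    have i2 := ZMod.coe_mul_inv_eq_one (∏ i ∈ J, N i) (hM0cop _ (hcop N cN J hJ.1))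
    push_cast at i1 i2 hfe
    calc (∏ i ∈ I, (P i : ZMod M0)) * ∏ i ∈ J, (N i : ZMod M0)
        = (∏ i ∈ I, (P i : ZMod M0)) *
          ((∏ i ∈ I, (N i : ZMod M0)) * (∏ i ∈ I, (N i : ZMod M0))⁻¹) *
          ∏ i ∈ J, (N i : ZMod M0) := by rw [i1, mul_one]
      _ = ((∏ i ∈ I, (P i : ZMod M0)) * (∏ i ∈ I, (N i : ZMod M0))⁻¹) *
          ((∏ i ∈ I, (N i : ZMod M0)) * ∏ i ∈ J, (N i : ZMod M0)) := by ring
      _ = ((∏ i ∈ J, (P i : ZMod M0)) * (∏ i ∈ J, (N i : ZMod M0))⁻¹) *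
          ((∏ i ∈ I, (N i : ZMod M0)) * ∏ i ∈ J, (N i : ZMod M0)) := by rw [hfe]
      _ = (∏ i ∈ J, (P i : ZMod M0)) *
          ((∏ i ∈ J, (N i : ZMod M0)) * (∏ i ∈ J, (N i : ZMod M0))⁻¹) *
          (∏ i ∈ I, (N i : ZMod M0)) := by ring
      _ = (∏ i ∈ I, (N i : ZMod M0)) * ∏ i ∈ J, (P i : ZMod M0) := by rw [i2, mul_one]; ring
  -- distinctness
  have hBne : B1 ≠ B2 := by
    intro heq
    have hsub : ¬ I ⊆ J := by
      intro h
      exact hne (Finset.eq_of_subset_of_card_le h (by rw [hI.2, hJ.2]))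
    obtain ⟨i, hiI, hiJ⟩ := Finset.not_subset.1 hsub
    have hiT := hI.1 hiI
    have hpr := hq i hiT
    have hnot : ∀ j ∈ T, j ≠ i → ¬ q i ∣ P j ∧ ¬ q i ∣ N j := by
      intro j hj hji
      have h1 := hpriv i hiT j hj (Ne.symm hji)
      exact ⟨fun h => h1 (h.mul_right _), fun h => h1 (h.mul_left _)⟩
    have hprodP : ∀ K ⊆ T, q i ∣ ∏ j ∈ K, P j → i ∈ K ∧ q i ∣ P i := by
      intro K hK hd
      obtain ⟨j, hj, hjd⟩ := (hpr.prime.dvd_finsetProd_iff _).mp hd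
      by_cases hji : j = i
      · subst hji; exact ⟨hj, hjd⟩
      · exact absurd hjd (hnot j (hK hj) hji).1
    have hprodN : ∀ K ⊆ T, q i ∣ ∏ j ∈ K, N j → i ∈ K ∧ q i ∣ N i := by
      intro K hK hd
      obtain ⟨j, hj, hjd⟩ := (hpr.prime.dvd_finsetProd_iff _).mp hd
      by_cases hji : j = i
      · subst hji; exact ⟨hj, hjd⟩
      · exact absurd hjd (hnot j (hK hj) hji).2
    have hnb : ¬ (q i ∣ P i ∧ q i ∣ N i) := by
      rintro ⟨h1, h2⟩
      have := Nat.dvd_gcd h1 h2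
      rw [hPN i hiT] at this
      exact hpr.not_dvd_one this
    rcases hpr.dvd_mul.mp (hown i hiT) with h1 | h1
    · have h2 : q i ∣ B1 := (h1.trans (Finset.dvd_prod_of_mem P hiI)).mul_right _
      rw [heq] at h2
      rcases hpr.dvd_mul.mp h2 with h3 | h3
      · exact hnb ⟨h1, (hprodN I hI.1 h3).2⟩
      · exact hiJ (hprodP J hJ.1 h3).1
    · have h2 : q i ∣ B2 := (h1.trans (Finset.dvd_prod_of_mem N hiI)).mul_right _
      rw [← heq] at h2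
      rcases hpr.dvd_mul.mp h2 with h3 | h3
      · exact hnb ⟨(hprodP I hI.1 h3).2, h1⟩
      · exact hiJ (hprodN J hJ.1 h3).1
  -- logarithms of products
  have hlogprod : ∀ (f : ι → ℕ) (b : ℝ), (∀ i ∈ T, 0 < f i) → (∀ i ∈ T, Real.log (f i) ≤ b) →
      ∀ K ⊆ T, K.card = w → Real.log ((∏ i ∈ K, f i : ℕ) : ℝ) ≤ w * b := by
    intro f b hf hb K hK hKc
    push_cast
    rw [Real.log_prod (fun i hi => by exact_mod_cast (hf i (hK hi)).ne')]
    calc ∑ i ∈ K, Real.log (f i) ≤ ∑ _i ∈ K, b := Finset.sum_le_sum fun i hi => hb i (hK hi)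
      _ = w * b := by rw [Finset.sum_const, hKc, nsmul_eq_mul]
  have hbP : ∀ i ∈ T, Real.log (P i) ≤ 2 * H / r := fun i hi => by
    rw [le_div_iff₀ hrR]; linarith [hPb i hi]
  have hbN : ∀ i ∈ T, Real.log (N i) ≤ 2 * H / r := fun i hi => by
    rw [le_div_iff₀ hrR]; linarith [hNb i hi]
  have hC0 : (0 : ℝ) < 192 * w * K3 := by positivity
  have hbA : ∀ i ∈ T, Real.log (A i) ≤ δ * x * r / (192 * w * K3) := fun i hi => by
    rw [le_div_iff₀ hC0]; linarith [hAb i hi]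
  have hbA' : ∀ i ∈ T, Real.log (A' i) ≤ δ * x * r / (192 * w * K3) := fun i hi => by
    rw [le_div_iff₀ hC0]; linarith [hAb' i hi]
  have hmul : ∀ a b : ℕ, 0 < a → 0 < b → Real.log ((a * b : ℕ) : ℝ) = Real.log a + Real.log b := by
    intro a b ha hb
    push_cast
    rw [Real.log_mul (by exact_mod_cast ha.ne') (by exact_mod_cast hb.ne')]
  have hlogB : Real.log ((max B1 B2 : ℕ) : ℝ) ≤ 4 * w * H / r := by
    have e : w * (2 * H / r) + w * (2 * H / r) = 4 * (w : ℝ) * H / r := by ring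
    rcases max_choice B1 B2 with h | h
    · rw [h, hB1, hmul _ _ (hpos P hP I hI.1) (hpos N hN J hJ.1)]
      have h1 := hlogprod P _ hP hbP I hI.1 hI.2
      have h2 := hlogprod N _ hN hbN J hJ.1 hJ.2
      linarith
    · rw [h, hB2, hmul _ _ (hpos N hN I hI.1) (hpos P hP J hJ.1)]
      have h1 := hlogprod N _ hN hbN I hI.1 hI.2
      have h2 := hlogprod P _ hP hbP J hJ.1 hJ.2
      linarith
  have hlogA : Real.log ((max A1 A2 : ℕ) : ℝ) ≤ δ * x * r / (96 * K3) := by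
    have e : w * (δ * x * r / (192 * w * K3)) + w * (δ * x * r / (192 * w * K3)) =
        δ * x * r / (96 * K3) := by
      field_simp
      ring
    rcases max_choice A1 A2 with h | h
    · rw [h, hA1, hmul _ _ (hpos A hA I hI.1) (hpos A' hA' J hJ.1)]
      have h1 := hlogprod A _ hA hbA I hI.1 hI.2
      have h2 := hlogprod A' _ hA' hbA' J hJ.1 hJ.2
      linarith
    · rw [h, hA2, hmul _ _ (hpos A' hA' I hI.1) (hpos A hA J hJ.1)]
      have h1 := hlogprod A' _ hA' hbA' I hI.1 hI.2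
      have h2 := hlogprod A _ hA hbA J hJ.1 hJ.2
      linarith
  -- parameters of the core
  obtain ⟨D, hD1, hD2, hD48⟩ : ∃ D : ℕ, K3 * D ≤ r ∧ r < K3 * (D + 1) ∧ 48 ≤ D :=
    ⟨r / K3, Nat.mul_div_le r K3, Nat.lt_mul_div_succ r (by omega), by
      rw [Nat.le_div_iff_mul_le (by omega)]; omega⟩
  obtain ⟨d, hd1, hd2⟩ : ∃ d : ℕ, d * (D + 1) ≤ 4 * n ∧ 4 * n < (D + 1) * (d + 1) :=
    ⟨4 * n / (D + 1), Nat.div_mul_le_self _ _, Nat.lt_mul_div_succ _ (by omega)⟩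
  have hD1R : (K3 : ℝ) * D ≤ r := by exact_mod_cast hD1
  have hD2R : (r : ℝ) ≤ K3 * (D + 1) := by exact_mod_cast hD2.le
  have hd1R : (d : ℝ) * (D + 1) ≤ 4 * n := by exact_mod_cast hd1
  have hDn : 4 * (D : ℝ) ≤ n + 1 := by
    have h1 : 4 * x * (K3 * D) ≤ K3 * H := by
      calc 4 * x * (K3 * (D : ℝ)) ≤ 4 * x * r := by
            apply mul_le_mul_of_nonneg_left hD1R (by positivity)
        _ ≤ K3 * H := hr1
    have h2 : (K3 : ℝ) * (x * (4 * D)) ≤ K3 * (x * (n + 1)) := by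
      have : K3 * H ≤ K3 * (x * (n + 1)) :=
        mul_le_mul_of_nonneg_left (by linarith) (by positivity)
      linarith
    have h3 := le_of_mul_le_mul_left h2 (by linarith : (0 : ℝ) < K3)
    exact le_of_mul_le_mul_left h3 hx0
  have hDnN : 4 * D ≤ n + 1 := by exact_mod_cast hDn
  have hdr : (d : ℝ) * r ≤ 4 * n * K3 := by
    calc (d : ℝ) * r ≤ d * (K3 * (D + 1)) := mul_le_mul_of_nonneg_left hD2R (Nat.cast_nonneg _)
      _ = K3 * (d * (D + 1)) := by ring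
      _ ≤ K3 * (4 * n) := mul_le_mul_of_nonneg_left hd1R (by linarith)
      _ = 4 * n * K3 := by ring
  refine core r D d n 6 M M0 B1 B2 A1 A2 hB1pos hB2pos hA1pos hA2pos
    ?_ (by omega) hMM0 hBdvd hBne ?_ ?_ ?_ ?_ ?_
  · -- D < r
    have : D * 2 ≤ r := by
      calc D * 2 ≤ D * K3 := Nat.mul_le_mul_left _ (by omega)
        _ = K3 * D := mul_comm _ _
        _ ≤ r := hD1
    omega
  · -- congruence
    exact prod_cong T P N A A' M r w u v hu hv σ hdiv I J hI.1 hJ.1 hI.2 hJ.2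
  · exact (Nat.Coprime.mul_left (hcop P cP I hI.1) (hcop N cN J hJ.1)).symm
  · exact (Nat.Coprime.mul_left (hcop A' cA' I hI.1) (hcop A cA J hJ.1)).symm
  · -- size
    have hmB : 0 < max B1 B2 := lt_max_of_lt_left hB1pos
    have hmA : 0 < max A1 A2 := lt_max_of_lt_left hA1pos
    have hmBR : (0 : ℝ) < ((max B1 B2 : ℕ) : ℝ) := by exact_mod_cast hmB
    have hmAR : (0 : ℝ) < ((max A1 A2 : ℕ) : ℝ) := by exact_mod_cast hmA
    have hxpos : (0 : ℝ) < (((D + 1) * (d + 1) : ℕ) : ℝ) := by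
      exact_mod_cast (by positivity : 0 < (D + 1) * (d + 1))
    have hgoal : ((((D + 1) * (d + 1) : ℕ) : ℝ)) ^ 2 * (4 : ℝ) ^ (D + d * r) *
        ((max B1 B2 : ℕ) : ℝ) ^ (6 * D) * ((max A1 A2 : ℕ) : ℝ) ^ (6 * d) < (M : ℝ) := by
      rw [← Real.log_lt_log_iff (by positivity) hMR]
      rw [Real.log_mul (by positivity) (by positivity), Real.log_mul (by positivity) (by positivity),
        Real.log_mul (by positivity) (by positivity), Real.log_pow, Real.log_pow, Real.log_pow,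
        Real.log_pow]
      have key := size_aux hδ hH0 hx0 hrR hn1 hK3R hK3 hx hnx hD1R hd1R hDn hdr hlogB hlogA
      push_cast at key ⊢
      linarith
    exact_mod_cast hgoal
  · -- zero estimate inequality
    have h1 : (d + 1) * D + (d + 1) = (D + 1) * (d + 1) := by ring
    have h2 : (D + 1) * (d + 1) = d * (D + 1) + (D + 1) := by ring
    have h3 : 49 * d ≤ 4 * n := by
      calc 49 * d ≤ (D + 1) * d := Nat.mul_le_mul_right _ (by omega)
        _ = d * (D + 1) := by ring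
        _ ≤ 4 * n := hd1
    omega

end

end Pool.Agent.Lib.Pabc10
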