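import Mathlib
import Pool.Agent.Lib.Pabc1.SClass

/-!
# The common modulus of a class
-/

open Finset

namespace Pool.Agent.Lib.Pabc10

open Pool.Agent.Lib.Pabc1 Pool.Agent.Lib.Pabc2

/-- Consequences of equal codes. -/
theorem code_pt {K0 : ℕ} {S : Finset ℕ} {t t' : ℕ × ℕ} (hc : codeD K0 S t = codeD K0 S t') :
    ∀ p ∈ S, lab t p = lab t' p ∧ ⌊u t p * (K0 * S.card)⌋₊ = ⌊u t' p * (K0 * S.card)⌋₊ := by
  intro p hp
  have := congrFun (congrFun hc p) hp
  exact Prod.ext_iff.mp this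

theorem code_sum {K0 : ℕ} (hK0 : 0 < K0) {S : Finset ℕ} {t t' : ℕ × ℕ} (h : IsT t) (h' : IsT t')
    (hc : codeD K0 S t = codeD K0 S t') : ∑ p ∈ S, |u t p - u t' p| ≤ 1 / K0 := by
  have hK00 : (0 : ℝ) < K0 := by exact_mod_cast hK0
  rcases S.eq_empty_or_nonempty with rfl | hne
  · simp only [Finset.sum_empty]
    positivity
  · have hcard : (0 : ℝ) < S.card := by exact_mod_cast hne.card_pos
    calc ∑ p ∈ S, |u t p - u t' p| ≤ ∑ _p ∈ S, 1 / (K0 * (S.card : ℝ)) := by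
          apply Finset.sum_le_sum
          intro p hp
          exact abs_sub_le_of_floor_eq (u_nonneg h p) (u_nonneg h' p) (by positivity)
            (code_pt hc p hp).2
      _ = 1 / K0 := by
          rw [Finset.sum_const, nsmul_eq_mul]
          field_simp

theorem u_mul_ht {t : ℕ × ℕ} (h : IsT t) (p : ℕ) : u t p * ht t = (ex t p : ℝ) * Real.log p := by
  have := ht_pos h
  unfold u
  field_simp

/-- The known exponents of two members of a class are close. -/
theorem known_close {K0 : ℕ} (hK0 : 0 < K0) {η : ℝ} {S : Finset ℕ} {t t0 : ℕ × ℕ} (h : IsT t)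
    (h0 : IsT t0) (hS : S ⊆ (N t0).primeFactors) (hc : codeD K0 S t = codeD K0 S t0)
    (hmin : ht t0 ≤ ht t) (hratio : ht t ≤ (1 + η) * ht t0) (hη1 : η ≤ 1) :
    ∑ p ∈ S, |(ex t p : ℝ) - ex t0 p| * Real.log p ≤ (2 / K0 + 3 * η) * ht t0 := by
  have H0 := ht_pos h0
  have hK00 : (0 : ℝ) < K0 := by exact_mod_cast hK0
  have hd : 0 ≤ ht t - ht t0 := by linarith
  have hterm : ∀ p ∈ S, |(ex t p : ℝ) - ex t0 p| * Real.log p ≤
      |u t p - u t0 p| * ht t + u t0 p * (ht t - ht t0) := by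
    intro p _
    have hl : 0 ≤ Real.log (p : ℝ) := Real.log_natCast_nonneg p
    have e : ((ex t p : ℝ) - ex t0 p) * Real.log p =
        (u t p - u t0 p) * ht t + u t0 p * (ht t - ht t0) := by
      rw [sub_mul, ← u_mul_ht h p, ← u_mul_ht h0 p]
      ring
    have e' : |(ex t p : ℝ) - ex t0 p| * Real.log p = |((ex t p : ℝ) - ex t0 p) * Real.log p| := by
      rw [abs_mul, abs_of_nonneg hl]
    rw [e', e]
    refine (abs_add_le _ _).trans ?_
    rw [abs_mul, abs_mul, abs_of_nonneg (by linarith : 0 ≤ ht t), abs_of_nonneg (u_nonneg h0 p),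
      abs_of_nonneg hd]
  refine (Finset.sum_le_sum hterm).trans ?_
  rw [Finset.sum_add_distrib, ← Finset.sum_mul, ← Finset.sum_mul]
  have h1 := code_sum hK0 h h0 hc
  have h2 := sum_u_le h0 hS
  have h3 : 0 ≤ ∑ p ∈ S, |u t p - u t0 p| := Finset.sum_nonneg fun p _ => abs_nonneg _
  have h4 : (∑ p ∈ S, |u t p - u t0 p|) * ht t ≤ 1 / K0 * (2 * ht t0) := by
    apply mul_le_mul h1 _ (by linarith) (by positivity)
    nlinarith
  have h5 : (∑ p ∈ S, u t0 p) * (ht t - ht t0) ≤ 3 * (η * ht t0) := by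
    apply mul_le_mul h2 (by linarith) hd (by norm_num)
  have e : (2 / (K0 : ℝ) + 3 * η) * ht t0 = 1 / K0 * (2 * ht t0) + 3 * (η * ht t0) := by ring
  rw [e]
  linarith

/-- The common modulus. -/
theorem exists_modulus {δ : ℝ} (hδ : 0 < δ) {K0 : ℕ} (hK0 : 16 / δ ≤ K0)
    (S : Finset ℕ) (l : Fin 3) (T : Finset (ℕ × ℕ)) (hI : ∀ t ∈ T, IsT t)
    (hS : ∀ t ∈ T, S ⊆ (N t).primeFactors)
    (hc : ∀ t ∈ T, ∀ t' ∈ T, codeD K0 S t = codeD K0 S t') (t0 : ℕ × ℕ) (ht0 : t0 ∈ T)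
    (hmin : ∀ t ∈ T, ht t0 ≤ ht t) (hmass : δ ≤ ∑ p ∈ S.filter (fun p => lab t0 p = l), u t0 p) :
    ∃ M : ℕ, 0 < M ∧ (∀ t ∈ T, M ∣ comp t l) ∧ 15 / 16 * (δ * ht t0) ≤ Real.log M ∧
      Real.log M ≤ ht t0 ∧ (∀ p : ℕ, p.Prime → p ∉ S.filter (fun p => lab t0 p = l) → p.Coprime M) ∧
      M.primeFactors ⊆ S := by
  classical
  have H0 := ht_pos (hI t0 ht0)
  have hne : T.Nonempty := ⟨t0, ht0⟩
  have hSp : ∀ p ∈ S, p.Prime := fun p hp => Nat.prime_of_mem_primeFactors (hS t0 ht0 hp)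
  have hK00 : (0 : ℝ) < K0 := lt_of_lt_of_le (by positivity) hK0
  have hK01 : 1 / (K0 : ℝ) ≤ δ / 16 := by
    rw [div_le_iff₀ hδ] at hK0
    rw [div_le_iff₀ hK00]
    linarith
  set SM := S.filter (fun p => lab t0 p = l) with hSM
  set m : ℕ → ℕ := fun p => T.inf' hne (fun t => ex t p) with hm
  set M : ℕ := ∏ p ∈ SM, p ^ m p with hM
  have hpt : ∀ t ∈ T, ∀ p ∈ S, lab t p = lab t0 p ∧
      ⌊u t p * (K0 * S.card)⌋₊ = ⌊u t0 p * (K0 * S.card)⌋₊ := fun t ht' =>
    code_pt (hc t ht' t0 ht0)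
  have hMpos : 0 < M := Finset.prod_pos fun p hp =>
    pow_pos (hSp p (Finset.mem_filter.mp hp).1).pos _
  have hMdvd : ∀ t ∈ T, M ∣ comp t l := by
    intro t ht'
    rw [comp_eq (hI t ht') l, hM]
    refine dvd_trans (Finset.prod_dvd_prod_of_dvd _ (fun p => p ^ ex t p) ?_)
      (Finset.prod_dvd_prod_of_subset _ _ _ ?_)
    · intro p _
      exact pow_dvd_pow p (Finset.inf'_le _ ht')
    · intro p hp
      rw [hSM, Finset.mem_filter] at hp
      rw [Finset.mem_filter]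
      exact ⟨hS t ht' hp.1, by rw [(hpt t ht' p hp.1).1]; exact hp.2⟩
  refine ⟨M, hMpos, hMdvd, ?_, ?_, ?_, ?_⟩
  · have e1 : Real.log M = ∑ p ∈ SM, (m p : ℝ) * Real.log p := by
      rw [hM]
      push_cast
      rw [Real.log_prod (fun p hp => by
        have : (0 : ℝ) < p := by exact_mod_cast (hSp p (Finset.mem_filter.mp hp).1).pos
        positivity)]
      exact Finset.sum_congr rfl (fun p _ => Real.log_pow _ _)
    rw [e1]
    have hterm : ∀ p ∈ SM, (u t0 p - 1 / (K0 * S.card)) * ht t0 ≤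
        (m p : ℝ) * Real.log p := by
      intro p hp
      have hpS := (Finset.mem_filter.mp hp).1
      have hScard : (0 : ℝ) < S.card := by exact_mod_cast Finset.card_pos.mpr ⟨p, hpS⟩
      obtain ⟨t, ht', hmt⟩ := Finset.exists_mem_eq_inf' hne (fun t => ex t p)
      have hmt' : m p = ex t p := hmt
      rw [hmt', ← u_mul_ht (hI t ht') p]
      have h3 := abs_sub_le_of_floor_eq (u_nonneg (hI t ht') p) (u_nonneg (hI t0 ht0) p)
        (by positivity) (hpt t ht' p hpS).2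
      have h4 := (abs_le.mp h3).1
      have h5 := u_nonneg (hI t ht') p
      have h6 := hmin t ht'
      calc (u t0 p - 1 / (K0 * S.card)) * ht t0 ≤ u t p * ht t0 :=
            mul_le_mul_of_nonneg_right (by linarith) H0.le
        _ ≤ u t p * ht t := mul_le_mul_of_nonneg_left h6 h5
    refine le_trans ?_ (Finset.sum_le_sum hterm)
    rw [← Finset.sum_mul, Finset.sum_sub_distrib, Finset.sum_const, nsmul_eq_mul]
    have h7 : (SM.card : ℝ) * (1 / (K0 * S.card)) ≤ δ / 16 := by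
      rcases S.eq_empty_or_nonempty with hSe | hSne
      · rw [hSM, hSe]
        simp
        positivity
      · have hScard : (0 : ℝ) < S.card := by exact_mod_cast hSne.card_pos
        have hle : (SM.card : ℝ) ≤ S.card := by
          exact_mod_cast Finset.card_le_card (Finset.filter_subset _ _)
        calc (SM.card : ℝ) * (1 / (K0 * S.card)) ≤ S.card * (1 / (K0 * S.card)) :=
              mul_le_mul_of_nonneg_right hle (by positivity)
          _ = 1 / K0 := by field_simp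
          _ ≤ δ / 16 := hK01
    have h8 : 15 / 16 * δ ≤ ∑ p ∈ SM, u t0 p - (SM.card : ℝ) * (1 / (K0 * S.card)) := by
      linarith
    calc 15 / 16 * (δ * ht t0) = 15 / 16 * δ * ht t0 := by ring
      _ ≤ _ := mul_le_mul_of_nonneg_right h8 H0.le
  · refine le_trans ?_ (log_comp_le (hI t0 ht0) l)
    apply Real.log_le_log (by exact_mod_cast hMpos)
    exact_mod_cast Nat.le_of_dvd (comp_pos (hI t0 ht0) l) (hMdvd t0 ht0)
  · intro q hq hqM
    rw [hM]
    apply Nat.Coprime.prod_right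
    intro p hp
    apply Nat.Coprime.pow_right
    rw [Nat.coprime_primes hq (hSp p (Finset.mem_filter.mp hp).1)]
    intro h
    exact hqM (h ▸ hp)
  · intro q hq
    rw [Nat.mem_primeFactors] at hq
    obtain ⟨hqp, hqd, _⟩ := hq
    rw [hM] at hqd
    obtain ⟨p, hp, hpd⟩ := (hqp.prime.dvd_finsetProd_iff _).mp hqd
    have hpS := (Finset.mem_filter.mp hp).1
    have h1 := (Nat.prime_dvd_prime_iff_eq hqp (hSp p hpS)).mp (hqp.dvd_of_dvd_pow hpd)
    rw [h1]
    exact hpS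

end Pool.Agent.Lib.Pabc10
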