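import Mathlib
import Pool.Agent.Lib.Pabc1.SClass

/-!
# Signed prime products
-/

open Finset

namespace Pool.Agent.Lib.Pabc10

open Pool.Agent.Lib.Pabc1 Pool.Agent.Lib.Pabc2

/-- The numerator of `∏ p ^ f p`; the denominator is `pp W (-f)`. -/
def pp (W : Finset ℕ) (f : ℕ → ℤ) : ℕ := ∏ p ∈ W, p ^ (f p).toNat

theorem pp_pos {W : Finset ℕ} (hW : ∀ p ∈ W, 0 < p) (f : ℕ → ℤ) : 0 < pp W f :=
  Finset.prod_pos fun p hp => pow_pos (hW p hp) _

theorem pp_coprime {W : Finset ℕ} {M : ℕ} (hW : ∀ p ∈ W, p.Coprime M) (f : ℕ → ℤ) :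
    (pp W f).Coprime M :=
  Nat.Coprime.prod_left fun p hp => (hW p hp).pow_left _

theorem cross_pp (W : Finset ℕ) (e a e0 f : ℕ → ℤ) (r : ℕ)
    (h : ∀ p ∈ W, e p = a p + e0 p + r * f p) :
    pp W a * pp W e0 * pp W f ^ r * pp W (-e) =
      pp W (-a) * pp W (-e0) * pp W (-f) ^ r * pp W e := by
  unfold pp
  rw [← Finset.prod_pow, ← Finset.prod_pow, ← Finset.prod_mul_distrib, ← Finset.prod_mul_distrib,
    ← Finset.prod_mul_distrib, ← Finset.prod_mul_distrib, ← Finset.prod_mul_distrib,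
    ← Finset.prod_mul_distrib]
  apply Finset.prod_congr rfl
  intro p hp
  rw [← pow_mul, ← pow_mul, ← pow_add, ← pow_add, ← pow_add, ← pow_add, ← pow_add, ← pow_add]
  congr 1
  have h1 := h p hp
  simp only [Pi.neg_apply]
  have h2 : ∀ z : ℤ, (z.toNat : ℤ) - ((-z).toNat : ℤ) = z := by intro z; omega
  have e1 := h2 (e p)
  have e2 := h2 (a p)
  have e3 := h2 (e0 p)
  have e4 := h2 (f p)
  have e5 : (((f p).toNat * r : ℕ) : ℤ) - (((-f p).toNat * r : ℕ) : ℤ) = r * f p := by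
    push_cast
    rw [← sub_mul, e4]
    ring
  omega

theorem log_pp_le {W : Finset ℕ} (hW : ∀ p ∈ W, 0 < p) (f : ℕ → ℤ) :
    Real.log (pp W f) ≤ ∑ p ∈ W, |(f p : ℝ)| * Real.log p := by
  unfold pp
  push_cast
  rw [Real.log_prod (fun p hp => by
    have : (0 : ℝ) < p := by exact_mod_cast hW p hp
    positivity)]
  apply Finset.sum_le_sum
  intro p hp
  rw [Real.log_pow]
  apply mul_le_mul_of_nonneg_right _ (Real.log_natCast_nonneg p)
  have h1 : (((f p).toNat : ℤ)) ≤ |f p| := by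
    rcases le_total 0 (f p) with h | h
    · rw [Int.toNat_of_nonneg h]; exact le_abs_self _
    · rw [Int.toNat_of_nonpos h]; simp
  have h2 : ((((f p).toNat : ℤ)) : ℝ) ≤ ((|f p| : ℤ) : ℝ) := by exact_mod_cast h1
  push_cast at h2
  exact h2

theorem pp_coprime_neg {W : Finset ℕ} (hW : ∀ p ∈ W, p.Prime) (f : ℕ → ℤ) :
    (pp W f).Coprime (pp W (-f)) := by
  unfold pp
  apply Nat.Coprime.prod_left
  intro p hp
  apply Nat.Coprime.prod_right
  intro q hq
  simp only [Pi.neg_apply]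
  by_cases hpq : p = q
  · subst hpq
    rcases le_total 0 (f p) with h | h
    · rw [show (-f p).toNat = 0 by omega, pow_zero]
      exact Nat.coprime_one_right _
    · rw [show (f p).toNat = 0 by omega, pow_zero]
      exact Nat.coprime_one_left _
  · exact Nat.Coprime.pow _ _ ((Nat.coprime_primes (hW p hp) (hW q hq)).2 hpq)

/-- A prime in `W` with nonzero exponent divides the product of numerator and denominator. -/
theorem dvd_pp_mul {W : Finset ℕ} {f : ℕ → ℤ} {p : ℕ} (hp : p ∈ W) (hf : f p ≠ 0) :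
    p ∣ pp W f * pp W (-f) := by
  rcases lt_or_gt_of_ne hf with h | h
  · refine Dvd.dvd.mul_left ?_ _
    unfold pp
    refine (dvd_pow_self p (n := ((-f) p).toNat) (by simp only [Pi.neg_apply]; omega)).trans ?_
    exact Finset.dvd_prod_of_mem (fun p => p ^ ((-f) p).toNat) hp
  · refine Dvd.dvd.mul_right ?_ _
    unfold pp
    refine (dvd_pow_self p (n := (f p).toNat) (by omega)).trans ?_
    exact Finset.dvd_prod_of_mem (fun p => p ^ (f p).toNat) hp

/-- A prime dividing numerator or denominator lies in `W` and has nonzero exponent. -/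
theorem of_dvd_pp {W : Finset ℕ} (hW : ∀ p ∈ W, p.Prime) {f : ℕ → ℤ} {q : ℕ} (hq : q.Prime)
    (h : q ∣ pp W f * pp W (-f)) : q ∈ W ∧ f q ≠ 0 := by
  have key : ∀ g : ℕ → ℤ, q ∣ pp W g → q ∈ W ∧ g q ≠ 0 := by
    intro g hg
    unfold pp at hg
    obtain ⟨p, hp, hpd⟩ := (hq.prime.dvd_finsetProd_iff _).mp hg
    have h1 := (Nat.prime_dvd_prime_iff_eq hq (hW p hp)).mp (hq.dvd_of_dvd_pow hpd)
    subst h1
    refine ⟨hp, fun h0 => ?_⟩
    rw [h0] at hpd
    simp only [Int.toNat_zero, pow_zero] at hpd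
    exact hq.not_dvd_one hpd
  rcases hq.dvd_mul.mp h with h1 | h1
  · exact key f h1
  · obtain ⟨h2, h3⟩ := key (-f) h1
    exact ⟨h2, fun h0 => h3 (by simp [h0])⟩

/-- The sign of a label. -/
def sl (l1 l2 : Fin 3) (l : Fin 3) : ℤ := if l = l1 then 1 else if l = l2 then -1 else 0

/-- The signed exponents. -/
def se (l1 l2 : Fin 3) (t : ℕ × ℕ) (p : ℕ) : ℤ := sl l1 l2 (lab t p) * ex t p

theorem comp_split {t : ℕ × ℕ} (h : IsT t) (l1 l2 : Fin 3) (h12 : l1 ≠ l2) (W : Finset ℕ)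
    (hW : W ⊆ (N t).primeFactors) :
    comp t l1 = pp W (se l1 l2 t) *
      ∏ p ∈ ((N t).primeFactors \ W).filter (fun p => lab t p = l1), p ^ ex t p := by
  classical
  rw [comp_eq h l1]
  have e1 : (N t).primeFactors.filter (fun p => lab t p = l1) =
      W.filter (fun p => lab t p = l1) ∪
        ((N t).primeFactors \ W).filter (fun p => lab t p = l1) := by
    ext p
    simp only [Finset.mem_filter, Finset.mem_union, Finset.mem_sdiff]
    constructor
    · rintro ⟨h1, h2⟩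
      by_cases hp : p ∈ W
      · exact Or.inl ⟨hp, h2⟩
      · exact Or.inr ⟨⟨h1, hp⟩, h2⟩
    · rintro (⟨h1, h2⟩ | ⟨⟨h1, _⟩, h2⟩)
      · exact ⟨hW h1, h2⟩
      · exact ⟨h1, h2⟩
  rw [e1, Finset.prod_union]
  · congr 1
    unfold pp
    rw [Finset.prod_filter]
    apply Finset.prod_congr rfl
    intro p _
    unfold se sl
    split_ifs with h1 h2
    · simp
    · have : ((-1 : ℤ) * (ex t p : ℤ)).toNat = 0 := by omega
      rw [this, pow_zero]
    · simp
  · rw [Finset.disjoint_left]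
    intro p hp1 hp2
    rw [Finset.mem_filter] at hp1
    rw [Finset.mem_filter, Finset.mem_sdiff] at hp2
    exact hp2.1.2 hp1.1

theorem se_neg (l1 l2 : Fin 3) (h12 : l1 ≠ l2) (t : ℕ × ℕ) : -(se l1 l2 t) = se l2 l1 t := by
  funext p
  simp only [Pi.neg_apply]
  unfold se sl
  by_cases h1 : lab t p = l1
  · rw [if_pos h1, h1, if_neg h12, if_pos rfl]
    ring
  · rw [if_neg h1]
    by_cases h2 : lab t p = l2
    · rw [if_pos h2, if_pos h2]
      ring
    · rw [if_neg h2, if_neg h2, if_neg h1]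
      ring

end Pool.Agent.Lib.Pabc10
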