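import Mathlib

/-!
# Private elements (module 1 of RootK)

A large family of distinct `k`-sets contains `L` members each having an element which lies in no
other of the `L` members.

Proof sketch (induction on `k`, all `T`, `F`). `k = 0`: all `F i = ∅`, injectivity gives
`T.card ≤ 1`. Step: if there are `L` members with nonempty pairwise disjoint `F i`, any choice
`q i ∈ F i` works. Otherwise take a subset `D ⊆ T` of maximal cardinality whose `F i` are nonempty and
pairwise disjoint, `D.card < L`; `U = D.biUnion F` has at most `k (L-1)` elements and every `i ∈ T`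
with `F i ≠ ∅` meets `U` (maximality). At most one `i` has `F i = ∅`. By pigeonhole some `u ∈ U` lies in
`F i` for more than `(k L + 1)^(k-1)` indices; apply the induction hypothesis to
`i ↦ (F i).erase u` on these indices (still injective, `card ≤ k-1`).
-/

open Finset

namespace Pool.Agent.Lib.Pabc10

theorem exists_private {ι : Type*} [DecidableEq ι] (L : ℕ) (hL : 1 ≤ L) : ∀ (k : ℕ) (T : Finset ι)
    (F : ι → Finset ℕ), (∀ i ∈ T, (F i).card ≤ k) → Set.InjOn F (T : Set ι) →
    (k * L + 1) ^ k < T.card →
    ∃ T' ⊆ T, T'.card = L ∧ ∃ q : ι → ℕ, ∀ i ∈ T', q i ∈ F i ∧ ∀ j ∈ T', j ≠ i → q i ∉ F j := by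
  classical
  intro k
  induction k with
  | zero =>
    intro T F h1 h2 h3
    exfalso
    rw [pow_zero, Finset.one_lt_card] at h3
    obtain ⟨a, ha, b, hb, hab⟩ := h3
    have e1 : F a = ∅ := Finset.card_eq_zero.1 (Nat.le_zero.1 (h1 a ha))
    have e2 : F b = ∅ := Finset.card_eq_zero.1 (Nat.le_zero.1 (h1 b hb))
    exact hab (h2 ha hb (e1.trans e2.symm))
  | succ k ih =>
    intro T F h1 h2 h3
    let P : Finset ι → Prop := fun D =>
      (∀ i ∈ D, (F i).Nonempty) ∧ ∀ i ∈ D, ∀ j ∈ D, i ≠ j → Disjoint (F i) (F j)
    by_cases hcase : ∃ D ⊆ T, D.card = L ∧ P D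
    · obtain ⟨D, hDT, hDL, hD1, hD2⟩ := hcase
      refine ⟨D, hDT, hDL, fun i => if h : (F i).Nonempty then h.choose else 0, fun i hi => ?_⟩
      have hne := hD1 i hi
      simp only [dif_pos hne]
      refine ⟨hne.choose_spec, fun j hj hji hmem => ?_⟩
      exact Finset.disjoint_left.1 (hD2 i hi j hj (Ne.symm hji)) hne.choose_spec hmem
    · obtain ⟨D, hDm, hDmax⟩ := Finset.exists_max_image (T.powerset.filter P) Finset.card
        ⟨∅, by
          rw [Finset.mem_filter, Finset.mem_powerset]
          exact ⟨Finset.empty_subset _, by simp [P]⟩⟩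
      rw [Finset.mem_filter, Finset.mem_powerset] at hDm
      obtain ⟨hDT, hD1, hD2⟩ := hDm
      have hDL : D.card < L := by
        by_contra hcon
        push Not at hcon
        obtain ⟨D', hD', hc'⟩ := Finset.exists_subset_card_eq hcon
        exact hcase ⟨D', hD'.trans hDT, hc', fun i hi => hD1 i (hD' hi),
          fun i hi j hj => hD2 i (hD' hi) j (hD' hj)⟩
      have hmeet : ∀ i ∈ T, (F i).Nonempty → ∃ u ∈ D.biUnion F, u ∈ F i := by
        intro i hi hne
        by_contra hcon
        push Not at hcon
        have hiD : i ∉ D := by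
          intro hiD
          obtain ⟨u, hu⟩ := hne
          exact hcon u (Finset.mem_biUnion.2 ⟨i, hiD, hu⟩) hu
        have hdis : ∀ j ∈ D, Disjoint (F i) (F j) := by
          intro j hj
          rw [Finset.disjoint_left]
          intro u hu hu'
          exact hcon u (Finset.mem_biUnion.2 ⟨j, hj, hu'⟩) hu
        have hins : insert i D ∈ T.powerset.filter P := by
          rw [Finset.mem_filter, Finset.mem_powerset]
          refine ⟨Finset.insert_subset hi hDT, ?_, ?_⟩
          · intro j hj
            rcases Finset.mem_insert.1 hj with rfl | hj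
            · exact hne
            · exact hD1 j hj
          · intro j hj l hl hjl
            rcases Finset.mem_insert.1 hj with hj' | hj'
            · rcases Finset.mem_insert.1 hl with hl' | hl'
              · exact absurd (hj'.trans hl'.symm) hjl
              · rw [hj']
                exact hdis l hl'
            · rcases Finset.mem_insert.1 hl with hl' | hl'
              · rw [hl']
                exact (hdis j hj').symm
              · exact hD2 j hj' l hl' hjl
        have := hDmax _ hins
        rw [Finset.card_insert_of_notMem hiD] at this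
        omega
      have hU : (D.biUnion F).card ≤ (L - 1) * (k + 1) := by
        refine (Finset.card_biUnion_le_card_mul D F (k + 1) fun i hi => h1 i (hDT hi)).trans ?_
        exact Nat.mul_le_mul_right _ (by omega)
      have hex : ∃ u ∈ D.biUnion F, (k * L + 1) ^ k < (T.filter fun i => u ∈ F i).card := by
        by_contra hcon
        push Not at hcon
        have hT1 : (T.filter fun i => (F i).Nonempty).card ≤ (L - 1) * (k + 1) * (k * L + 1) ^ k := by
          have hsub : (T.filter fun i => (F i).Nonempty) ⊆
              (D.biUnion F).biUnion fun u => T.filter fun i => u ∈ F i := by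
            intro i hi
            rw [Finset.mem_filter] at hi
            obtain ⟨u, hu, hui⟩ := hmeet i hi.1 hi.2
            exact Finset.mem_biUnion.2 ⟨u, hu, Finset.mem_filter.2 ⟨hi.1, hui⟩⟩
          refine (Finset.card_le_card hsub).trans ?_
          refine (Finset.card_biUnion_le_card_mul _ _ _ hcon).trans ?_
          exact Nat.mul_le_mul_right _ hU
        have hT0 : (T.filter fun i => ¬ (F i).Nonempty).card ≤ 1 := by
          rw [Finset.card_le_one]
          intro a ha b hb
          rw [Finset.mem_filter, Finset.not_nonempty_iff_eq_empty] at ha hb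
          exact h2 ha.1 hb.1 (ha.2.trans hb.2.symm)
        have hsum := Finset.card_filter_add_card_filter_not (s := T) (fun i => (F i).Nonempty)
        have hpow : (L - 1) * (k + 1) * (k * L + 1) ^ k + 1 ≤ ((k + 1) * L + 1) ^ (k + 1) := by
          have ha : (k * L + 1) ^ k ≤ ((k + 1) * L + 1) ^ k := by
            apply Nat.pow_le_pow_left
            nlinarith
          have hb : 1 ≤ ((k + 1) * L + 1) ^ k := Nat.one_le_pow _ _ (by omega)
          have hc : (L - 1) * (k + 1) + 1 ≤ (k + 1) * L + 1 := by
            have : (L - 1) * (k + 1) ≤ L * (k + 1) := Nat.mul_le_mul_right _ (by omega)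
            linarith [mul_comm L (k + 1)]
          calc (L - 1) * (k + 1) * (k * L + 1) ^ k + 1
              ≤ (L - 1) * (k + 1) * ((k + 1) * L + 1) ^ k + ((k + 1) * L + 1) ^ k :=
                Nat.add_le_add (Nat.mul_le_mul_left _ ha) hb
            _ = ((L - 1) * (k + 1) + 1) * ((k + 1) * L + 1) ^ k := by ring
            _ ≤ ((k + 1) * L + 1) * ((k + 1) * L + 1) ^ k := Nat.mul_le_mul_right _ hc
            _ = ((k + 1) * L + 1) ^ (k + 1) := by ring
        omega
      obtain ⟨u, -, hu⟩ := hex
      obtain ⟨T', hT', hcard, q, hq⟩ := ih (T.filter fun i => u ∈ F i) (fun i => (F i).erase u)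
        (fun i hi => by
          rw [Finset.mem_filter] at hi
          have := h1 i hi.1
          rw [Finset.card_erase_of_mem hi.2]
          omega)
        (fun i hi j hj e => by
          rw [Finset.mem_coe, Finset.mem_filter] at hi hj
          apply h2 hi.1 hj.1
          have e' : (F i).erase u = (F j).erase u := e
          rw [← Finset.insert_erase hi.2, e', Finset.insert_erase hj.2])
        hu
      refine ⟨T', hT'.trans (Finset.filter_subset _ _), hcard, q, fun i hi => ?_⟩
      obtain ⟨hqi, hqj⟩ := hq i hi
      rw [Finset.mem_erase] at hqi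
      refine ⟨hqi.2, fun j hj hji hmem => hqj j hj hji ?_⟩
      rw [Finset.mem_erase]
      exact ⟨hqi.1, hmem⟩

end Pool.Agent.Lib.Pabc10
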