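import Mathlib
import Pool.Agent.Lib.Pabc10.ClassAbs
import Pool.Agent.Lib.Pabc10.Pp
import Pool.Agent.Lib.Pabc10.Modulus
import Pool.Agent.Lib.Pabc10.Private

/-!
# Class lemma for several unknown primes
-/

open Finset

namespace Pool.Agent.Lib.Pabc10

open Pool.Agent.Lib.Pabc1 Pool.Agent.Lib.Pabc2

theorem exists_other (l : Fin 3) : ∃ l1 : Fin 3, l1 ≠ l := by
  revert l
  decide

/-- A class of triples with the same known part `S`, with unknown sets `F t` of primes whose exponents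
are near multiples of `r`, and with an unknown rest of small height, is small. -/
theorem classK {δ η x κ1 : ℝ} {K0 k w K3 r n L : ℕ} {ρ : ℝ} (hδ : 0 < δ) (hδ1 : δ ≤ 1)
    (_hη0 : 0 ≤ η) (hη1 : η ≤ 1) (hK0 : 16 / δ ≤ K0) (hn : 1 ≤ n) (hx : x = Real.log n)
    (hx0 : 0 < x) (S : Finset ℕ) (l : Fin 3) (T : Finset (ℕ × ℕ)) (F : ℕ × ℕ → Finset ℕ)
    (m : ℕ × ℕ → ℕ → ℕ) (hI : ∀ t ∈ T, IsT t) (hrd : ∀ t ∈ T, rd t ≤ n)
    (hS : ∀ t ∈ T, S ⊆ (N t).primeFactors) (hF : ∀ t ∈ T, F t ⊆ (N t).primeFactors)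
    (hdis : ∀ t ∈ T, Disjoint S (F t)) (hcard : ∀ t ∈ T, (F t).card ≤ k)
    (hlab : ∀ t ∈ T, ∀ p ∈ F t, lab t p ≠ l)
    (hc : ∀ t ∈ T, ∀ t' ∈ T, codeD K0 S t = codeD K0 S t') (t0 : ℕ × ℕ) (ht0 : t0 ∈ T)
    (hmass : δ ≤ ∑ p ∈ S.filter (fun p => lab t0 p = l), u t0 p)
    (hmin : ∀ t ∈ T, ht t0 ≤ ht t) (hratio : ∀ t ∈ T, ht t ≤ (1 + η) * ht t0)
    (hm1 : ∀ t ∈ T, ∀ p ∈ F t, 1 ≤ m t p)
    (hm2 : ∀ t ∈ T, ∀ p ∈ F t, |(ex t p : ℝ) - r * m t p| ≤ ρ) (hρ0 : 0 ≤ ρ)
    (hρ : 2 * ρ ≤ r) (hinj : Set.InjOn F (T : Set (ℕ × ℕ)))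
    (hrest : ∀ t ∈ T, ∑ p ∈ ((N t).primeFactors \ (S ∪ F t)).filter (fun p => lab t p ≠ l),
      (ex t p : ℝ) * Real.log p ≤ κ1)
    (hw : 1 ≤ w) (hK3 : 768 * (w : ℝ) ≤ δ * K3) (hxK : 400 * (K3 : ℝ) ≤ δ * x)
    (hHx : x ≤ ht t0) (hr0 : 48 * K3 ≤ r) (hr1 : 2 * x * r ≤ K3 * ht t0)
    (hA : 768 * w * K3 * (κ1 + (2 / K0 + 3 * η) * ht t0 + k * ρ * x) ≤ δ * x * r)
    (hL : Real.exp (4 * x) * n < (L.choose w : ℝ)) :
    T.card ≤ (k * L + 1) ^ k := by
  classical
  by_contra hcon
  push Not at hcon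
  have hL1 : 1 ≤ L := by
    by_contra h
    have h0 : L = 0 := by omega
    subst h0
    rw [Nat.choose_eq_zero_of_lt (by omega)] at hL
    have : (0 : ℝ) ≤ Real.exp (4 * x) * n := by positivity
    push_cast at hL
    linarith
  obtain ⟨T', hT', hT'c, q, hq⟩ := exists_private L hL1 k T F hcard hinj hcon
  have hK00 : 0 < K0 := by
    have : (0 : ℝ) < K0 := lt_of_lt_of_le (by positivity) hK0
    exact_mod_cast this
  have H0 := ht_pos (hI t0 ht0)
  obtain ⟨M, hM, hMd, hMl, hMu, hMc, hMp⟩ := exists_modulus hδ hK0 S l T hI hS hc t0 ht0 hmin hmass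
  -- the other labels
  obtain ⟨l1, hl1⟩ := exists_other l
  obtain ⟨l2, h12, h23⟩ := exists_third l1 l hl1
  have hl3 := third_cases l1 l2 l h12 hl1 h23
  have hprime : ∀ t ∈ T, ∀ p ∈ (N t).primeFactors, p.Prime := fun t _ p hp =>
    Nat.prime_of_mem_primeFactors hp
  have hpt : ∀ t ∈ T, ∀ p ∈ S, lab t p = lab t0 p := fun t ht' p hp =>
    (code_pt (hc t ht' t0 ht0) p hp).1
  -- known part with labels different from l
  set S2 := S.filter (fun p => lab t0 p ≠ l) with hS2
  have hS2S : S2 ⊆ S := Finset.filter_subset _ _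
  set W : ℕ × ℕ → Finset ℕ := fun t => S2 ∪ F t with hW
  have hWsub : ∀ t ∈ T, W t ⊆ (N t).primeFactors := fun t ht' =>
    Finset.union_subset (hS2S.trans (hS t ht')) (hF t ht')
  have hWprime : ∀ t ∈ T, ∀ p ∈ W t, p.Prime := fun t ht' p hp =>
    hprime t ht' p (hWsub t ht' hp)
  set G : Fin 3 → ℕ × ℕ → ℕ := fun l' t =>
    ∏ p ∈ ((N t).primeFactors \ W t).filter (fun p => lab t p = l'), p ^ ex t p with hG
  set e : ℕ × ℕ → ℕ → ℤ := fun t => se l1 l2 t with he
  set e0 : ℕ → ℤ := fun p => if p ∈ S2 then se l1 l2 t0 p else 0 with he0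
  set f : ℕ × ℕ → ℕ → ℤ := fun t p => if p ∈ F t then sl l1 l2 (lab t p) * (m t p : ℤ) else 0 with hf
  set a : ℕ × ℕ → ℕ → ℤ := fun t p => e t p - e0 p - r * f t p with ha
  have hcross : ∀ t, pp (W t) (a t) * pp (W t) e0 * pp (W t) (f t) ^ r * pp (W t) (-(e t)) =
      pp (W t) (-(a t)) * pp (W t) (-e0) * pp (W t) (-(f t)) ^ r * pp (W t) (e t) := fun t =>
    cross_pp (W t) (e t) (a t) e0 (f t) r (fun p _ => by rw [ha]; ring)
  -- the reference exponents live on S2
  have hppS2 : ∀ t ∈ T, ∀ g : ℕ → ℤ, (∀ p, p ∉ S2 → g p = 0) → pp (W t) g = pp S2 g := by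
    intro t _ g hg
    unfold pp
    symm
    apply Finset.prod_subset Finset.subset_union_left
    intro p _ hp
    rw [hg p hp]
    simp
  have he0z : ∀ p, p ∉ S2 → e0 p = 0 := fun p hp => by rw [he0]; simp only; rw [if_neg hp]
  have hcomp1 : ∀ t ∈ T, comp t l1 = pp (W t) (e t) * G l1 t := fun t ht' =>
    comp_split (hI t ht') l1 l2 h12 (W t) (hWsub t ht')
  have hcomp2 : ∀ t ∈ T, comp t l2 = pp (W t) (-(e t)) * G l2 t := by
    intro t ht'
    rw [he]
    simp only
    rw [se_neg l1 l2 h12 t]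
    exact comp_split (hI t ht') l2 l1 (Ne.symm h12) (W t) (hWsub t ht')
  -- coprimality with M
  have hSMW : ∀ t ∈ T, ∀ p ∈ (N t).primeFactors, lab t p ≠ l → p.Coprime M := by
    intro t ht' p hp hlp
    apply hMc p (hprime t ht' p hp)
    rw [Finset.mem_filter]
    rintro ⟨hpS, hpl⟩
    exact hlp (by rw [hpt t ht' p hpS]; exact hpl)
  have hWlab : ∀ t ∈ T, ∀ p ∈ W t, lab t p ≠ l := by
    intro t ht' p hp
    rcases Finset.mem_union.1 hp with h | h
    · rw [hS2, Finset.mem_filter] at h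
      rw [hpt t ht' p h.1]
      exact h.2
    · exact hlab t ht' p h
  have hWcop : ∀ t ∈ T, ∀ p ∈ W t, p.Coprime M := fun t ht' p hp =>
    hSMW t ht' p (hWsub t ht' hp) (hWlab t ht' p hp)
  have hGcop : ∀ t ∈ T, ∀ l' : Fin 3, l' ≠ l → (G l' t).Coprime M := by
    intro t ht' l' hl'
    rw [hG]
    apply Nat.Coprime.prod_left
    intro p hp
    rw [Finset.mem_filter, Finset.mem_sdiff] at hp
    apply Nat.Coprime.pow_left
    exact hSMW t ht' p hp.1.1 (by rw [hp.2]; exact hl')
  have hGpos : ∀ t ∈ T, ∀ l' : Fin 3, 0 < G l' t := by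
    intro t ht' l'
    rw [hG]
    apply Finset.prod_pos
    intro p hp
    rw [Finset.mem_filter, Finset.mem_sdiff] at hp
    exact pow_pos (hprime t ht' p hp.1.1).pos _
  have hWpos : ∀ t ∈ T, ∀ p ∈ W t, 0 < p := fun t ht' p hp => (hWprime t ht' p hp).pos
  -- the congruence
  have hdiv : ∀ t ∈ T', (M : ℤ) ∣
      (((G l1 t * pp (W t) (a t)) * pp (W t) (f t) ^ r * pp S2 e0 : ℕ) : ℤ) -
      sg3 l * (((G l2 t * pp (W t) (-(a t))) * pp (W t) (-(f t)) ^ r * pp S2 (-e0) : ℕ) : ℤ) := by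
    intro t ht''
    have ht' := hT' ht''
    have h1 : (M : ℤ) ∣ (comp t l1 : ℤ) - sg3 l * (comp t l2 : ℤ) :=
      (Int.natCast_dvd_natCast.mpr (hMd t ht')).trans (comp_rel3 h12 hl1 h23)
    have h2 := hcross t
    rw [hppS2 t ht' e0 he0z, hppS2 t ht' (-e0) (fun p hp => by simp [he0z p hp])] at h2
    have h3 : (M : ℤ) ∣ (pp (W t) (-(e t)) : ℤ) *
        ((((G l1 t * pp (W t) (a t)) * pp (W t) (f t) ^ r * pp S2 e0 : ℕ) : ℤ) -
        sg3 l * (((G l2 t * pp (W t) (-(a t))) * pp (W t) (-(f t)) ^ r * pp S2 (-e0) : ℕ) : ℤ)) := by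
      have h4 : (pp (W t) (-(e t)) : ℤ) *
          ((((G l1 t * pp (W t) (a t)) * pp (W t) (f t) ^ r * pp S2 e0 : ℕ) : ℤ) -
          sg3 l * (((G l2 t * pp (W t) (-(a t))) * pp (W t) (-(f t)) ^ r * pp S2 (-e0) : ℕ) : ℤ)) =
          ((pp (W t) (-(a t)) * pp S2 (-e0) * pp (W t) (-(f t)) ^ r : ℕ) : ℤ) *
          ((comp t l1 : ℤ) - sg3 l * (comp t l2 : ℤ)) := by
        rw [hcomp1 t ht', hcomp2 t ht']
        have h5 : ((pp (W t) (a t) * pp S2 e0 * pp (W t) (f t) ^ r * pp (W t) (-(e t)) : ℕ) : ℤ) =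
            ((pp (W t) (-(a t)) * pp S2 (-e0) * pp (W t) (-(f t)) ^ r * pp (W t) (e t) : ℕ) : ℤ) := by
          rw [h2]
        push_cast at h5 ⊢
        linear_combination (G l1 t : ℤ) * h5
      rw [h4]
      exact h1.mul_left _
    have hcop : IsCoprime (M : ℤ) (pp (W t) (-(e t)) : ℤ) := by
      rw [Nat.isCoprime_iff_coprime]
      exact (pp_coprime (hWcop t ht') _).symm
    exact hcop.dvd_of_dvd_mul_left h3
  -- heights
  have hhtle : ∀ t ∈ T, ht t ≤ 2 * ht t0 := by
    intro t ht'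
    have := hratio t ht'
    nlinarith
  have hrR : (0 : ℝ) ≤ r := Nat.cast_nonneg r
  have hprle : ∀ t ∈ T, ∀ p ∈ (N t).primeFactors, Real.log p ≤ x := by
    intro t ht' p hp
    rw [hx]
    apply Real.log_le_log (by exact_mod_cast (hprime t ht' p hp).pos)
    have h1 : p ≤ rd t := by
      unfold rd
      exact Nat.le_of_dvd (Finset.prod_pos (fun q hq => (Nat.prime_of_mem_primeFactors hq).pos))
        (Finset.dvd_prod_of_mem (fun p => p) hp)
    exact_mod_cast h1.trans (hrd t ht')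
  have hslabs : ∀ l' : Fin 3, |((sl l1 l2 l' : ℤ) : ℝ)| ≤ 1 := by
    intro l'
    unfold sl
    split_ifs <;> norm_num
  have hFS2 : ∀ t ∈ T, ∀ p ∈ F t, p ∉ S2 := by
    intro t ht' p hp hp2
    exact (Finset.disjoint_left.1 (hdis t ht')) (hS2S hp2) hp
  have hrex : ∀ t ∈ T, ∀ p ∈ F t, (r : ℝ) * m t p ≤ 2 * ex t p := by
    intro t ht' p hp
    have h1 := (abs_le.1 (hm2 t ht' p hp)).1
    have h2 := (abs_le.1 (hm2 t ht' p hp)).2
    have h3 : (1 : ℝ) ≤ m t p := by exact_mod_cast hm1 t ht' p hp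
    have h4 : (r : ℝ) * 1 ≤ r * m t p := mul_le_mul_of_nonneg_left h3 hrR
    linarith
  -- size of f
  have hfb : ∀ t ∈ T, ∀ (g : ℕ → ℤ) (l' : Fin 3),
      (∀ p ∈ W t, (g p).toNat ≤ if p ∈ F t ∧ lab t p = l' then m t p else 0) →
      r * Real.log (pp (W t) g) ≤ 2 * (2 * ht t0) := by
    intro t ht' g l' hg
    have e1 : Real.log (pp (W t) g) = ∑ p ∈ W t, ((g p).toNat : ℝ) * Real.log p := by
      unfold pp
      push_cast
      rw [Real.log_prod (fun p hp => by
        have : (0 : ℝ) < p := by exact_mod_cast hWpos t ht' p hp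
        positivity)]
      exact Finset.sum_congr rfl fun p _ => Real.log_pow _ _
    have h2 : r * Real.log (pp (W t) g) ≤
        ∑ p ∈ (W t).filter (fun p => lab t p = l'), 2 * ((ex t p : ℝ) * Real.log p) := by
      rw [e1, Finset.mul_sum, Finset.sum_filter]
      apply Finset.sum_le_sum
      intro p hp
      have hlp : 0 ≤ Real.log (p : ℝ) := Real.log_natCast_nonneg p
      have h3 := hg p hp
      by_cases hc1 : p ∈ F t ∧ lab t p = l'
      · rw [if_pos hc1] at h3
        rw [if_pos hc1.2]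
        have h4 : ((g p).toNat : ℝ) ≤ m t p := by exact_mod_cast h3
        have h5 := hrex t ht' p hc1.1
        calc (r : ℝ) * (((g p).toNat : ℝ) * Real.log p) = (r * (g p).toNat) * Real.log p := by ring
          _ ≤ (2 * ex t p) * Real.log p := by
              apply mul_le_mul_of_nonneg_right _ hlp
              exact (mul_le_mul_of_nonneg_left h4 hrR).trans h5
          _ = 2 * (ex t p * Real.log p) := by ring
      · rw [if_neg hc1] at h3
        have h4 : (g p).toNat = 0 := by omega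
        rw [h4, Nat.cast_zero, zero_mul, mul_zero]
        split_ifs
        · positivity
        · exact le_refl _
    refine h2.trans ?_
    rw [← Finset.mul_sum]
    have h3 : ∑ p ∈ (W t).filter (fun p => lab t p = l'), (ex t p : ℝ) * Real.log p ≤
        Real.log (comp t l') := by
      rw [log_comp_eq (hI t ht') l']
      apply Finset.sum_le_sum_of_subset_of_nonneg
      · exact Finset.filter_subset_filter _ (hWsub t ht')
      · intro p _ _
        have := Real.log_natCast_nonneg p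
        positivity
    have h4 := log_comp_le (hI t ht') l'
    have h5 := hhtle t ht'
    linarith
  -- size of a
  have hpa : ∀ t ∈ T, ∀ g : ℕ → ℤ, (∀ p, |(g p : ℝ)| = |(a t p : ℝ)|) →
      Real.log (pp (W t) g) ≤ (2 / K0 + 3 * η) * ht t0 + k * ρ * x := by
    intro t ht' g hg
    refine (log_pp_le (hWpos t ht') g).trans ?_
    have hdS : Disjoint S2 (F t) := (hdis t ht').mono_left hS2S
    have e1 : ∑ p ∈ W t, |(g p : ℝ)| * Real.log p =
        ∑ p ∈ S2, |(a t p : ℝ)| * Real.log p + ∑ p ∈ F t, |(a t p : ℝ)| * Real.log p := by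
      rw [← Finset.sum_union hdS]
      exact Finset.sum_congr rfl fun p _ => by rw [hg p]
    rw [e1]
    apply add_le_add
    · refine le_trans ?_ (known_close hK00 (hI t ht') (hI t0 ht0) (hS t0 ht0) (hc t ht' t0 ht0)
        (hmin t ht') (hratio t ht') hη1)
      refine le_trans ?_ (Finset.sum_le_sum_of_subset_of_nonneg hS2S (fun p _ _ =>
        mul_nonneg (abs_nonneg _) (Real.log_natCast_nonneg p)))
      apply Finset.sum_le_sum
      intro p hp
      apply mul_le_mul_of_nonneg_right _ (Real.log_natCast_nonneg p)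
      have hpF : p ∉ F t := Finset.disjoint_left.1 hdS hp
      have e2 : (a t p : ℝ) = ((sl l1 l2 (lab t p) : ℤ) : ℝ) * ((ex t p : ℝ) - ex t0 p) := by
        rw [ha, he, he0, hf]
        simp only
        rw [if_pos hp, if_neg hpF]
        unfold se
        rw [← hpt t ht' p (hS2S hp)]
        push_cast
        ring
      rw [e2, abs_mul]
      calc |((sl l1 l2 (lab t p) : ℤ) : ℝ)| * |(ex t p : ℝ) - ex t0 p| ≤
            1 * |(ex t p : ℝ) - ex t0 p| :=
            mul_le_mul_of_nonneg_right (hslabs _) (abs_nonneg _)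
        _ = _ := one_mul _
    · have hterm : ∀ p ∈ F t, |(a t p : ℝ)| * Real.log p ≤ ρ * x := by
        intro p hp
        apply mul_le_mul _ (hprle t ht' p (hF t ht' hp)) (Real.log_natCast_nonneg p) hρ0
        have e2 : (a t p : ℝ) = ((sl l1 l2 (lab t p) : ℤ) : ℝ) * ((ex t p : ℝ) - r * m t p) := by
          rw [ha, he, he0, hf]
          simp only
          rw [if_neg (hFS2 t ht' p hp), if_pos hp]
          unfold se
          push_cast
          ring
        rw [e2, abs_mul]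
        calc |((sl l1 l2 (lab t p) : ℤ) : ℝ)| * |(ex t p : ℝ) - r * m t p| ≤ 1 * ρ :=
              mul_le_mul (hslabs _) (hm2 t ht' p hp) (abs_nonneg _) zero_le_one
          _ = ρ := one_mul _
      calc ∑ p ∈ F t, |(a t p : ℝ)| * Real.log p ≤ ∑ _p ∈ F t, ρ * x := Finset.sum_le_sum hterm
        _ = (F t).card * (ρ * x) := by rw [Finset.sum_const, nsmul_eq_mul]
        _ ≤ k * (ρ * x) := by
            apply mul_le_mul_of_nonneg_right _ (by positivity)
            exact_mod_cast hcard t ht'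
        _ = k * ρ * x := by ring
  -- size of G
  have hGb : ∀ t ∈ T, ∀ l' : Fin 3, l' ≠ l → Real.log (G l' t) ≤ κ1 := by
    intro t ht' l' hl'
    refine le_trans ?_ (hrest t ht')
    have e1 : Real.log (G l' t) =
        ∑ p ∈ ((N t).primeFactors \ W t).filter (fun p => lab t p = l'),
          (ex t p : ℝ) * Real.log p := by
      rw [hG]
      push_cast
      rw [Real.log_prod (fun p hp => by
        rw [Finset.mem_filter, Finset.mem_sdiff] at hp
        have : (0 : ℝ) < p := by exact_mod_cast (hprime t ht' p hp.1.1).pos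
        positivity)]
      exact Finset.sum_congr rfl fun p _ => Real.log_pow _ _
    rw [e1]
    apply Finset.sum_le_sum_of_subset_of_nonneg
    · intro p hp
      rw [Finset.mem_filter, Finset.mem_sdiff] at hp ⊢
      have hlp : lab t p ≠ l := by rw [hp.2]; exact hl'
      refine ⟨⟨hp.1.1, fun hpU => ?_⟩, hlp⟩
      apply hp.1.2
      rcases Finset.mem_union.1 hpU with h | h
      · apply Finset.mem_union_left
        rw [hS2, Finset.mem_filter]
        exact ⟨h, by rw [← hpt t ht' p h]; exact hlp⟩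
      · exact Finset.mem_union_right _ h
    · intro p _ _
      have := Real.log_natCast_nonneg p
      positivity
  have hAb : ∀ t ∈ T, ∀ (g : ℕ → ℤ) (l' : Fin 3), (∀ p, |(g p : ℝ)| = |(a t p : ℝ)|) → l' ≠ l →
      192 * w * K3 * Real.log ((G l' t * pp (W t) g : ℕ) : ℝ) ≤ δ / 4 * x * r := by
    intro t ht' g l' hg hl'
    have h1 := hGb t ht' l' hl'
    have h2 := hpa t ht' g hg
    have h3 : Real.log ((G l' t * pp (W t) g : ℕ) : ℝ) ≤
        κ1 + (2 / K0 + 3 * η) * ht t0 + k * ρ * x := by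
      push_cast
      rw [Real.log_mul (by exact_mod_cast (hGpos t ht' l').ne')
        (by exact_mod_cast (pp_pos (hWpos t ht') g).ne')]
      linarith
    have h4 : 768 * (w : ℝ) * K3 * Real.log ((G l' t * pp (W t) g : ℕ) : ℝ) ≤
        768 * w * K3 * (κ1 + (2 / K0 + 3 * η) * ht t0 + k * ρ * x) :=
      mul_le_mul_of_nonneg_left h3 (by positivity)
    linarith
  have hfz : ∀ t p, p ∉ F t → f t p = 0 := fun t p hp => by rw [hf]; simp only; rw [if_neg hp]
  have hfnz : ∀ t ∈ T, ∀ p ∈ F t, f t p ≠ 0 := by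
    intro t ht' p hp
    rw [hf]
    simp only
    rw [if_pos hp]
    have h1 := hm1 t ht' p hp
    have h2 : (m t p : ℤ) ≠ 0 := by exact_mod_cast (by omega : m t p ≠ 0)
    apply mul_ne_zero _ h2
    unfold sl
    rcases hl3 (lab t p) with h | h | h
    · rw [if_pos h]; norm_num
    · rw [if_neg (by rw [h]; exact Ne.symm h12), if_pos h]; norm_num
    · exact absurd h (hlab t ht' p hp)
  have key := class_abs T' (fun t => pp (W t) (f t)) (fun t => pp (W t) (-(f t)))
    (fun t => G l1 t * pp (W t) (a t)) (fun t => G l2 t * pp (W t) (-(a t)))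
    (fun t ht' => pp_pos (hWpos t (hT' ht')) _) (fun t ht' => pp_pos (hWpos t (hT' ht')) _)
    (fun t ht' => Nat.mul_pos (hGpos t (hT' ht') l1) (pp_pos (hWpos t (hT' ht')) _))
    (fun t ht' => Nat.mul_pos (hGpos t (hT' ht') l2) (pp_pos (hWpos t (hT' ht')) _))
    M r w K3 hM hw
    (fun t ht' => pp_coprime (hWcop t (hT' ht')) _) (fun t ht' => pp_coprime (hWcop t (hT' ht')) _)
    (fun t ht' => Nat.Coprime.mul_left (hGcop t (hT' ht') l2 h23)
      (pp_coprime (hWcop t (hT' ht')) _))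
    (fun t ht' => Nat.Coprime.mul_left (hGcop t (hT' ht') l1 hl1)
      (pp_coprime (hWcop t (hT' ht')) _))
    (pp S2 e0) (pp S2 (-e0))
    (pp_coprime (fun p hp => hWcop t0 ht0 p (Finset.mem_union_left _ hp)) _)
    (pp_coprime (fun p hp => hWcop t0 ht0 p (Finset.mem_union_left _ hp)) _)
    (sg3 l) hdiv q
    (fun t ht' => hprime t (hT' ht') _ (hF t (hT' ht') (hq t ht').1))
    (fun t ht' => dvd_pp_mul (Finset.mem_union_right _ (hq t ht').1)
      (hfnz t (hT' ht') _ (hq t ht').1))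
    (fun t ht' => pp_coprime_neg (hWprime t (hT' ht')) _)
    (fun t ht' s hs hts hd => by
      have hqp := hprime t (hT' ht') _ (hF t (hT' ht') (hq t ht').1)
      have h1 := of_dvd_pp (hWprime s (hT' hs)) hqp hd
      exact (hq t ht').2 s hs (Ne.symm hts) (by
        by_contra h2
        exact h1.2 (hfz s _ h2)))
    (δ / 4) (2 * ht t0) x (by positivity) (by linarith) hx0 (by linarith) (by linarith)
    (by linarith) hr0 (by linarith) (by nlinarith) (by linarith)
    (fun t ht' => hfb t (hT' ht') (f t) l1 (by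
      intro p hp
      rw [hf]
      simp only
      by_cases hpF : p ∈ F t
      · rw [if_pos hpF]
        unfold sl
        by_cases h1 : lab t p = l1
        · rw [if_pos h1, if_pos ⟨hpF, h1⟩]
          omega
        · simp only [if_neg h1]
          split_ifs with h2 h3 h3
          · exact absurd h3.2 h1
          · omega
          · exact absurd h3.2 h1
          · simp
      · rw [if_neg hpF, if_neg (fun h => hpF h.1)]
        simp))
    (fun t ht' => hfb t (hT' ht') (-(f t)) l2 (by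
      intro p hp
      simp only [Pi.neg_apply]
      rw [hf]
      simp only
      by_cases hpF : p ∈ F t
      · rw [if_pos hpF]
        unfold sl
        by_cases h1 : lab t p = l1
        · rw [if_pos h1, if_neg (fun h => h12 (h1.symm.trans h.2))]
          omega
        · rw [if_neg h1]
          by_cases h2 : lab t p = l2
          · rw [if_pos h2, if_pos ⟨hpF, h2⟩]
            omega
          · simp [h2]
      · rw [if_neg hpF, if_neg (fun h => hpF h.1)]
        simp))
    (fun t ht' => hAb t (hT' ht') (a t) l1 (fun p => rfl) hl1)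
    (fun t ht' => hAb t (hT' ht') (-(a t)) l2 (fun p => by simp) h23)
  rw [hT'c] at key
  have hMn : ((∏ p ∈ M.primeFactors, p : ℕ) : ℝ) ≤ n := by
    have h1 : ∏ p ∈ M.primeFactors, p ≤ rd t0 := by
      unfold rd
      apply Finset.prod_le_prod_of_subset_of_one_le' (hMp.trans (hS t0 ht0))
      intro p hp _
      exact (Nat.prime_of_mem_primeFactors hp).one_lt.le
    exact_mod_cast h1.trans (hrd t0 ht0)
  have hfin : Real.exp (4 * x) * ((∏ p ∈ M.primeFactors, p : ℕ) : ℝ) ≤ Real.exp (4 * x) * n :=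
    mul_le_mul_of_nonneg_left hMn (Real.exp_pos _).le
  linarith

end Pool.Agent.Lib.Pabc10
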