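import Mathlib
import Pool.Agent.Lib.Pabc10.ClassK
import Pool.Agent.Lib.Pabc10.Dir
import Pool.Agent.Lib.Pabc10.SmallH
import Pool.Agent.Lib.Pabc1.RCount

/-!
# From buckets of the unknown exponents to a common scale, and the bound of a class
-/

open Finset Filter Topology

namespace Pool.Agent.Lib.Pabc10

open Pool.Agent.Lib.Pabc1 Pool.Agent.Lib.Pabc2

/-- The normalised exponent. -/
noncomputable def yy (x : ℝ) (t : ℕ × ℕ) (p : ℕ) : ℝ := (ex t p : ℝ) * x / ht t

/-- The bucket of a prime. -/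
noncomputable def bk (x : ℝ) (W : ℕ) (t : ℕ × ℕ) (p : ℕ) : ℕ := ⌊yy x t p * W⌋₊

theorem yy_nonneg {x : ℝ} (hx : 0 ≤ x) {t : ℕ × ℕ} (h : IsT t) (p : ℕ) : 0 ≤ yy x t p := by
  have := ht_pos h
  unfold yy
  positivity

theorem sum_ex_lab_le {t : ℕ × ℕ} (h : IsT t) (l : Fin 3) :
    ∑ p ∈ (N t).primeFactors.filter (fun p => lab t p = l), (ex t p : ℝ) * Real.log p ≤ ht t := by
  rw [← log_comp_eq h l]
  exact log_comp_le h l

theorem ex_log_le {t : ℕ × ℕ} (h : IsT t) {p : ℕ} (hp : p ∈ (N t).primeFactors) :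
    (ex t p : ℝ) * Real.log p ≤ ht t := by
  refine le_trans ?_ (sum_ex_lab_le h (lab t p))
  apply Finset.single_le_sum (f := fun p => (ex t p : ℝ) * Real.log p)
  · intro q _
    have : 0 ≤ Real.log (q : ℝ) := Real.log_natCast_nonneg q
    positivity
  · rw [Finset.mem_filter]
    exact ⟨hp, rfl⟩

theorem yy_le {x ε1 : ℝ} (hε : 0 < ε1) {t : ℕ × ℕ} (h : IsT t) {p : ℕ}
    (hp : p ∈ (N t).primeFactors) (hl : ε1 * x ≤ Real.log p) : yy x t p ≤ 1 / ε1 := by
  have H := ht_pos h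
  have h1 := ex_log_le h hp
  unfold yy
  rw [div_le_div_iff₀ H hε]
  have h2 : (ex t p : ℝ) * (ε1 * x) ≤ ex t p * Real.log p :=
    mul_le_mul_of_nonneg_left hl (Nat.cast_nonneg _)
  nlinarith

/-- A common scale for all exponents of the unknown primes of a class. -/
theorem exists_scaleK (k Q : ℕ) (hQ : 1 ≤ Q) (ε1 : ℝ) (hε1 : 0 < ε1) (hε11 : ε1 ≤ 1) :
    ∃ G : ℝ, 1 ≤ G ∧ ∀ (W : ℕ) (η' x : ℝ) (T : Finset (ℕ × ℕ)) (H : ℕ × ℕ → Finset ℕ) (t0 : ℕ × ℕ),
      1 ≤ W → 0 ≤ η' → η' ≤ 1 → 0 < x →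
      2 * Q * (2 * (8 * Q : ℝ) ^ k) * (2 / W + η' / ε1) ≤ 1 →
      (∀ t ∈ T, IsT t) → t0 ∈ T → (∀ t ∈ T, ht t0 ≤ ht t ∧ ht t ≤ (1 + η') * ht t0) →
      (∀ t ∈ T, ∀ p ∈ H t, p ∈ (N t).primeFactors ∧ ε1 * x ≤ Real.log p) →
      (∀ t ∈ T, (H t).card ≤ k) →
      (∀ t ∈ T, (H t).image (bk x W t) = (H t0).image (bk x W t0)) → G * x ≤ ht t0 →
      ∃ (r : ℕ) (m : ℕ × ℕ → ℕ → ℕ), 1 ≤ r ∧ r * x ≤ ht t0 ∧
        ht t0 ≤ 2 * (8 * Q : ℝ) ^ k * (r * x) ∧
        ∀ t ∈ T, ∀ p ∈ H t, |(ex t p : ℝ) - r * m t p| ≤ r / Q := by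
  classical
  obtain ⟨G, hG1, hG⟩ := dirichlet_scale k (2 * Q) (by omega) (1 / ε1) (by
    rw [le_div_iff₀ hε1]; linarith)
  refine ⟨G, hG1, ?_⟩
  intro W η' x T H t0 hW hη0 hη1 hx hnum hI ht0 hht hH hHk hB hGx
  have hW0 : (0 : ℝ) < W := by exact_mod_cast hW
  have hQ0 : (0 : ℝ) < Q := by exact_mod_cast hQ
  have H0 := ht_pos (hI t0 ht0)
  set g : ℝ := ht t0 / x with hg
  have hg0 : 0 < g := by positivity
  have hgx : g * x = ht t0 := by rw [hg]; field_simp
  set B := (H t0).image (bk x W t0) with hBdef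
  have hy : ∀ b ∈ B, 0 ≤ (b : ℝ) / W ∧ (b : ℝ) / W ≤ 1 / ε1 := by
    intro b hb
    rw [hBdef, Finset.mem_image] at hb
    obtain ⟨p, hp, rfl⟩ := hb
    refine ⟨by positivity, ?_⟩
    have h1 : (bk x W t0 p : ℝ) ≤ yy x t0 p * W :=
      Nat.floor_le (mul_nonneg (yy_nonneg hx.le (hI t0 ht0) p) hW0.le)
    rw [div_le_iff₀ hW0]
    refine h1.trans ?_
    apply mul_le_mul_of_nonneg_right _ hW0.le
    exact yy_le hε1 (hI t0 ht0) (hH t0 ht0 p hp).1 (hH t0 ht0 p hp).2
  obtain ⟨r, hr1, hrg, hgr, hn⟩ := hG B (fun b => (b : ℝ) / W) g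
    (Finset.card_image_le.trans (hHk t0 ht0)) hy (by rw [hg, le_div_iff₀ hx]; exact hGx)
  choose! nb hnb using hn
  have hr0 : (0 : ℝ) < r := by exact_mod_cast hr1
  refine ⟨r, fun t p => nb (bk x W t p), hr1, ?_, ?_, ?_⟩
  · rw [← hgx]
    exact mul_le_mul_of_nonneg_right hrg hx.le
  · rw [← hgx]
    have h1 := mul_le_mul_of_nonneg_right hgr hx.le
    push_cast at h1
    have e : (4 * (2 * (Q : ℝ))) = 8 * Q := by ring
    rw [e] at h1
    linarith
  · intro t ht' p hp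
    simp only
    have hb : bk x W t p ∈ B := by
      rw [← hB t ht']
      exact Finset.mem_image_of_mem _ hp
    have h1 := hnb _ hb
    push_cast at h1
    have Ht := ht_pos (hI t ht')
    have hyy0 := yy_nonneg hx.le (hI t ht') p
    have hyy1 := yy_le hε1 (hI t ht') (hH t ht' p hp).1 (hH t ht' p hp).2
    have f1 : (bk x W t p : ℝ) ≤ yy x t p * W := Nat.floor_le (mul_nonneg hyy0 hW0.le)
    have f2 : yy x t p * W < bk x W t p + 1 := Nat.lt_floor_add_one _
    set b : ℝ := (bk x W t p : ℝ) with hbdef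
    have f3 : b / W ≤ yy x t p := by rw [div_le_iff₀ hW0]; exact f1
    have f4 : yy x t p ≤ b / W + 1 / W := by
      rw [← add_div, le_div_iff₀ hW0]; exact f2.le
    have f5 : 0 ≤ b / W := by positivity
    have hexy : (ex t p : ℝ) = yy x t p * (ht t / x) := by
      unfold yy
      field_simp
    obtain ⟨hh1, hh2⟩ := hht t ht'
    have hgt1 : g ≤ ht t / x := by
      rw [hg]
      exact div_le_div_of_nonneg_right hh1 hx.le
    have hgt2 : ht t / x ≤ (1 + η') * g := by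
      rw [hg, ← mul_div_assoc]
      exact div_le_div_of_nonneg_right hh2 hx.le
    set G' : ℝ := ht t / x with hG'
    -- distance of `ex` and `b / W * g`
    have hdist : |(ex t p : ℝ) - b / W * g| ≤ g * (2 / W + η' / ε1) := by
      rw [hexy, abs_le]
      have a1 : (yy x t p - b / W) * G' ≤ 1 / W * (2 * g) := by
        apply mul_le_mul (by linarith) (by nlinarith) (by linarith) (by positivity)
      have a2 : b / W * (G' - g) ≤ 1 / ε1 * (η' * g) := by
        apply mul_le_mul (by linarith) (by nlinarith) (by linarith) (by positivity)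
      have a3 : 0 ≤ (yy x t p - b / W) * G' := mul_nonneg (by linarith) (by linarith)
      have a4 : 0 ≤ b / W * (G' - g) := mul_nonneg f5 (by linarith)
      have e1 : yy x t p * G' - b / W * g = (yy x t p - b / W) * G' + b / W * (G' - g) := by ring
      have e2 : g * (2 / W + η' / ε1) = 1 / W * (2 * g) + 1 / ε1 * (η' * g) := by ring
      rw [e1, e2]
      constructor <;> linarith
    have hnum2 : g * (2 / W + η' / ε1) ≤ r / (2 * Q) := by
      have hpos : 0 ≤ 2 / (W : ℝ) + η' / ε1 := by positivity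
      have hgr' : g ≤ 2 * (8 * Q : ℝ) ^ k * r := by
        have h1 := hgr
        push_cast at h1
        have e : (4 * (2 * (Q : ℝ))) = 8 * Q := by ring
        rw [e] at h1
        exact h1
      rw [le_div_iff₀ (by positivity)]
      calc g * (2 / W + η' / ε1) * (2 * Q) ≤ 2 * (8 * Q : ℝ) ^ k * r * (2 / W + η' / ε1) * (2 * Q) := by
            gcongr
        _ = r * (2 * Q * (2 * (8 * Q : ℝ) ^ k) * (2 / W + η' / ε1)) := by ring
        _ ≤ r * 1 := mul_le_mul_of_nonneg_left hnum hr0.le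
        _ = r := mul_one _
    have h2 : |(ex t p : ℝ) - r * nb (bk x W t p)| ≤
        |(ex t p : ℝ) - b / W * g| + |b / W * g - r * nb (bk x W t p)| := by
      have := abs_add_le ((ex t p : ℝ) - b / W * g) (b / W * g - r * nb (bk x W t p))
      have e : (ex t p : ℝ) - b / W * g + (b / W * g - r * nb (bk x W t p)) =
        (ex t p : ℝ) - r * nb (bk x W t p) := by ring
      rwa [e] at this
    have h3 : (r : ℝ) / (2 * Q) + r / (2 * Q) = r / Q := by
      field_simp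
      ring
    linarith

end Pool.Agent.Lib.Pabc10
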