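import Mathlib
import Pool.Agent.Lib.Pabc10.FibreA

/-!
# The bound of a class with several unknown primes
-/

open Finset Filter Topology

namespace Pool.Agent.Lib.Pabc10

open Pool.Agent.Lib.Pabc1 Pool.Agent.Lib.Pabc2

/-- Representatives of the fibres of a map. -/
theorem exists_reps (T : Finset (ℕ × ℕ)) (F : ℕ × ℕ → Finset ℕ) :
    ∃ T' ⊆ T, Set.InjOn F (T' : Set (ℕ × ℕ)) ∧ T'.image F = T.image F := by
  classical
  have h : Set.SurjOn F (T : Set (ℕ × ℕ)) (T.image F : Set (Finset ℕ)) := by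
    intro y hy
    simpa using hy
  obtain ⟨r, hr, hinj, himg⟩ := h.exists_subset_injOn_image_eq
  refine ⟨T.filter (fun t => t ∈ r), Finset.filter_subset _ _, ?_, ?_⟩
  · intro a ha b hb
    have ha' : a ∈ r := by
      rw [Finset.mem_coe, Finset.mem_filter] at ha
      exact ha.2
    have hb' : b ∈ r := by
      rw [Finset.mem_coe, Finset.mem_filter] at hb
      exact hb.2
    exact hinj ha' hb'
  · apply Finset.Subset.antisymm
    · exact Finset.image_subset_image (Finset.filter_subset _ _)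
    · intro y hy
      have hy' : y ∈ F '' r := by
        rw [himg]
        exact hy
      obtain ⟨t, htr, rfl⟩ := hy'
      rw [Finset.mem_image]
      exact ⟨t, Finset.mem_filter.2 ⟨by exact_mod_cast hr htr, htr⟩, rfl⟩

theorem log_le_of_rd {t : ℕ × ℕ} {n : ℕ} (hr : rd t ≤ n) {p : ℕ} (hp : p ∈ (N t).primeFactors) :
    Real.log p ≤ Real.log n := by
  have h1 : p ≤ n := by
    refine le_trans ?_ hr
    exact Nat.le_of_dvd (Finset.prod_pos (fun q hq => (Nat.prime_of_mem_primeFactors hq).pos))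
      (Finset.dvd_prod_of_mem (fun p => p) hp)
  apply Real.log_le_log
  · exact_mod_cast (Nat.prime_of_mem_primeFactors hp).pos
  · exact_mod_cast h1

/-- The rest of a triple after the unknown primes of zero multiplicity are moved to it. -/
theorem rest_le {t : ℕ × ℕ} (h : IsT t) {n : ℕ} (hr : rd t ≤ n) {S H F : Finset ℕ} {l : Fin 3}
    {c q x : ℝ} {k : ℕ} (hx : x = Real.log n) (hx0 : 0 ≤ x)
    (hHs : H ⊆ (N t).primeFactors) (hk : H.card ≤ k) (hq : 0 ≤ q)
    (hc : ∑ p ∈ ((N t).primeFactors \ (S ∪ H)).filter (fun p => lab t p ≠ l), u t p ≤ c)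
    (hz : ∀ p ∈ H \ F, (ex t p : ℝ) ≤ q) :
    ∑ p ∈ ((N t).primeFactors \ (S ∪ F)).filter (fun p => lab t p ≠ l),
      (ex t p : ℝ) * Real.log p ≤ c * ht t + k * q * x := by
  classical
  have H0 := ht_pos h
  have hterm : ∀ p : ℕ, 0 ≤ (ex t p : ℝ) * Real.log p := by
    intro p
    have : 0 ≤ Real.log (p : ℝ) := Real.log_natCast_nonneg p
    positivity
  have hsub : ((N t).primeFactors \ (S ∪ F)).filter (fun p => lab t p ≠ l) ⊆
      ((N t).primeFactors \ (S ∪ H)).filter (fun p => lab t p ≠ l) ∪ (H \ F) := by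
    intro p hp
    rw [Finset.mem_filter, Finset.mem_sdiff, Finset.mem_union] at hp
    rw [Finset.mem_union, Finset.mem_filter, Finset.mem_sdiff, Finset.mem_sdiff, Finset.mem_union]
    by_cases hH : p ∈ H
    · right
      exact ⟨hH, fun hF' => hp.1.2 (Or.inr hF')⟩
    · left
      refine ⟨⟨hp.1.1, ?_⟩, hp.2⟩
      rintro (h1 | h1)
      · exact hp.1.2 (Or.inl h1)
      · exact hH h1
  have h1 : ∑ p ∈ ((N t).primeFactors \ (S ∪ H)).filter (fun p => lab t p ≠ l),
      (ex t p : ℝ) * Real.log p ≤ c * ht t := by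
    have e : ∑ p ∈ ((N t).primeFactors \ (S ∪ H)).filter (fun p => lab t p ≠ l),
      (ex t p : ℝ) * Real.log p = (∑ p ∈ ((N t).primeFactors \ (S ∪ H)).filter
        (fun p => lab t p ≠ l), u t p) * ht t := by
      rw [Finset.sum_mul]
      exact Finset.sum_congr rfl (fun p _ => (u_mul_ht h p).symm)
    rw [e]
    exact mul_le_mul_of_nonneg_right hc H0.le
  have h2 : ∑ p ∈ H \ F, (ex t p : ℝ) * Real.log p ≤ k * q * x := by
    calc ∑ p ∈ H \ F, (ex t p : ℝ) * Real.log p ≤ ∑ _p ∈ H \ F, q * x := by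
          apply Finset.sum_le_sum
          intro p hp
          have hpH : p ∈ H := (Finset.mem_sdiff.1 hp).1
          have hl : Real.log p ≤ x := by rw [hx]; exact log_le_of_rd hr (hHs hpH)
          exact mul_le_mul (hz p hp) hl (Real.log_natCast_nonneg p) hq
      _ = (H \ F).card * (q * x) := by rw [Finset.sum_const, nsmul_eq_mul]
      _ ≤ k * (q * x) := by
          apply mul_le_mul_of_nonneg_right _ (by positivity)
          exact_mod_cast (Finset.card_le_card Finset.sdiff_subset).trans hk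
      _ = k * q * x := by ring
  calc ∑ p ∈ ((N t).primeFactors \ (S ∪ F)).filter (fun p => lab t p ≠ l),
      (ex t p : ℝ) * Real.log p ≤
      ∑ p ∈ ((N t).primeFactors \ (S ∪ H)).filter (fun p => lab t p ≠ l) ∪ (H \ F),
        (ex t p : ℝ) * Real.log p :=
        Finset.sum_le_sum_of_subset_of_nonneg hsub (fun p _ _ => hterm p)
    _ ≤ ∑ p ∈ ((N t).primeFactors \ (S ∪ H)).filter (fun p => lab t p ≠ l),
        (ex t p : ℝ) * Real.log p + ∑ p ∈ H \ F, (ex t p : ℝ) * Real.log p := by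
        rw [← Finset.sum_union_inter]
        have : 0 ≤ ∑ p ∈ ((N t).primeFactors \ (S ∪ H)).filter (fun p => lab t p ≠ l) ∩ (H \ F),
          (ex t p : ℝ) * Real.log p := Finset.sum_nonneg (fun p _ => hterm p)
        linarith
    _ ≤ c * ht t + k * q * x := add_le_add h1 h2

/-- A triple is good on `S ∪ F` if `S` has mass in the label `l` and the rest with other labels is
small. -/
theorem goodD_of_rest {t : ℕ × ℕ} (h : IsT t) {S F : Finset ℕ} {l : Fin 3} {δ κ : ℝ} (hδ : 0 < δ)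
    (hS : S ⊆ (N t).primeFactors) (hF : F ⊆ (N t).primeFactors)
    (hmass : δ ≤ ∑ p ∈ S.filter (fun p => lab t p = l), u t p)
    (hrest : ∑ p ∈ ((N t).primeFactors \ (S ∪ F)).filter (fun p => lab t p ≠ l),
      (ex t p : ℝ) * Real.log p ≤ κ) (hκ : κ ≤ δ / 2 * ht t) (hb : 4 / δ ≤ ht t) :
    GoodD (δ / 2) (S ∪ F) t := by
  classical
  have H0 := ht_pos h
  refine ⟨h, Finset.union_subset hS hF, ?_, ?_⟩
  · have h0 := sum_u_eq h
    have hu := fun p => u_nonneg h p
    have h1 : ∑ p ∈ (N t).primeFactors, u t p =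
        ∑ p ∈ (N t).primeFactors \ (S ∪ F), u t p + ∑ p ∈ S ∪ F, u t p :=
      (Finset.sum_sdiff (Finset.union_subset hS hF)).symm
    have h2 : ∑ p ∈ (N t).primeFactors \ (S ∪ F), u t p =
        ∑ p ∈ ((N t).primeFactors \ (S ∪ F)).filter (fun p => lab t p = l), u t p +
        ∑ p ∈ ((N t).primeFactors \ (S ∪ F)).filter (fun p => ¬ lab t p = l), u t p :=
      (Finset.sum_filter_add_sum_filter_not _ _ _).symm
    have h3 : ∑ p ∈ ((N t).primeFactors \ (S ∪ F)).filter (fun p => lab t p = l), u t p +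
        ∑ p ∈ S.filter (fun p => lab t p = l), u t p ≤ 1 := by
      have hd : Disjoint (((N t).primeFactors \ (S ∪ F)).filter (fun p => lab t p = l))
          (S.filter (fun p => lab t p = l)) := by
        rw [Finset.disjoint_left]
        intro p hp hp'
        rw [Finset.mem_filter, Finset.mem_sdiff, Finset.mem_union] at hp
        rw [Finset.mem_filter] at hp'
        exact hp.1.2 (Or.inl hp'.1)
      rw [← Finset.sum_union hd]
      have h4 : ∑ p ∈ ((N t).primeFactors \ (S ∪ F)).filter (fun p => lab t p = l) ∪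
          S.filter (fun p => lab t p = l), u t p ≤
          ∑ p ∈ (N t).primeFactors.filter (fun p => lab t p = l), u t p := by
        apply Finset.sum_le_sum_of_subset_of_nonneg
        · intro p hp
          rw [Finset.mem_union, Finset.mem_filter, Finset.mem_filter, Finset.mem_sdiff] at hp
          rw [Finset.mem_filter]
          rcases hp with hp | hp
          · exact ⟨hp.1.1, hp.2⟩
          · exact ⟨hS hp.1, hp.2⟩
        · intro p _ _
          exact hu p
      refine h4.trans ?_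
      have h5 : ∑ p ∈ (N t).primeFactors.filter (fun p => lab t p = l), u t p =
          (∑ p ∈ (N t).primeFactors.filter (fun p => lab t p = l),
            (ex t p : ℝ) * Real.log p) / ht t := by
        rw [Finset.sum_div]
        rfl
      rw [h5, div_le_one H0]
      exact sum_ex_lab_le h l
    have h6 : ∑ p ∈ ((N t).primeFactors \ (S ∪ F)).filter (fun p => ¬ lab t p = l), u t p ≤
        δ / 2 := by
      have h7 : ∑ p ∈ ((N t).primeFactors \ (S ∪ F)).filter (fun p => ¬ lab t p = l), u t p =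
          (∑ p ∈ ((N t).primeFactors \ (S ∪ F)).filter (fun p => ¬ lab t p = l),
            (ex t p : ℝ) * Real.log p) / ht t := by
        rw [Finset.sum_div]
        rfl
      rw [h7, div_le_iff₀ H0]
      exact hrest.trans hκ
    rw [← h0, h1, h2]
    linarith
  · have e : 2 / (δ / 2) = 4 / δ := by
      field_simp
      norm_num
    rw [e]
    exact hb

/-- The bound of a class with several unknown primes. -/
theorem class_leK (k Q : ℕ) (hQ : 2 ≤ Q) (ε1 : ℝ) (hε1 : 0 < ε1) (hε11 : ε1 ≤ 1) :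
    ∃ G : ℝ, 1 ≤ G ∧ ∀ (δ η' c x M : ℝ) (K0 w K3 n L W : ℕ), 0 < δ → δ ≤ 1 → 0 ≤ η' → η' ≤ 1 →
      0 ≤ c → 16 / δ ≤ K0 → 1 ≤ n → x = Real.log n → 0 < x → 1 ≤ W →
      2 * Q * (2 * (8 * Q : ℝ) ^ k) * (2 / W + η' / ε1) ≤ 1 →
      1 ≤ w → 768 * (w : ℝ) ≤ δ * K3 → 400 * (K3 : ℝ) ≤ δ * x →
      3072 * (w : ℝ) * K3 * k ≤ δ * Q →
      3072 * (w : ℝ) * K3 * (c + 2 / K0 + 3 * η') * (2 * (8 * Q : ℝ) ^ k) ≤ δ →
      Real.exp (4 * x) * n < (L.choose w : ℝ) → 0 ≤ M →
      ∀ (S : Finset ℕ) (l : Fin 3) (T : Finset (ℕ × ℕ)) (H : ℕ × ℕ → Finset ℕ) (t0 : ℕ × ℕ),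
      t0 ∈ T → (∀ t ∈ T, ht t0 ≤ ht t ∧ ht t ≤ (1 + η') * ht t0) →
      (∀ t ∈ T, IsT t ∧ rd t ≤ n ∧ S ⊆ (N t).primeFactors ∧
        δ ≤ ∑ p ∈ S.filter (fun p => lab t p = l), u t p ∧
        H t ⊆ (N t).primeFactors \ S ∧ (H t).card ≤ k ∧
        (∀ p ∈ H t, lab t p ≠ l ∧ ε1 * x ≤ Real.log p) ∧
        ∑ p ∈ ((N t).primeFactors \ (S ∪ H t)).filter (fun p => lab t p ≠ l), u t p ≤ c) →
      (∀ t ∈ T, ∀ t' ∈ T, codeD K0 S t = codeD K0 S t') →
      (∀ t ∈ T, (H t).image (bk x W t) = (H t0).image (bk x W t0)) →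
      G * x ≤ ht t0 → 48 * K3 * (2 * (8 * Q : ℝ) ^ k) * x ≤ ht t0 →
      (∀ F : Finset ℕ, ∀ T1 ⊆ T, (∀ t ∈ T1, GoodD (δ / 2) (S ∪ F) t) → (T1.card : ℝ) ≤ M) →
      (T.card : ℝ) ≤ M * (k * L + 1) ^ k := by
  classical
  obtain ⟨G, hG1, hG⟩ := exists_scaleK k Q (by omega) ε1 hε1 hε11
  refine ⟨G, hG1, ?_⟩
  intro δ η' c x M K0 w K3 n L W hδ hδ1 hη0 hη1 hc0 hK0 hn hx hx0 hW hnum hw hK3 hxK hQw hcw hL hM
    S l T H t0 ht0 hht hT hcode hB hGx hrx hfib
  have hI : ∀ t ∈ T, IsT t := fun t h => (hT t h).1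
  have hHsub : ∀ t ∈ T, H t ⊆ (N t).primeFactors := fun t h =>
    (hT t h).2.2.2.2.1.trans Finset.sdiff_subset
  obtain ⟨r, m, hr1, hrt, hΘ, hm⟩ := hG W η' x T H t0 hW hη0 hη1 hx0 hnum hI ht0 hht
    (fun t ht' p hp => ⟨hHsub t ht' hp, ((hT t ht').2.2.2.2.2.2.1 p hp).2⟩)
    (fun t ht' => (hT t ht').2.2.2.2.2.1) hB hGx
  have H0 := ht_pos (hI t0 ht0)
  have hr0 : (0 : ℝ) < r := by exact_mod_cast hr1
  have hQ2 : (2 : ℝ) ≤ Q := by exact_mod_cast hQ
  have hQ0 : (0 : ℝ) < Q := by linarith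
  have hw1 : (1 : ℝ) ≤ w := by exact_mod_cast hw
  have hK30 : (768 : ℝ) ≤ K3 := by
    have h1 : δ * K3 ≤ 1 * K3 := mul_le_mul_of_nonneg_right hδ1 (Nat.cast_nonneg _)
    linarith
  have hK00 : (0 : ℝ) < K0 := lt_of_lt_of_le (by positivity) hK0
  set Θ : ℝ := 2 * (8 * Q : ℝ) ^ k with hΘdef
  have hΘ0 : 0 < Θ := by positivity
  have hΘ1 : 1 ≤ Θ := by
    have : (1 : ℝ) ≤ (8 * Q : ℝ) ^ k := one_le_pow₀ (by linarith)
    rw [hΘdef]
    linarith
  have hht2 : ∀ t ∈ T, ht t ≤ 2 * ht t0 := fun t h =>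
    (hht t h).2.trans (mul_le_mul_of_nonneg_right (by linarith) H0.le)
  set F : ℕ × ℕ → Finset ℕ := fun t => (H t).filter (fun p => 1 ≤ m t p) with hFdef
  have hFH : ∀ t, F t ⊆ H t := fun t => Finset.filter_subset _ _
  set q : ℝ := r / Q with hq
  have hq0 : 0 ≤ q := by positivity
  set κ1 : ℝ := 2 * c * ht t0 + k * q * x with hκ1
  have hrest : ∀ t ∈ T, ∑ p ∈ ((N t).primeFactors \ (S ∪ F t)).filter (fun p => lab t p ≠ l),
      (ex t p : ℝ) * Real.log p ≤ κ1 := by
    intro t ht'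
    obtain ⟨h1, h2, h3, h4, h5, h6, h7, h8⟩ := hT t ht'
    refine (rest_le h1 h2 hx hx0.le (hHsub t ht') h6 hq0 h8 ?_).trans ?_
    · intro p hp
      rw [Finset.mem_sdiff, hFdef, Finset.mem_filter] at hp
      have hm0 : m t p = 0 := by
        by_contra hne
        exact hp.2 ⟨hp.1, by omega⟩
      have h9 := hm t ht' p hp.1
      rw [hm0] at h9
      simp only [Nat.cast_zero, mul_zero, sub_zero] at h9
      rwa [abs_of_nonneg (Nat.cast_nonneg _)] at h9
    · have h9 : c * ht t ≤ c * (2 * ht t0) :=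
        mul_le_mul_of_nonneg_left (hht2 t ht') hc0
      rw [hκ1]
      linarith
  -- the numerical inequality behind the small rest
  have hr2 : ht t0 ≤ Θ * (r * x) := hΘ
  have hnum1 : 768 * w * K3 * (2 * (c + 2 / K0 + 3 * η') * ht t0 + 2 * k * q * x) ≤
      δ * x * r := by
    have h1 : 3072 * (w : ℝ) * K3 * (c + 2 / K0 + 3 * η') * ht t0 ≤ δ * (r * x) := by
      calc 3072 * (w : ℝ) * K3 * (c + 2 / K0 + 3 * η') * ht t0 ≤
          3072 * (w : ℝ) * K3 * (c + 2 / K0 + 3 * η') * (Θ * (r * x)) := by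
            apply mul_le_mul_of_nonneg_left hr2
            positivity
        _ = (3072 * (w : ℝ) * K3 * (c + 2 / K0 + 3 * η') * Θ) * (r * x) := by ring
        _ ≤ δ * (r * x) := mul_le_mul_of_nonneg_right hcw (by positivity)
    have h2 : 3072 * (w : ℝ) * K3 * k * (q * x) ≤ δ * (r * x) := by
      calc 3072 * (w : ℝ) * K3 * k * (q * x) ≤ δ * Q * (q * x) :=
            mul_le_mul_of_nonneg_right hQw (by positivity)
        _ = δ * (r * x) := by
            rw [hq]
            field_simp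
    have e1 : 768 * w * K3 * (2 * (c + 2 / K0 + 3 * η') * ht t0 + 2 * k * q * x) =
        (3072 * (w : ℝ) * K3 * (c + 2 / K0 + 3 * η') * ht t0) / 2 +
        (3072 * (w : ℝ) * K3 * k * (q * x)) / 2 := by ring
    rw [e1]
    have e2 : δ * (r * x) = δ * x * r := by ring
    rw [e2] at h1 h2
    linarith
  have hκle : κ1 ≤ δ / 2 * ht t0 := by
    -- from `hnum1`
    have h1 : 768 * (w : ℝ) * K3 * κ1 ≤ δ * ht t0 := by
      have h2 : 768 * (w : ℝ) * K3 * κ1 ≤
          768 * w * K3 * (2 * (c + 2 / K0 + 3 * η') * ht t0 + 2 * k * q * x) := by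
        apply mul_le_mul_of_nonneg_left _ (by positivity)
        rw [hκ1]
        have h3 : 0 ≤ (2 / (K0 : ℝ) + 3 * η') * ht t0 := by positivity
        have h4 : 0 ≤ k * q * x := by positivity
        have e1 : 2 * (c + 2 / K0 + 3 * η') * ht t0 + 2 * k * q * x =
          2 * c * ht t0 + 2 * ((2 / (K0 : ℝ) + 3 * η') * ht t0) + 2 * (k * q * x) := by ring
        rw [e1]
        linarith
      have h5 : δ * x * r ≤ δ * ht t0 := by
        calc δ * x * r = δ * (r * x) := by ring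
          _ ≤ δ * ht t0 := mul_le_mul_of_nonneg_left hrt hδ.le
      linarith
    have hκ0 : 0 ≤ κ1 := by positivity
    have h6 : 2 * κ1 ≤ 768 * (w : ℝ) * K3 * κ1 := by
      apply mul_le_mul_of_nonneg_right _ hκ0
      calc (2 : ℝ) ≤ (768 * 1) * 768 := by norm_num
        _ ≤ (768 * w) * K3 := mul_le_mul (by linarith) hK30 (by norm_num) (by linarith)
    linarith
  have hx400 : 4 / δ ≤ x := by
    rw [div_le_iff₀ hδ]
    linarith
  have hΘx : x ≤ ht t0 := by
    refine le_trans ?_ hrx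
    have h1 : (1 : ℝ) ≤ 48 * K3 * Θ := by
      calc (1 : ℝ) = 1 * 1 := by norm_num
        _ ≤ (48 * K3) * Θ := mul_le_mul (by linarith) hΘ1 zero_le_one (by linarith)
    calc x = 1 * x := (one_mul x).symm
      _ ≤ 48 * K3 * Θ * x := mul_le_mul_of_nonneg_right h1 hx0.le
  have hgood : ∀ t ∈ T, GoodD (δ / 2) (S ∪ F t) t := by
    intro t ht'
    obtain ⟨h1, h2, h3, h4, h5, h6, h7, h8⟩ := hT t ht'
    have hmin := (hht t ht').1
    apply goodD_of_rest h1 hδ h3 ((hFH t).trans (hHsub t ht')) h4 (hrest t ht')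
    · exact hκle.trans (mul_le_mul_of_nonneg_left hmin (by positivity))
    · linarith
  obtain ⟨T', hT', hinj, himg⟩ := exists_reps T F
  have hT'c : T'.card ≤ (k * L + 1) ^ k := by
    rcases T'.eq_empty_or_nonempty with he | hne
    · rw [he, Finset.card_empty]
      exact Nat.zero_le _
    obtain ⟨t1, ht1, hmin1⟩ := Finset.exists_min_image T' ht hne
    have ht1T := hT' ht1
    have h01 := (hht t1 ht1T).1
    have h01' := (hht t1 ht1T).2
    have H1 := ht_pos (hI t1 ht1T)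
    apply classK hδ hδ1 hη0 hη1 hK0 hn hx hx0 S l T' F m (κ1 := κ1) (ρ := q) (K0 := K0) (w := w)
      (K3 := K3) (r := r) (L := L) (fun t h => hI t (hT' h)) (fun t h => (hT t (hT' h)).2.1)
      (fun t h => (hT t (hT' h)).2.2.1) (fun t h => (hFH t).trans (hHsub t (hT' h)))
    · intro t h
      have h1 := (hT t (hT' h)).2.2.2.2.1
      rw [Finset.disjoint_left]
      intro p hp hp'
      exact (Finset.mem_sdiff.1 (h1 (hFH t hp'))).2 hp
    · intro t h
      exact (Finset.card_le_card (hFH t)).trans (hT t (hT' h)).2.2.2.2.2.1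
    · intro t h p hp
      exact ((hT t (hT' h)).2.2.2.2.2.2.1 p (hFH t hp)).1
    · exact fun t h t' h' => hcode t (hT' h) t' (hT' h')
    · exact ht1
    · exact (hT t1 ht1T).2.2.2.1
    · exact hmin1
    · intro t h
      have h1 := (hht t (hT' h)).2
      have h2 : (1 + η') * ht t0 ≤ (1 + η') * ht t1 :=
        mul_le_mul_of_nonneg_left h01 (by linarith)
      linarith
    · intro t h p hp
      rw [hFdef, Finset.mem_filter] at hp
      exact hp.2
    · intro t h p hp
      exact hm t (hT' h) p (hFH t hp)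
    · exact hq0
    · rw [hq, ← mul_div_assoc, div_le_iff₀ hQ0, mul_comm]
      exact mul_le_mul_of_nonneg_left hQ2 hr0.le
    · exact hinj
    · exact fun t h => hrest t (hT' h)
    · exact hw
    · exact hK3
    · exact hxK
    · linarith
    · have h1 : 48 * (K3 : ℝ) * Θ * x ≤ Θ * (r * x) := hrx.trans hr2
      have h2 : (48 * (K3 : ℝ)) * (Θ * x) ≤ r * (Θ * x) := by linarith
      have h3 := le_of_mul_le_mul_right h2 (by positivity)
      exact_mod_cast h3
    · have h1 : 2 * x * r ≤ 2 * ht t0 := by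
        have e1 : 2 * x * r = 2 * (r * x) := by ring
        rw [e1]
        linarith
      have h2 : 2 * ht t0 ≤ K3 * ht t0 := mul_le_mul_of_nonneg_right (by linarith) H0.le
      have h3 : (K3 : ℝ) * ht t0 ≤ K3 * ht t1 := mul_le_mul_of_nonneg_left h01 (by linarith)
      linarith
    · refine le_trans ?_ hnum1
      apply mul_le_mul_of_nonneg_left _ (by positivity)
      have h1 : ht t1 ≤ 2 * ht t0 := hht2 t1 ht1T
      have h2 : (2 / (K0 : ℝ) + 3 * η') * ht t1 ≤ (2 / (K0 : ℝ) + 3 * η') * (2 * ht t0) :=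
        mul_le_mul_of_nonneg_left h1 (by positivity)
      rw [hκ1]
      have e1 : 2 * (c + 2 / K0 + 3 * η') * ht t0 + 2 * k * q * x =
        2 * c * ht t0 + (2 / (K0 : ℝ) + 3 * η') * (2 * ht t0) + 2 * (k * q * x) := by ring
      rw [e1]
      linarith
    · exact hL
  have hcard : T.card = ∑ F' ∈ T.image F, (T.filter (fun t => F t = F')).card :=
    Finset.card_eq_sum_card_image F T
  have h1 : (T.card : ℝ) ≤ ∑ _F' ∈ T.image F, M := by
    rw [hcard]
    push_cast
    apply Finset.sum_le_sum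
    intro F' _
    apply hfib F' _ (Finset.filter_subset _ _)
    intro t h
    rw [Finset.mem_filter] at h
    have := hgood t h.1
    rwa [h.2] at this
  rw [Finset.sum_const, nsmul_eq_mul, ← himg, Finset.card_image_of_injOn hinj] at h1
  have h2 : ((T'.card : ℕ) : ℝ) ≤ ((k : ℝ) * L + 1) ^ k := by exact_mod_cast hT'c
  calc (T.card : ℝ) ≤ T'.card * M := h1
    _ ≤ ((k : ℝ) * L + 1) ^ k * M := mul_le_mul_of_nonneg_right h2 hM
    _ = M * (k * L + 1) ^ k := by ring

end Pool.Agent.Lib.Pabc10
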