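import Mathlib
import Pool.Agent.Lib.Pabc10.FibreB

/-!
# Counting with a fixed known part: all unknown primes large
-/

open Finset Filter Topology

namespace Pool.Agent.Lib.Pabc10

open Pool.Agent.Lib.Pabc1 Pool.Agent.Lib.Pabc2

theorem prod_le_of_sub {t : ℕ × ℕ} {n : ℕ} (hr : rd t ≤ n) {S : Finset ℕ}
    (hS : S ⊆ (N t).primeFactors) : ∏ p ∈ S, p ≤ n := by
  refine le_trans ?_ hr
  unfold rd
  apply Finset.prod_le_prod_of_subset_of_one_le' hS
  intro p hp _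
  exact (Nat.prime_of_mem_primeFactors hp).one_lt.le

theorem BconD_one_le (K : ℕ) : 1 ≤ BconD K := by
  unfold BconD
  have : (1 : ℝ) ≤ 2 ^ (3 * K) := one_le_pow₀ (by norm_num)
  linarith

/-- The number of codes of a family on a fixed set. -/
theorem card_image_codeD_le (K0 : ℕ) (S : Finset ℕ) (T : Finset (ℕ × ℕ)) (hI : ∀ t ∈ T, IsT t)
    (hS : ∀ t ∈ T, S ⊆ (N t).primeFactors) :
    ((T.image (codeD K0 S)).card : ℝ) ≤ BconD K0 ^ S.card := by
  classical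
  apply card_codesD_le
  intro c hc
  rw [Finset.mem_image] at hc
  obtain ⟨t, ht', rfl⟩ := hc
  simp only [codeD]
  rw [Finset.sum_attach S (fun p => ⌊u t p * (K0 * S.card)⌋₊)]
  have hu := sum_u_le (hI t ht') (hS t ht')
  have h5 : ((∑ p ∈ S, ⌊u t p * (K0 * S.card)⌋₊ : ℕ) : ℝ) ≤
      ((3 * K0 * S.card : ℕ) : ℝ) := by
    push_cast
    calc ∑ p ∈ S, (⌊u t p * (K0 * S.card)⌋₊ : ℝ) ≤ ∑ p ∈ S, u t p * (K0 * S.card) := by
          apply Finset.sum_le_sum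
          intro p _
          apply Nat.floor_le
          have := u_nonneg (hI t ht') p
          positivity
      _ = (∑ p ∈ S, u t p) * (K0 * S.card) := by rw [Finset.sum_mul]
      _ ≤ 3 * (K0 * S.card) := by gcongr
      _ ≤ _ := by linarith
  exact_mod_cast h5

/-- The number of triples of height at most `n ^ A` that are good on a given set. -/
theorem card_goodD_pow (δ A ε : ℝ) (hδ : 0 < δ) (hδ1 : δ ≤ 1) (hA : 0 ≤ A) (hε : 0 < ε) :
    ∀ᶠ n : ℕ in atTop, ∀ (S : Finset ℕ) (T : Finset (ℕ × ℕ)),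
      (∀ t ∈ T, GoodD δ S t ∧ rd t ≤ n ∧ ht t ≤ (n : ℝ) ^ A) → (T.card : ℝ) ≤ (n : ℝ) ^ ε := by
  set K' : ℕ := ⌈8 / δ⌉₊ with hK'
  have hK'1 : 8 / δ ≤ K' := Nat.le_ceil _
  obtain ⟨Kc, hKc1, hKc⟩ := card_pow_le (BconD K') (ε / 2) (BconD_one_le _) (by positivity)
  have hl : 0 < Real.log (1 + δ / 4) := Real.log_pos (by linarith)
  have hlim : Tendsto (fun n : ℕ => Real.log (n : ℝ)) atTop atTop :=
    Real.tendsto_log_atTop.comp tendsto_natCast_atTop_atTop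
  filter_upwards [ev_log_pow_le ((K' + 1) * (A / Real.log (1 + δ / 4) + 1) * Kc) 1 (ε / 2)
    (by positivity), hlim.eventually (eventually_ge_atTop 1), eventually_ge_atTop 1] with
    n hlog hx1 hn1 S T hT
  set x := Real.log (n : ℝ) with hx
  have hn1' : (1 : ℝ) ≤ n := by exact_mod_cast hn1
  have hn0 : (0 : ℝ) < n := by linarith
  rcases T.eq_empty_or_nonempty with rfl | ⟨t0, ht0⟩
  · rw [Finset.card_empty, Nat.cast_zero]
    positivity
  have hSp : ∀ p ∈ S, p.Prime := fun p hp =>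
    Nat.prime_of_mem_primeFactors ((hT t0 ht0).1.sub hp)
  have h1 := card_goodD_le hδ hδ1 hK'1 ((n : ℝ) ^ A) (Real.one_le_rpow hn1' hA) S T
    (fun t h => ⟨(hT t h).1, (hT t h).2.2⟩)
  rw [Real.log_rpow hn0, ← hx] at h1
  have h2 := hKc S (fun p hp => (hSp p hp).two_le)
  have h3 : (∏ p ∈ S, (p : ℝ)) ^ (ε / 2) ≤ (n : ℝ) ^ (ε / 2) := by
    apply Real.rpow_le_rpow (Finset.prod_nonneg fun p _ => Nat.cast_nonneg p) _ (by positivity)
    rw [← Nat.cast_prod]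
    exact_mod_cast prod_le_of_sub (hT t0 ht0).2.1 (hT t0 ht0).1.sub
  have h4 : A * x / Real.log (1 + δ / 4) + 1 ≤ (A / Real.log (1 + δ / 4) + 1) * x := by
    have : A * x / Real.log (1 + δ / 4) = A / Real.log (1 + δ / 4) * x := by ring
    rw [this, add_mul, one_mul]
    linarith
  have h5 : 0 ≤ A * x / Real.log (1 + δ / 4) + 1 := by positivity
  calc (T.card : ℝ) ≤ (K' + 1) * (A * x / Real.log (1 + δ / 4) + 1) * BconD K' ^ S.card := h1
    _ ≤ (K' + 1) * ((A / Real.log (1 + δ / 4) + 1) * x) * (Kc * (n : ℝ) ^ (ε / 2)) := by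
        apply mul_le_mul
        · exact mul_le_mul_of_nonneg_left h4 (by positivity)
        · exact h2.trans (mul_le_mul_of_nonneg_left h3 (by linarith))
        · exact pow_nonneg (BconD_pos _).le _
        · positivity
    _ = ((K' + 1) * (A / Real.log (1 + δ / 4) + 1) * Kc * x ^ (1 : ℝ)) * (n : ℝ) ^ (ε / 2) := by
        rw [Real.rpow_one]
        ring
    _ ≤ (n : ℝ) ^ (ε / 2) * (n : ℝ) ^ (ε / 2) := mul_le_mul_of_nonneg_right hlog (by positivity)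
    _ = (n : ℝ) ^ ε := by
        rw [← Real.rpow_add hn0]
        congr 1
        ring

/-- The number of codes, in terms of `n`. -/
theorem card_codes_pow (K0 : ℕ) (ε : ℝ) (hε : 0 < ε) :
    ∃ Kc : ℝ, 1 ≤ Kc ∧ ∀ (n : ℕ) (S : Finset ℕ) (T : Finset (ℕ × ℕ)),
      (∀ t ∈ T, IsT t ∧ rd t ≤ n ∧ S ⊆ (N t).primeFactors) →
      ((T.image (codeD K0 S)).card : ℝ) ≤ Kc * (n : ℝ) ^ ε := by
  obtain ⟨Kc, hKc1, hKc⟩ := card_pow_le (BconD K0) ε (BconD_one_le _) hε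
  refine ⟨Kc, hKc1, ?_⟩
  intro n S T hT
  rcases T.eq_empty_or_nonempty with rfl | ⟨t0, ht0⟩
  · rw [Finset.image_empty, Finset.card_empty, Nat.cast_zero]
    positivity
  have hSp : ∀ p ∈ S, p.Prime := fun p hp =>
    Nat.prime_of_mem_primeFactors ((hT t0 ht0).2.2 hp)
  refine (card_image_codeD_le K0 S T (fun t h => (hT t h).1) (fun t h => (hT t h).2.2)).trans ?_
  refine (hKc S (fun p hp => (hSp p hp).two_le)).trans ?_
  apply mul_le_mul_of_nonneg_left _ (by linarith)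
  apply Real.rpow_le_rpow (Finset.prod_nonneg fun p _ => Nat.cast_nonneg p) _ hε.le
  rw [← Nat.cast_prod]
  exact_mod_cast prod_le_of_sub (hT t0 ht0).2.1 (hT t0 ht0).2.2

/-- The size of the private family. -/
theorem exists_L (k w : ℕ) (hw : 1 ≤ w) (n : ℕ) (hn : 1 ≤ n) :
    ∃ L : ℕ, Real.exp (4 * Real.log n) * n < (L.choose w : ℝ) ∧
      ((k : ℝ) * L + 1) ^ k ≤ (k * (2 * w + 1) + 1) ^ k * (n : ℝ) ^ (5 * (k : ℝ) / w) := by
  have hn0 : (0 : ℝ) < n := by exact_mod_cast hn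
  have hn1 : (1 : ℝ) ≤ n := by exact_mod_cast hn
  have hw0 : (0 : ℝ) < w := by exact_mod_cast hw
  set x := Real.log (n : ℝ) with hx
  have hx0 : 0 ≤ x := Real.log_nonneg hn1
  set Λ : ℝ := 5 * x / w with hΛ
  have hΛ0 : 0 ≤ Λ := by positivity
  have hE : 1 ≤ Real.exp Λ := Real.one_le_exp hΛ0
  refine ⟨⌊2 * w * Real.exp Λ⌋₊ + 1, ?_, ?_⟩
  · by_contra hcon
    push Not at hcon
    have h1 : (((⌊2 * w * Real.exp Λ⌋₊ + 1).choose w : ℕ) : ℝ) ≤ Real.exp (w * Λ) := by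
      refine hcon.trans (le_of_eq ?_)
      have e1 : (n : ℝ) = Real.exp x := by rw [hx, Real.exp_log hn0]
      have e2 : (w : ℝ) * Λ = 4 * x + x := by
        rw [hΛ]
        field_simp
        ring
      rw [e2, Real.exp_add, ← e1]
    have h2 := card_le_of_choose_le hw hΛ0 h1
    have h3 := Nat.lt_floor_add_one (2 * (w : ℝ) * Real.exp Λ)
    push_cast at h2
    linarith
  · have h1 : ((⌊2 * w * Real.exp Λ⌋₊ + 1 : ℕ) : ℝ) ≤ (2 * w + 1) * Real.exp Λ := by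
      push_cast
      have := Nat.floor_le (show 0 ≤ 2 * (w : ℝ) * Real.exp Λ by positivity)
      linarith
    have h2 : (k : ℝ) * ((⌊2 * w * Real.exp Λ⌋₊ + 1 : ℕ) : ℝ) + 1 ≤
        (k * (2 * w + 1) + 1) * Real.exp Λ := by
      have h3 : (k : ℝ) * ((⌊2 * w * Real.exp Λ⌋₊ + 1 : ℕ) : ℝ) ≤ k * ((2 * w + 1) * Real.exp Λ) :=
        mul_le_mul_of_nonneg_left h1 (Nat.cast_nonneg _)
      linarith
    calc ((k : ℝ) * ((⌊2 * w * Real.exp Λ⌋₊ + 1 : ℕ) : ℝ) + 1) ^ k ≤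
        ((k * (2 * w + 1) + 1) * Real.exp Λ) ^ k := pow_le_pow_left₀ (by positivity) h2 k
      _ = (k * (2 * w + 1) + 1) ^ k * (n : ℝ) ^ (5 * (k : ℝ) / w) := by
          rw [mul_pow, ← Real.exp_nat_mul, Real.rpow_def_of_pos hn0, ← hx]
          congr 2
          rw [hΛ]
          ring

/-- The parameters. -/
theorem exists_params (δ ε1 : ℝ) (k w : ℕ) (hδ : 0 < δ) (hε1 : 0 < ε1) :
    ∃ (K3 Q K0 W : ℕ) (η' c : ℝ), 2 ≤ Q ∧ 0 < η' ∧ η' ≤ 1 ∧ 0 < c ∧ 16 / δ ≤ K0 ∧ 1 ≤ W ∧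
      2 * Q * (2 * (8 * Q : ℝ) ^ k) * (2 / W + η' / ε1) ≤ 1 ∧
      768 * (w : ℝ) ≤ δ * K3 ∧ 3072 * (w : ℝ) * K3 * k ≤ δ * Q ∧
      3072 * (w : ℝ) * K3 * (c + 2 / K0 + 3 * η') * (2 * (8 * Q : ℝ) ^ k) ≤ δ := by
  set K3 : ℕ := ⌈768 * (w : ℝ) / δ⌉₊ with hK3
  set Q : ℕ := ⌈3072 * (w : ℝ) * K3 * k / δ⌉₊ + 2 with hQ
  set Θ : ℝ := 2 * (8 * Q : ℝ) ^ k with hΘ
  have hQ2 : 2 ≤ Q := by omega
  have hQ0 : (0 : ℝ) < Q := by
    have : 0 < Q := by omega
    exact_mod_cast this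
  have hΘ0 : 0 < Θ := by positivity
  set D : ℝ := 3072 * (w : ℝ) * K3 * Θ / δ + 1 with hD
  have hD0 : 0 < D := by positivity
  set K0 : ℕ := ⌈6 * D + 16 / δ⌉₊ with hK0
  set W : ℕ := ⌈8 * Q * Θ⌉₊ + 1 with hW
  set η' : ℝ := min 1 (min (1 / (9 * D)) (ε1 / (4 * Q * Θ))) with hη'
  have hη0 : 0 < η' := by
    rw [hη']
    refine lt_min one_pos (lt_min (by positivity) (by positivity))
  have hη1 : η' ≤ 1 := min_le_left _ _
  have hη2 : η' ≤ 1 / (9 * D) := (min_le_right _ _).trans (min_le_left _ _)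
  have hη3 : η' ≤ ε1 / (4 * Q * Θ) := (min_le_right _ _).trans (min_le_right _ _)
  have hK0ge : 6 * D + 16 / δ ≤ K0 := Nat.le_ceil _
  have hK0pos : (0 : ℝ) < K0 := lt_of_lt_of_le (by positivity) hK0ge
  refine ⟨K3, Q, K0, W, η', 1 / (3 * D), hQ2, hη0, hη1, by positivity, ?_, by omega, ?_, ?_, ?_, ?_⟩
  · linarith
  · have hWge : 8 * Q * Θ ≤ W := by
      rw [hW]
      push_cast
      have := Nat.le_ceil (8 * (Q : ℝ) * Θ)
      linarith
    have hW0 : (0 : ℝ) < W := lt_of_lt_of_le (by positivity) hWge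
    have h1 : 2 / (W : ℝ) ≤ 1 / (4 * Q * Θ) := by
      rw [div_le_div_iff₀ hW0 (by positivity)]
      linarith
    have h2 : η' / ε1 ≤ 1 / (4 * Q * Θ) := by
      rw [div_le_iff₀ hε1]
      calc η' ≤ ε1 / (4 * Q * Θ) := hη3
        _ = 1 / (4 * Q * Θ) * ε1 := by ring
    calc 2 * Q * Θ * (2 / W + η' / ε1) ≤ 2 * Q * Θ * (1 / (4 * Q * Θ) + 1 / (4 * Q * Θ)) := by
          gcongr
      _ = 1 := by
          field_simp
          norm_num
  · have h1 := Nat.le_ceil (768 * (w : ℝ) / δ)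
    rw [← hK3, div_le_iff₀ hδ] at h1
    linarith
  · have h1 := Nat.le_ceil (3072 * (w : ℝ) * K3 * k / δ)
    have h2 : 3072 * (w : ℝ) * K3 * k / δ ≤ Q := by
      rw [hQ]
      push_cast
      linarith
    rw [div_le_iff₀ hδ] at h2
    linarith
  · have h1 : 2 / (K0 : ℝ) ≤ 1 / (3 * D) := by
      rw [div_le_div_iff₀ hK0pos (by positivity)]
      have : 0 < 16 / δ := by positivity
      linarith
    have h2 : 3 * η' ≤ 1 / (3 * D) := by
      calc 3 * η' ≤ 3 * (1 / (9 * D)) := by linarith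
        _ = 1 / (3 * D) := by
            field_simp
            norm_num
    have h3 : 1 / (3 * D) + 2 / K0 + 3 * η' ≤ 1 / D := by
      have : 1 / (3 * D) + 1 / (3 * D) + 1 / (3 * D) = 1 / D := by
        field_simp
        norm_num
      linarith
    have h4 : 0 ≤ 1 / (3 * D) + 2 / (K0 : ℝ) + 3 * η' := by positivity
    have h5 : 3072 * (w : ℝ) * K3 * Θ ≤ δ * D := by
      rw [hD, mul_add, mul_one, mul_div_assoc', mul_div_cancel_left₀ _ hδ.ne']
      linarith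
    calc 3072 * (w : ℝ) * K3 * (1 / (3 * D) + 2 / K0 + 3 * η') * Θ =
        (3072 * (w : ℝ) * K3 * Θ) * (1 / (3 * D) + 2 / K0 + 3 * η') := by ring
      _ ≤ (δ * D) * (1 / D) := mul_le_mul h5 h3 h4 (by positivity)
      _ = δ := by field_simp

end Pool.Agent.Lib.Pabc10
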