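import Mathlib
import Pool.Agent.Lib.Pabc10.FibreC

/-!
# Counting with a fixed known part: all unknown primes large
-/

open Finset Filter Topology

namespace Pool.Agent.Lib.Pabc10

open Pool.Agent.Lib.Pabc1 Pool.Agent.Lib.Pabc2

/-- The code of the height. -/
noncomputable def hcode (ρ : ℝ) (t : ℕ × ℕ) : ℕ := ⌊Real.log (ht t) / Real.log ρ⌋₊

/-- Counting with a fixed known part `S`, when all unknown primes of mass are `≥ n ^ ε1`. -/
theorem fibre_big (δ A ε ε1 : ℝ) (k : ℕ) (hδ : 0 < δ) (hδ1 : δ ≤ 1) (hA : 0 ≤ A) (hε : 0 < ε)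
    (hε1 : 0 < ε1) (hε11 : ε1 ≤ 1) :
    ∃ c : ℝ, 0 < c ∧ ∃ K : ℝ, 1 ≤ K ∧ ∀ᶠ n : ℕ in atTop,
      ∀ (S : Finset ℕ) (l : Fin 3) (T : Finset (ℕ × ℕ)) (H : ℕ × ℕ → Finset ℕ),
      (∀ t ∈ T, IsT t ∧ rd t ≤ n ∧ K * Real.log n ≤ ht t ∧ ht t ≤ (n : ℝ) ^ A ∧
        S ⊆ (N t).primeFactors ∧ δ ≤ ∑ p ∈ S.filter (fun p => lab t p = l), u t p ∧
        H t ⊆ (N t).primeFactors \ S ∧ (H t).card ≤ k ∧
        (∀ p ∈ H t, lab t p ≠ l ∧ ε1 * Real.log n ≤ Real.log p) ∧
        ∑ p ∈ ((N t).primeFactors \ (S ∪ H t)).filter (fun p => lab t p ≠ l), u t p ≤ c) →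
      (T.card : ℝ) ≤ (n : ℝ) ^ ε := by
  classical
  set w : ℕ := ⌈30 * (k : ℝ) / ε⌉₊ + 1 with hw
  have hw1 : 1 ≤ w := by omega
  have hw0 : (0 : ℝ) < w := by exact_mod_cast hw1
  obtain ⟨K3, Q, K0, W, η', c, hQ, hη0, hη1, hc0, hK0, hW, hnum, hK3, hQw, hcw⟩ :=
    exists_params δ ε1 k w hδ hε1
  obtain ⟨G, hG1, hG⟩ := class_leK k Q hQ ε1 hε1 hε11
  set Θ : ℝ := 2 * (8 * Q : ℝ) ^ k with hΘ
  obtain ⟨Kc, hKc1, hKc⟩ := card_codes_pow K0 (ε / 6) (by positivity)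
  have hlη : 0 < Real.log (1 + η') := Real.log_pos (by linarith)
  set Ck : ℝ := ((k : ℝ) * (2 * w + 1) + 1) ^ k with hCk
  have hCk0 : 0 < Ck := by positivity
  set Wb : ℕ := ⌊(W : ℝ) / ε1⌋₊ with hWb
  set C0 : ℝ := Ck * Kc * (A / Real.log (1 + η') + 1) * 2 ^ (Wb + 1) with hC0
  refine ⟨c, hc0, max G (48 * K3 * Θ), hG1.trans (le_max_left _ _), ?_⟩
  have hlim : Tendsto (fun n : ℕ => Real.log (n : ℝ)) atTop atTop :=
    Real.tendsto_log_atTop.comp tendsto_natCast_atTop_atTop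
  filter_upwards [hlim.eventually (eventually_ge_atTop 1),
    hlim.eventually (eventually_ge_atTop (400 * (K3 : ℝ) / δ)),
    card_goodD_pow (δ / 2) A (ε / 6) (by positivity) (by linarith) hA (by positivity),
    ev_log_pow_le C0 1 (ε / 2) (by positivity), eventually_ge_atTop 1] with
    n hx1 hx400 hgd hlog hn1 S l T H hT
  set x := Real.log (n : ℝ) with hx
  have hx0 : 0 < x := by linarith
  have hn0 : (0 : ℝ) < n := by exact_mod_cast hn1
  have hn1' : (1 : ℝ) ≤ n := by exact_mod_cast hn1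
  have hxK : 400 * (K3 : ℝ) ≤ δ * x := by
    rw [div_le_iff₀ hδ] at hx400
    linarith
  obtain ⟨L, hL1, hL2⟩ := exists_L k w hw1 n hn1
  have hI : ∀ t ∈ T, IsT t := fun t h => (hT t h).1
  have hGx : ∀ t ∈ T, G * x ≤ ht t := fun t h =>
    le_trans (mul_le_mul_of_nonneg_right (le_max_left _ _) hx0.le) (hT t h).2.2.1
  have hKx : ∀ t ∈ T, 48 * K3 * Θ * x ≤ ht t := fun t h =>
    le_trans (mul_le_mul_of_nonneg_right (le_max_right _ _) hx0.le) (hT t h).2.2.1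
  have hht1 : ∀ t ∈ T, 1 ≤ ht t := by
    intro t h
    have := hGx t h
    nlinarith
  set M : ℝ := (n : ℝ) ^ (ε / 6) with hM
  have hM0 : 0 < M := by positivity
  set B0 : ℝ := M * ((k : ℝ) * L + 1) ^ k with hB0
  have hB00 : 0 ≤ B0 := by positivity
  set f : ℕ × ℕ → ((p : ℕ) → p ∈ S → Fin 3 × ℕ) × ℕ × Finset ℕ :=
    fun t => (codeD K0 S t, hcode (1 + η') t, (H t).image (bk x W t)) with hf
  set Lh : ℕ := ⌊A * x / Real.log (1 + η')⌋₊ with hLh
  have h1 : T.card ≤ ⌊B0⌋₊ * (T.image f).card := by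
    apply Finset.card_le_mul_card_image
    intro cc hcc
    apply Nat.le_floor
    set Tc := T.filter (fun a => f a = cc) with hTc
    have hm : ∀ t ∈ Tc, t ∈ T ∧ f t = cc := by
      intro t h
      rwa [hTc, Finset.mem_filter] at h
    have hne : Tc.Nonempty := by
      rw [Finset.mem_image] at hcc
      obtain ⟨t, ht', rfl⟩ := hcc
      exact ⟨t, Finset.mem_filter.2 ⟨ht', rfl⟩⟩
    obtain ⟨t0, ht0, hmin⟩ := Finset.exists_min_image Tc ht hne
    have hft : ∀ t ∈ Tc, ∀ t' ∈ Tc, f t = f t' := fun t h t' h' =>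
      (hm t h).2.trans (hm t' h').2.symm
    apply hG δ η' c x M K0 w K3 n L W hδ hδ1 hη0.le hη1 hc0.le hK0 hn1 hx hx0 hW hnum hw1 hK3 hxK
      hQw hcw hL1 hM0.le S l Tc H t0 ht0
    · intro t h
      refine ⟨hmin t h, ?_⟩
      have e := hft t0 ht0 t h
      simp only [hf, Prod.mk.injEq] at e
      exact ratio_of_floor_eq (by linarith) (hht1 t0 (hm t0 ht0).1) (hht1 t (hm t h).1) e.2.1
    · intro t h
      obtain ⟨a1, a2, _, _, a5, a6, a7, a8, a9, a10⟩ := hT t (hm t h).1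
      exact ⟨a1, a2, a5, a6, a7, a8, a9, a10⟩
    · intro t h t' h'
      have e := hft t h t' h'
      simp only [hf, Prod.mk.injEq] at e
      exact e.1
    · intro t h
      have e := hft t h t0 ht0
      simp only [hf, Prod.mk.injEq] at e
      exact e.2.2
    · exact hGx t0 (hm t0 ht0).1
    · exact hKx t0 (hm t0 ht0).1
    · intro F T1 hT1 hg
      exact hgd (S ∪ F) T1 (fun t h => ⟨hg t h, (hT t (hm t (hT1 h)).1).2.1,
        (hT t (hm t (hT1 h)).1).2.2.2.1⟩)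
  have h2 : (T.image f) ⊆ (T.image (codeD K0 S)) ×ˢ (Finset.range (Lh + 1) ×ˢ
      (Finset.range (Wb + 1)).powerset) := by
    intro cc hcc
    rw [Finset.mem_image] at hcc
    obtain ⟨t, ht', rfl⟩ := hcc
    have hI' := hI t ht'
    simp only [Finset.mem_product, hf]
    refine ⟨Finset.mem_image_of_mem _ ht', ?_, ?_⟩
    · rw [Finset.mem_range, Nat.lt_succ_iff]
      unfold hcode
      rw [hLh]
      apply Nat.floor_le_floor
      apply div_le_div_of_nonneg_right _ hlη.le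
      calc Real.log (ht t) ≤ Real.log ((n : ℝ) ^ A) :=
            Real.log_le_log (ht_pos hI') (hT t ht').2.2.2.1
        _ = A * x := Real.log_rpow hn0 A
    · rw [Finset.mem_powerset]
      intro b hb
      rw [Finset.mem_image] at hb
      obtain ⟨p, hp, rfl⟩ := hb
      rw [Finset.mem_range, Nat.lt_succ_iff]
      unfold bk
      rw [hWb]
      apply Nat.floor_le_floor
      have hpm : p ∈ (N t).primeFactors := (Finset.mem_sdiff.1 ((hT t ht').2.2.2.2.2.2.1 hp)).1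
      have h3 := yy_le (x := x) hε1 hI' hpm ((hT t ht').2.2.2.2.2.2.2.2.1 p hp).2
      calc yy x t p * W ≤ 1 / ε1 * W := mul_le_mul_of_nonneg_right h3 (Nat.cast_nonneg _)
        _ = (W : ℝ) / ε1 := by ring
  have h3 : ((T.image f).card : ℝ) ≤
      (Kc * (n : ℝ) ^ (ε / 6)) * ((A / Real.log (1 + η') + 1) * x * 2 ^ (Wb + 1)) := by
    have h4 := Finset.card_le_card h2
    rw [Finset.card_product, Finset.card_product, Finset.card_range, Finset.card_powerset,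
      Finset.card_range] at h4
    have h5 : ((T.image f).card : ℝ) ≤ ((T.image (codeD K0 S)).card : ℝ) *
        (((Lh : ℝ) + 1) * 2 ^ (Wb + 1)) := by exact_mod_cast h4
    have h6 := hKc n S T (fun t h => ⟨hI t h, (hT t h).2.1, (hT t h).2.2.2.2.1⟩)
    have h7 : (Lh : ℝ) ≤ A * x / Real.log (1 + η') := Nat.floor_le (by positivity)
    have h8 : (Lh : ℝ) + 1 ≤ (A / Real.log (1 + η') + 1) * x := by
      have : A * x / Real.log (1 + η') = A / Real.log (1 + η') * x := by ring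
      rw [add_mul, one_mul]
      linarith
    refine h5.trans ?_
    apply mul_le_mul h6 _ (by positivity) (by positivity)
    exact mul_le_mul_of_nonneg_right h8 (by positivity)
  have h6 : (⌊B0⌋₊ : ℝ) ≤ B0 := Nat.floor_le hB00
  have h7 : B0 ≤ M * (Ck * (n : ℝ) ^ (ε / 6)) := by
    apply mul_le_mul_of_nonneg_left _ hM0.le
    refine hL2.trans ?_
    apply mul_le_mul_of_nonneg_left _ hCk0.le
    apply Real.rpow_le_rpow_of_exponent_le hn1'
    rw [div_le_iff₀ hw0]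
    have h8 : 30 * (k : ℝ) / ε ≤ w := by
      rw [hw]
      push_cast
      have := Nat.le_ceil (30 * (k : ℝ) / ε)
      linarith
    rw [div_le_iff₀ hε] at h8
    linarith
  have e3 : (n : ℝ) ^ (ε / 6) * (n : ℝ) ^ (ε / 6) * (n : ℝ) ^ (ε / 6) = (n : ℝ) ^ (ε / 2) := by
    rw [← Real.rpow_add hn0, ← Real.rpow_add hn0]
    congr 1
    ring
  calc (T.card : ℝ) ≤ (⌊B0⌋₊ : ℝ) * (T.image f).card := by exact_mod_cast h1
    _ ≤ (M * (Ck * (n : ℝ) ^ (ε / 6))) *
        ((Kc * (n : ℝ) ^ (ε / 6)) * ((A / Real.log (1 + η') + 1) * x * 2 ^ (Wb + 1))) := by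
        apply mul_le_mul (h6.trans h7) h3 (Nat.cast_nonneg _) (by positivity)
    _ = (n : ℝ) ^ (ε / 6) * (n : ℝ) ^ (ε / 6) * (n : ℝ) ^ (ε / 6) * (C0 * x ^ (1 : ℝ)) := by
        rw [hC0, hM, Real.rpow_one]
        ring
    _ ≤ (n : ℝ) ^ (ε / 2) * (n : ℝ) ^ (ε / 2) := by
        rw [e3]
        exact mul_le_mul_of_nonneg_left hlog (by positivity)
    _ = (n : ℝ) ^ ε := by
        rw [← Real.rpow_add hn0]
        congr 1
        ring

end Pool.Agent.Lib.Pabc10
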