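import Mathlib
import Pool.Agent.Lib.Pabc10.FibreD

/-!
# Counting with a fixed known part and at most `k` heavy unknown primes

`fibre_rootK`: for every `δ, η > 0`, `A`, `k` there are `c > 0` and `K` such that, for large `n`, for every set
`S` of primes and every label `l` there are at most `n ^ η` triples of radical at most `n`, with
`K log n ≤ log c ≤ n ^ A`, whose exponents on `S` have normalised mass at least `δ` in the label `l`, and
whose primes outside `S` with labels different from `l` have mass at most `c` up to at most `k` primes.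

`count_rootK`: the same with a variable set `S` of product at most `n ^ σ`: at most `n ^ (σ + η)` triples.
-/

open Finset Filter Topology

namespace Pool.Agent.Lib.Pabc10

open Pool.Agent.Lib.Pabc1 Pool.Agent.Lib.Pabc2

/-- The number of subsets with at most `k` elements. -/
theorem card_small_subsets (U : Finset ℕ) (k : ℕ) :
    (U.powerset.filter (fun V => V.card ≤ k)).card ≤ (U.card + 1) ^ k := by
  classical
  induction k with
  | zero =>
    rw [pow_zero]
    have : U.powerset.filter (fun V => V.card ≤ 0) ⊆ {∅} := by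
      intro V hV
      rw [Finset.mem_filter] at hV
      rw [Finset.mem_singleton]
      exact Finset.card_eq_zero.1 (by omega)
    exact (Finset.card_le_card this).trans (by simp)
  | succ k ih =>
    have hsub : U.powerset.filter (fun V => V.card ≤ k + 1) ⊆
        ((U.powerset.filter (fun V => V.card ≤ k)) ×ˢ (Finset.insertNone U)).image
          (fun z => z.2.elim z.1 (fun a => insert a z.1)) := by
      intro V hV
      rw [Finset.mem_filter, Finset.mem_powerset] at hV
      rw [Finset.mem_image]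
      by_cases h : V.card ≤ k
      · refine ⟨(V, none), ?_, rfl⟩
        rw [Finset.mem_product, Finset.mem_filter, Finset.mem_powerset]
        exact ⟨⟨hV.1, h⟩, by simp⟩
      · have hne : V.Nonempty := by
          rw [← Finset.card_pos]
          omega
        obtain ⟨a, ha⟩ := hne
        refine ⟨(V.erase a, some a), ?_, ?_⟩
        · rw [Finset.mem_product, Finset.mem_filter, Finset.mem_powerset]
          refine ⟨⟨(Finset.erase_subset _ _).trans hV.1, ?_⟩, ?_⟩
          · simp only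
            rw [Finset.card_erase_of_mem ha]
            omega
          · rw [Finset.some_mem_insertNone]
            exact hV.1 ha
        · simp only [Option.elim]
          exact Finset.insert_erase ha
    calc (U.powerset.filter (fun V => V.card ≤ k + 1)).card ≤ _ := Finset.card_le_card hsub
      _ ≤ ((U.powerset.filter (fun V => V.card ≤ k)) ×ˢ (Finset.insertNone U)).card :=
          Finset.card_image_le
      _ = (U.powerset.filter (fun V => V.card ≤ k)).card * (U.card + 1) := by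
          rw [Finset.card_product, Finset.card_insertNone]
      _ ≤ (U.card + 1) ^ k * (U.card + 1) := Nat.mul_le_mul_right _ ih
      _ = (U.card + 1) ^ (k + 1) := by ring

/-- Counting with a fixed known part and at most `k` heavy unknown primes. -/
theorem fibre_rootK (δ A η : ℝ) (k : ℕ) (hδ : 0 < δ) (hδ1 : δ ≤ 1) (hA : 0 ≤ A) (hη : 0 < η) :
    ∃ c : ℝ, 0 < c ∧ ∃ K : ℝ, ∀ᶠ n : ℕ in atTop,
      ∀ (S : Finset ℕ) (l : Fin 3) (T : Finset (ℕ × ℕ)),
      (∀ t ∈ T, IsT t ∧ rd t ≤ n ∧ K * Real.log n ≤ ht t ∧ ht t ≤ (n : ℝ) ^ A ∧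
        S ⊆ (N t).primeFactors ∧ δ ≤ ∑ p ∈ S.filter (fun p => lab t p = l), u t p ∧
        ∃ H ⊆ (N t).primeFactors \ S, H.card ≤ k ∧
          ∑ p ∈ ((N t).primeFactors \ (S ∪ H)).filter (fun p => lab t p ≠ l), u t p ≤ c) →
      (T.card : ℝ) ≤ (n : ℝ) ^ η := by
  classical
  set ε1 : ℝ := min 1 (η / (4 * (k + 1))) with hε1
  have hε10 : 0 < ε1 := by
    rw [hε1]
    exact lt_min one_pos (by positivity)
  have hε11 : ε1 ≤ 1 := min_le_left _ _
  have hkε : (k : ℝ) * ε1 ≤ η / 4 := by
    have h1 : ε1 ≤ η / (4 * (k + 1)) := min_le_right _ _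
    calc (k : ℝ) * ε1 ≤ (k + 1) * (η / (4 * (k + 1))) :=
          mul_le_mul (by linarith) h1 hε10.le (by positivity)
      _ = η / 4 := by field_simp
  obtain ⟨c, hc0, K, hK1, hev⟩ := fibre_big δ A (η / 2) ε1 k hδ hδ1 hA (by positivity) hε10 hε11
  refine ⟨c, hc0, K, ?_⟩
  filter_upwards [hev, ev_log_pow_le (3 ^ k) 0 (η / 4) (by positivity), eventually_ge_atTop 1] with
    n hn hlog hn1 S l T hT
  have hn0 : (0 : ℝ) < n := by exact_mod_cast hn1
  have hn1' : (1 : ℝ) ≤ n := by exact_mod_cast hn1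
  choose! H hHs hHk hHc using fun t (h : t ∈ T) => (hT t h).2.2.2.2.2.2
  set x := Real.log (n : ℝ) with hx
  set Hs : ℕ × ℕ → Finset ℕ := fun t =>
    (H t).filter (fun p => lab t p ≠ l ∧ Real.log p < ε1 * x) with hHsdef
  set Hb : ℕ × ℕ → Finset ℕ := fun t =>
    (H t).filter (fun p => lab t p ≠ l ∧ ε1 * x ≤ Real.log p) with hHbdef
  set U : Finset ℕ := Finset.range (⌊(n : ℝ) ^ ε1⌋₊ + 1) with hU
  have h1 : T.card ≤ ⌊(n : ℝ) ^ (η / 2)⌋₊ * (T.image Hs).card := by
    apply Finset.card_le_mul_card_image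
    intro S1 _
    apply Nat.le_floor
    apply hn (S ∪ S1) l (T.filter (fun t => Hs t = S1)) Hb
    intro t ht'
    rw [Finset.mem_filter] at ht'
    obtain ⟨htT, hS1⟩ := ht'
    obtain ⟨a1, a2, a3, a4, a5, a6, _⟩ := hT t htT
    have b1 := hHs t htT
    have b2 := hHk t htT
    have b3 := hHc t htT
    have hu := fun p => u_nonneg a1 p
    have hHPF : H t ⊆ (N t).primeFactors := b1.trans Finset.sdiff_subset
    have hS1H : S1 ⊆ H t := by
      rw [← hS1]
      exact Finset.filter_subset _ _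
    refine ⟨a1, a2, a3, a4, Finset.union_subset a5 (hS1H.trans hHPF), ?_, ?_, ?_, ?_, ?_⟩
    · refine a6.trans ?_
      apply Finset.sum_le_sum_of_subset_of_nonneg
      · exact Finset.filter_subset_filter _ Finset.subset_union_left
      · intro p _ _
        exact hu p
    · intro p hp
      rw [hHbdef, Finset.mem_filter] at hp
      have h2 := Finset.mem_sdiff.1 (b1 hp.1)
      rw [Finset.mem_sdiff, Finset.mem_union]
      refine ⟨h2.1, ?_⟩
      rintro (h3 | h3)
      · exact h2.2 h3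
      · rw [← hS1, hHsdef, Finset.mem_filter] at h3
        exact absurd hp.2.2 (not_le.2 h3.2.2)
    · exact (Finset.card_le_card (Finset.filter_subset _ _)).trans b2
    · intro p hp
      rw [hHbdef, Finset.mem_filter] at hp
      exact hp.2
    · refine le_trans ?_ b3
      apply Finset.sum_le_sum_of_subset_of_nonneg
      · intro p hp
        rw [Finset.mem_filter, Finset.mem_sdiff, Finset.mem_union, Finset.mem_union] at hp
        obtain ⟨⟨h3, h4⟩, h5⟩ := hp
        rw [Finset.mem_filter, Finset.mem_sdiff, Finset.mem_union]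
        refine ⟨⟨h3, ?_⟩, h5⟩
        rintro (h6 | h6)
        · exact h4 (Or.inl (Or.inl h6))
        · rcases lt_or_ge (Real.log (p : ℝ)) (ε1 * x) with h7 | h7
          · apply h4
            left
            right
            rw [← hS1, hHsdef, Finset.mem_filter]
            exact ⟨h6, h5, h7⟩
          · apply h4
            right
            rw [hHbdef, Finset.mem_filter]
            exact ⟨h6, h5, h7⟩
      · intro p _ _
        exact hu p
  have h2 : (T.image Hs).card ≤ (U.card + 1) ^ k := by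
    refine le_trans (Finset.card_le_card ?_) (card_small_subsets U k)
    intro V hV
    rw [Finset.mem_image] at hV
    obtain ⟨t, htT, rfl⟩ := hV
    rw [Finset.mem_filter, Finset.mem_powerset]
    refine ⟨?_, (Finset.card_le_card (Finset.filter_subset _ _)).trans (hHk t htT)⟩
    intro p hp
    rw [hHsdef, Finset.mem_filter] at hp
    rw [hU, Finset.mem_range, Nat.lt_succ_iff]
    apply Nat.le_floor
    have hpp := Nat.prime_of_mem_primeFactors ((Finset.mem_sdiff.1 (hHs t htT hp.1)).1)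
    have hp0 : (0 : ℝ) < p := by exact_mod_cast hpp.pos
    rw [← Real.log_le_log_iff hp0 (by positivity), Real.log_rpow hn0]
    exact hp.2.2.le
  have h3 : ((U.card : ℝ) + 1) ^ k ≤ 3 ^ k * (n : ℝ) ^ (η / 4) := by
    have h4 : (U.card : ℝ) + 1 ≤ 3 * (n : ℝ) ^ ε1 := by
      rw [hU, Finset.card_range]
      push_cast
      have h5 := Nat.floor_le (show 0 ≤ (n : ℝ) ^ ε1 by positivity)
      have h6 : (1 : ℝ) ≤ (n : ℝ) ^ ε1 := Real.one_le_rpow hn1' hε10.le
      linarith
    calc ((U.card : ℝ) + 1) ^ k ≤ (3 * (n : ℝ) ^ ε1) ^ k := pow_le_pow_left₀ (by positivity) h4 k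
      _ = 3 ^ k * (n : ℝ) ^ ((k : ℝ) * ε1) := by
          rw [mul_pow, ← Real.rpow_natCast ((n : ℝ) ^ ε1) k, ← Real.rpow_mul hn0.le, mul_comm ε1]
      _ ≤ 3 ^ k * (n : ℝ) ^ (η / 4) := by
          apply mul_le_mul_of_nonneg_left _ (by positivity)
          exact Real.rpow_le_rpow_of_exponent_le hn1' hkε
  rw [Real.rpow_zero, mul_one] at hlog
  have h4 : (⌊(n : ℝ) ^ (η / 2)⌋₊ : ℝ) ≤ (n : ℝ) ^ (η / 2) := Nat.floor_le (by positivity)
  have h5 : ((T.image Hs).card : ℝ) ≤ ((U.card : ℝ) + 1) ^ k := by exact_mod_cast h2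
  calc (T.card : ℝ) ≤ (⌊(n : ℝ) ^ (η / 2)⌋₊ : ℝ) * (T.image Hs).card := by exact_mod_cast h1
    _ ≤ (n : ℝ) ^ (η / 2) * (3 ^ k * (n : ℝ) ^ (η / 4)) :=
        mul_le_mul h4 (h5.trans h3) (Nat.cast_nonneg _) (by positivity)
    _ ≤ (n : ℝ) ^ (η / 2) * ((n : ℝ) ^ (η / 4) * (n : ℝ) ^ (η / 4)) := by
        apply mul_le_mul_of_nonneg_left _ (by positivity)
        exact mul_le_mul_of_nonneg_right hlog (by positivity)
    _ = (n : ℝ) ^ η := by
        rw [← Real.rpow_add hn0, ← Real.rpow_add hn0]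
        congr 1
        ring

/-- The number of sets of primes with bounded product. -/
theorem card_prime_sets_le (F : Finset (Finset ℕ)) (X : ℝ) (hX : 0 ≤ X)
    (hF : ∀ S ∈ F, (∀ p ∈ S, p.Prime) ∧ ((∏ p ∈ S, p : ℕ) : ℝ) ≤ X) : (F.card : ℝ) ≤ X := by
  have h1 : F.card ≤ (Finset.Icc 1 ⌊X⌋₊).card := by
    apply Finset.card_le_card_of_injOn (fun S => ∏ p ∈ S, p)
    · intro S hS
      rw [Finset.mem_coe, Finset.mem_Icc]
      refine ⟨Finset.prod_pos (fun p hp => ((hF S hS).1 p hp).pos), ?_⟩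
      exact Nat.le_floor (hF S hS).2
    · intro S hS S' hS' h
      have h1 := Nat.primeFactors_prod (hF S hS).1
      have h2 := Nat.primeFactors_prod (hF S' hS').1
      simp only at h
      rw [← h1, ← h2, h]
  rw [Nat.card_Icc, Nat.add_sub_cancel] at h1
  calc (F.card : ℝ) ≤ (⌊X⌋₊ : ℝ) := by exact_mod_cast h1
    _ ≤ X := Nat.floor_le hX

/-- Counting with a known part of product at most `n ^ σ` and at most `k` heavy unknown primes. -/
theorem count_rootK (δ A σ η : ℝ) (k : ℕ) (hδ : 0 < δ) (hδ1 : δ ≤ 1) (hA : 0 ≤ A) (hη : 0 < η) :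
    ∃ c : ℝ, 0 < c ∧ ∃ K : ℝ, ∀ᶠ n : ℕ in atTop, ∀ T : Finset (ℕ × ℕ),
      (∀ t ∈ T, IsT t ∧ rd t ≤ n ∧ K * Real.log n ≤ ht t ∧ ht t ≤ (n : ℝ) ^ A ∧
        ∃ S ⊆ (N t).primeFactors, ∃ l : Fin 3, ((∏ p ∈ S, p : ℕ) : ℝ) ≤ (n : ℝ) ^ σ ∧
          δ ≤ ∑ p ∈ S.filter (fun p => lab t p = l), u t p ∧
          ∃ H ⊆ (N t).primeFactors \ S, H.card ≤ k ∧
            ∑ p ∈ ((N t).primeFactors \ (S ∪ H)).filter (fun p => lab t p ≠ l), u t p ≤ c) →
      (T.card : ℝ) ≤ (n : ℝ) ^ (σ + η) := by
  classical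
  obtain ⟨c, hc0, K, hev⟩ := fibre_rootK δ A (η / 2) k hδ hδ1 hA (by positivity)
  refine ⟨c, hc0, K, ?_⟩
  filter_upwards [hev, ev_log_pow_le 3 0 (η / 2) (by positivity), eventually_ge_atTop 1] with
    n hn hlog hn1 T hT
  have hn0 : (0 : ℝ) < n := by exact_mod_cast hn1
  choose! S hSs l hSn hmass H hHs hHk hHc using fun t (h : t ∈ T) => (hT t h).2.2.2.2
  have h1 : T.card ≤ ⌊(n : ℝ) ^ (η / 2)⌋₊ * (T.image (fun t => (S t, l t))).card := by
    apply Finset.card_le_mul_card_image
    rintro ⟨S1, l1⟩ _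
    apply Nat.le_floor
    apply hn S1 l1
    intro t ht'
    rw [Finset.mem_filter, Prod.mk.injEq] at ht'
    obtain ⟨htT, hS1, hl1⟩ := ht'
    obtain ⟨a1, a2, a3, a4, _⟩ := hT t htT
    rw [← hS1, ← hl1]
    exact ⟨a1, a2, a3, a4, hSs t htT, hmass t htT, H t, hHs t htT, hHk t htT, hHc t htT⟩
  have h2 : ((T.image (fun t => (S t, l t))).card : ℝ) ≤ (n : ℝ) ^ σ * 3 := by
    have h3 : T.image (fun t => (S t, l t)) ⊆ (T.image S) ×ˢ (Finset.univ : Finset (Fin 3)) := by
      intro z hz
      rw [Finset.mem_image] at hz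
      obtain ⟨t, htT, rfl⟩ := hz
      rw [Finset.mem_product]
      exact ⟨Finset.mem_image_of_mem _ htT, Finset.mem_univ _⟩
    have h4 := Finset.card_le_card h3
    rw [Finset.card_product, Finset.card_univ, Fintype.card_fin] at h4
    have h5 : ((T.image S).card : ℝ) ≤ (n : ℝ) ^ σ := by
      apply card_prime_sets_le _ _ (by positivity)
      intro S1 hS1
      rw [Finset.mem_image] at hS1
      obtain ⟨t, htT, rfl⟩ := hS1
      exact ⟨fun p hp => Nat.prime_of_mem_primeFactors (hSs t htT hp), hSn t htT⟩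
    calc ((T.image (fun t => (S t, l t))).card : ℝ) ≤ (T.image S).card * 3 := by exact_mod_cast h4
      _ ≤ (n : ℝ) ^ σ * 3 := by linarith
  rw [Real.rpow_zero, mul_one] at hlog
  have h4 : (⌊(n : ℝ) ^ (η / 2)⌋₊ : ℝ) ≤ (n : ℝ) ^ (η / 2) := Nat.floor_le (by positivity)
  calc (T.card : ℝ) ≤ (⌊(n : ℝ) ^ (η / 2)⌋₊ : ℝ) * (T.image (fun t => (S t, l t))).card := by
        exact_mod_cast h1
    _ ≤ (n : ℝ) ^ (η / 2) * ((n : ℝ) ^ σ * 3) :=
        mul_le_mul h4 h2 (Nat.cast_nonneg _) (by positivity)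
    _ ≤ (n : ℝ) ^ (η / 2) * ((n : ℝ) ^ σ * (n : ℝ) ^ (η / 2)) := by
        apply mul_le_mul_of_nonneg_left _ (by positivity)
        exact mul_le_mul_of_nonneg_left hlog (by positivity)
    _ = (n : ℝ) ^ (σ + η) := by
        rw [← Real.rpow_add hn0, ← Real.rpow_add hn0]
        congr 1
        ring

end Pool.Agent.Lib.Pabc10
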