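import Mathlib
import Pool.Agent.Lib.Pabc10.FibreK
import Pool.Agent.Lib.Pabc10.BoxFibre
import Pool.Agent.Lib.Pabc10.BoxLower
import Pool.Agent.Lib.Pabc10.Cube

/-!
# abc triples in a box of radicals: main theorems
-/

open Finset Filter Topology

namespace Pool.Agent.Lib.Pabc10

open Pool.Agent.Lib.Pabc1 Pool.Agent.Lib.Pabc2

/-- The fixed `S` form of the count, for every `A`. -/
theorem fibreStmt (A : ℝ) (hA : 0 ≤ A) : FibreStmt A := fun d η k h1 h2 h3 =>
  fibre_rootK d A η k h1 h2 hA h3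

/-- The triples of bounded radical are finitely many. -/
theorem finite_rd (n0 : ℕ) : {t : ℕ × ℕ | IsT t ∧ rd t ≤ n0}.Finite := by
  obtain ⟨n, hn, h0⟩ := (cube_ht_le.and (eventually_ge_atTop (max n0 1))).exists
  have hn0 : n0 ≤ n := (le_max_left _ _).trans h0
  set X : ℕ := ⌊Real.exp ((n : ℝ) ^ (3 : ℝ))⌋₊ with hX
  apply Set.Finite.subset (Finset.finite_toSet ((Finset.range (X + 1)) ×ˢ (Finset.range (X + 1))))
  rintro ⟨a, b⟩ ⟨hI, hr⟩
  have h1 := hn (a, b) hI (hr.trans hn0)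
  have ha : 0 < a := hI.1
  have hb : 0 < b := hI.pos2
  have h2 : (a : ℝ) + b ≤ Real.exp ((n : ℝ) ^ (3 : ℝ)) := by
    have h3 : (0 : ℝ) < (a : ℝ) + b := by positivity
    unfold ht at h1
    exact (Real.log_le_iff_le_exp h3).1 h1
  have ha' : (0 : ℝ) ≤ a := Nat.cast_nonneg a
  have hb' : (0 : ℝ) ≤ b := Nat.cast_nonneg b
  rw [Finset.mem_coe, Finset.mem_product, Finset.mem_range, Finset.mem_range, Nat.lt_succ_iff,
    Nat.lt_succ_iff]
  exact ⟨Nat.le_floor (by simp only; linarith), Nat.le_floor (by simp only; linarith)⟩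

/-- The fibres, for all `n`. -/
theorem fibre_all (ε : ℝ) (hε : 0 < ε) : ∃ K : ℝ, 1 ≤ K ∧
    ∀ (n : ℕ) (P : Finset ℕ) (m : Fin 3) (T : Finset (ℕ × ℕ)), 1 ≤ n → (∀ p ∈ P, p.Prime) →
      ((∏ p ∈ P, p : ℕ) : ℝ) ≤ n →
      (∀ t ∈ T, IsT t ∧ rd t ≤ n ∧ (N t).primeFactors.filter (fun p => lab t p ≠ m) ⊆ P) →
      (T.card : ℝ) ≤ K * (n : ℝ) ^ ε := by
  classical
  obtain ⟨K1, hK1, hpow⟩ := card_pow_le 2 (ε / 2) (by norm_num) (by positivity)
  obtain ⟨n0, hn0⟩ := ((box_fibre 3 (by norm_num) (fibreStmt 3 (by norm_num)) (ε / 2)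
    (by positivity)).and cube_ht_le).exists_forall_of_atTop
  set K2 : ℝ := ((finite_rd n0).toFinset.card : ℝ) with hK2
  refine ⟨K1 + K2, by have : 0 ≤ K2 := Nat.cast_nonneg _; linarith, ?_⟩
  intro n P m T hn1 hP hPn hT
  have hn1' : (1 : ℝ) ≤ n := by exact_mod_cast hn1
  have hn00 : (0 : ℝ) < n := by linarith
  have hK20 : 0 ≤ K2 := Nat.cast_nonneg _
  have hge1 : (1 : ℝ) ≤ (n : ℝ) ^ ε := Real.one_le_rpow hn1' hε.le
  rcases lt_or_ge n n0 with hlt | hge
  · -- small `n`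
    have h1 : T ⊆ (finite_rd n0).toFinset := by
      intro t ht'
      rw [Set.Finite.mem_toFinset]
      exact ⟨(hT t ht').1, (hT t ht').2.1.trans hlt.le⟩
    have h2 : (T.card : ℝ) ≤ K2 := by
      rw [hK2]
      exact_mod_cast Finset.card_le_card h1
    nlinarith
  · obtain ⟨hbox, hcube⟩ := hn0 n hge
    set f : ℕ × ℕ → Finset ℕ := fun t => (N t).primeFactors.filter (fun p => lab t p ≠ m) with hf
    have h1 : T.card ≤ ⌊(n : ℝ) ^ (ε / 2)⌋₊ * (T.image f).card := by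
      apply Finset.card_le_mul_card_image
      intro P1 _
      apply Nat.le_floor
      apply hbox P1 m
      intro t ht'
      rw [Finset.mem_filter] at ht'
      obtain ⟨a1, a2, _⟩ := hT t ht'.1
      exact ⟨a1, a2, hcube t a1 a2, ht'.2⟩
    have h2 : (T.image f).card ≤ 2 ^ P.card := by
      rw [← Finset.card_powerset]
      apply Finset.card_le_card
      intro V hV
      rw [Finset.mem_image] at hV
      obtain ⟨t, ht', rfl⟩ := hV
      rw [Finset.mem_powerset]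
      exact (hT t ht').2.2
    have h3 : (2 : ℝ) ^ P.card ≤ K1 * (n : ℝ) ^ (ε / 2) := by
      refine (hpow P (fun p hp => (hP p hp).two_le)).trans ?_
      apply mul_le_mul_of_nonneg_left _ (by linarith)
      apply Real.rpow_le_rpow (Finset.prod_nonneg fun p _ => Nat.cast_nonneg p) _ (by positivity)
      rw [← Nat.cast_prod]
      exact hPn
    have h4 : (⌊(n : ℝ) ^ (ε / 2)⌋₊ : ℝ) ≤ (n : ℝ) ^ (ε / 2) := Nat.floor_le (by positivity)
    have h5 : ((T.image f).card : ℝ) ≤ 2 ^ P.card := by exact_mod_cast h2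
    calc (T.card : ℝ) ≤ (⌊(n : ℝ) ^ (ε / 2)⌋₊ : ℝ) * (T.image f).card := by exact_mod_cast h1
      _ ≤ (n : ℝ) ^ (ε / 2) * (K1 * (n : ℝ) ^ (ε / 2)) :=
          mul_le_mul h4 (h5.trans h3) (Nat.cast_nonneg _) (by positivity)
      _ = K1 * (n : ℝ) ^ ε := by
          have : (n : ℝ) ^ ε = (n : ℝ) ^ (ε / 2) * (n : ℝ) ^ (ε / 2) := by
            rw [← Real.rpow_add hn00]
            congr 1
            ring
          rw [this]
          ring
      _ ≤ (K1 + K2) * (n : ℝ) ^ ε := mul_le_mul_of_nonneg_right (by linarith) (by positivity)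

/-- The radical. -/
def rr (n : ℕ) : ℕ := ∏ p ∈ n.primeFactors, p

theorem rr_pos (n : ℕ) : 0 < rr n :=
  Finset.prod_pos (fun p hp => (Nat.prime_of_mem_primeFactors hp).pos)

theorem rr_dvd_iff {a P : ℕ} (hP : P ≠ 0) : rr a ∣ P ↔ a.primeFactors ⊆ P.primeFactors := by
  constructor
  · intro h p hp
    rw [Nat.mem_primeFactors]
    exact ⟨Nat.prime_of_mem_primeFactors hp, (Finset.dvd_prod_of_mem (fun p => p) hp).trans h, hP⟩
  · intro h
    unfold rr
    exact (Finset.prod_dvd_prod_of_subset _ _ _ h).trans (Nat.prod_primeFactors_dvd P)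

/-- Two of the three numbers have radical dividing `P`, the third has radical at most `R`. -/
def TwoIn (P R a b c : ℕ) : Prop :=
  (rr a ∣ P ∧ rr b ∣ P ∧ rr c ≤ R) ∨ (rr a ∣ P ∧ rr c ∣ P ∧ rr b ≤ R) ∨
    (rr b ∣ P ∧ rr c ∣ P ∧ rr a ≤ R)

theorem TwoIn.swap {P R a b c : ℕ} (h : TwoIn P R a b c) : TwoIn P R b a c := by
  rcases h with ⟨h1, h2, h3⟩ | ⟨h1, h2, h3⟩ | ⟨h1, h2, h3⟩
  · exact Or.inl ⟨h2, h1, h3⟩
  · exact Or.inr (Or.inr ⟨h1, h2, h3⟩)
  · exact Or.inr (Or.inl ⟨h1, h2, h3⟩)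

theorem TwoIn.exists_label {P R : ℕ} (hP : P ≠ 0) {t : ℕ × ℕ} (hI : IsT t)
    (h : TwoIn P R t.1 t.2 (t.1 + t.2)) :
    ∃ m : Fin 3, (N t).primeFactors.filter (fun p => lab t p ≠ m) ⊆ P.primeFactors ∧
      rr (comp t m) ≤ R := by
  have hc : ∀ l : Fin 3, (comp t l).primeFactors =
      (N t).primeFactors.filter (fun p => lab t p = l) := comp_primeFactors hI
  have key : ∀ m : Fin 3, (∀ l : Fin 3, l ≠ m → rr (comp t l) ∣ P) →
      (N t).primeFactors.filter (fun p => lab t p ≠ m) ⊆ P.primeFactors := by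
    intro m hm p hp
    rw [Finset.mem_filter] at hp
    have h1 := (rr_dvd_iff hP).1 (hm (lab t p) hp.2)
    apply h1
    rw [hc, Finset.mem_filter]
    exact ⟨hp.1, rfl⟩
  have e0 : comp t 0 = t.1 := rfl
  have e1 : comp t 1 = t.2 := rfl
  have e2 : comp t 2 = t.1 + t.2 := rfl
  rcases h with ⟨h1, h2, h3⟩ | ⟨h1, h2, h3⟩ | ⟨h1, h2, h3⟩
  · refine ⟨2, key 2 ?_, h3⟩
    intro l hl
    fin_cases l
    · exact h1
    · exact h2
    · exact absurd rfl hl
  · refine ⟨1, key 1 ?_, h3⟩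
    intro l hl
    fin_cases l
    · exact h1
    · exact absurd rfl hl
    · exact h2
  · refine ⟨0, key 0 ?_, h3⟩
    intro l hl
    fin_cases l
    · exact absurd rfl hl
    · exact h1
    · exact h2

theorem rd_le_of_label {P R : ℕ} (hP : P ≠ 0) {t : ℕ × ℕ} (hI : IsT t) {m : Fin 3}
    (h : (N t).primeFactors.filter (fun p => lab t p ≠ m) ⊆ P.primeFactors)
    (h' : rr (comp t m) ≤ R) : rd t ≤ P * R := by
  unfold rd
  rw [← Finset.prod_filter_mul_prod_filter_not (N t).primeFactors (fun p => lab t p = m), mul_comm]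
  apply Nat.mul_le_mul
  · refine le_trans ?_ (Nat.le_of_dvd (Nat.pos_of_ne_zero hP) (Nat.prod_primeFactors_dvd P))
    apply Finset.prod_le_prod_of_subset_of_one_le' h
    intro p hp _
    exact (Nat.prime_of_mem_primeFactors hp).one_lt.le
  · rw [← comp_primeFactors hI m]
    exact h'

/-- The number of coprime pairs two of whose members have their primes in `P`. -/
theorem pairs_fibre (ε : ℝ) (hε : 0 < ε) : ∃ K : ℝ, 1 ≤ K ∧
    ∀ (P R : ℕ) (T : Finset (ℕ × ℕ)), 1 ≤ P → 1 ≤ R →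
      (∀ t ∈ T, 0 < t.1 ∧ 0 < t.2 ∧ Nat.Coprime t.1 t.2 ∧ TwoIn P R t.1 t.2 (t.1 + t.2)) →
      (T.card : ℝ) ≤ K * ((P : ℝ) * R) ^ ε := by
  classical
  obtain ⟨K, hK1, hK⟩ := fibre_all ε hε
  refine ⟨6 * K, by linarith, ?_⟩
  intro P R T hP hR hT
  have hP0 : P ≠ 0 := by omega
  have hn1 : 1 ≤ P * R := Nat.mul_pos hP hR
  -- one order
  have key : ∀ T1 : Finset (ℕ × ℕ), (∀ t ∈ T1, IsT t ∧ TwoIn P R t.1 t.2 (t.1 + t.2)) →
      (T1.card : ℝ) ≤ 3 * (K * ((P : ℝ) * R) ^ ε) := by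
    intro T1 hT1
    set F : Fin 3 → Finset (ℕ × ℕ) := fun m => T1.filter (fun t =>
      (N t).primeFactors.filter (fun p => lab t p ≠ m) ⊆ P.primeFactors ∧ rr (comp t m) ≤ R) with hF
    have hsub : T1 ⊆ Finset.univ.biUnion F := by
      intro t ht'
      obtain ⟨m, h1, h2⟩ := TwoIn.exists_label hP0 (hT1 t ht').1 (hT1 t ht').2
      rw [Finset.mem_biUnion]
      exact ⟨m, Finset.mem_univ _, Finset.mem_filter.2 ⟨ht', h1, h2⟩⟩
    have hcard : ∀ m : Fin 3, ((F m).card : ℝ) ≤ K * ((P : ℝ) * R) ^ ε := by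
      intro m
      have h1 := hK (P * R) P.primeFactors m (F m) hn1
        (fun p hp => Nat.prime_of_mem_primeFactors hp) (by
          have h2 := Nat.le_of_dvd hP (Nat.prod_primeFactors_dvd P)
          have h3 : P ≤ P * R := Nat.le_mul_of_pos_right P hR
          exact_mod_cast h2.trans h3) (by
          intro t ht'
          rw [hF, Finset.mem_filter] at ht'
          exact ⟨(hT1 t ht'.1).1, rd_le_of_label hP0 (hT1 t ht'.1).1 ht'.2.1 ht'.2.2, ht'.2.1⟩)
      push_cast at h1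
      exact h1
    calc (T1.card : ℝ) ≤ ((Finset.univ.biUnion F).card : ℝ) := by
          exact_mod_cast Finset.card_le_card hsub
      _ ≤ ∑ m : Fin 3, ((F m).card : ℝ) := by exact_mod_cast Finset.card_biUnion_le
      _ ≤ ∑ _m : Fin 3, K * ((P : ℝ) * R) ^ ε := Finset.sum_le_sum (fun m _ => hcard m)
      _ = 3 * (K * ((P : ℝ) * R) ^ ε) := by
          rw [Finset.sum_const, Finset.card_univ, Fintype.card_fin, nsmul_eq_mul]
          norm_num
  have h1 := key (T.filter (fun t => t.1 ≤ t.2)) (by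
    intro t ht'
    rw [Finset.mem_filter] at ht'
    obtain ⟨a1, a2, a3, a4⟩ := hT t ht'.1
    exact ⟨⟨a1, ht'.2, a3⟩, a4⟩)
  have h2 := key ((T.filter (fun t => ¬ t.1 ≤ t.2)).image Prod.swap) (by
    intro t ht'
    rw [Finset.mem_image] at ht'
    obtain ⟨s, hs, rfl⟩ := ht'
    rw [Finset.mem_filter] at hs
    obtain ⟨a1, a2, a3, a4⟩ := hT s hs.1
    refine ⟨⟨a2, by simp only [Prod.fst_swap, Prod.snd_swap]; omega, a3.symm⟩, ?_⟩
    simp only [Prod.fst_swap, Prod.snd_swap]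
    rw [add_comm s.2 s.1]
    exact a4.swap)
  rw [Finset.card_image_of_injective _ Prod.swap_injective] at h2
  have h3 : T.card = (T.filter (fun t => t.1 ≤ t.2)).card + (T.filter (fun t => ¬ t.1 ≤ t.2)).card :=
    (Finset.card_filter_add_card_filter_not _).symm
  rw [h3]
  push_cast
  linarith

/-- The product of the radicals of coprime numbers. -/
theorem rr_mul {a b : ℕ} (h : Nat.Coprime a b) : rr (a * b) = rr a * rr b := by
  unfold rr
  rw [h.primeFactors_mul, Finset.prod_union h.disjoint_primeFactors]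

/-- Counting by the radical of two members. -/
theorem box_aux {K ε : ℝ} (hε : 0 < ε) (hK1 : 1 ≤ K) (X Y Z : ℕ) (hX : 1 ≤ X) (hY : 1 ≤ Y)
    (hZ : 1 ≤ Z) (T : Finset (ℕ × ℕ)) (g : ℕ × ℕ → ℕ) (hg : ∀ t ∈ T, 1 ≤ g t ∧ g t ≤ X * Y)
    (hf : ∀ P ∈ Finset.Icc 1 (X * Y), ((T.filter (fun t => g t = P)).card : ℝ) ≤
      K * ((P : ℝ) * Z) ^ ε) :
    (T.card : ℝ) ≤ K * ((X : ℝ) * Y) * ((X : ℝ) * Y * Z) ^ ε := by
  classical
  have hX' : (1 : ℝ) ≤ X := by exact_mod_cast hX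
  have hY' : (1 : ℝ) ≤ Y := by exact_mod_cast hY
  have hZ' : (1 : ℝ) ≤ Z := by exact_mod_cast hZ
  rw [Finset.card_eq_sum_card_fiberwise (f := g) (t := Finset.Icc 1 (X * Y))
    (fun t ht => Finset.mem_coe.2 (Finset.mem_Icc.2 (hg t ht)))]
  push_cast
  calc ∑ P ∈ Finset.Icc 1 (X * Y), ((T.filter (fun t => g t = P)).card : ℝ) ≤
      ∑ _P ∈ Finset.Icc 1 (X * Y), K * ((X : ℝ) * Y * Z) ^ ε := by
        apply Finset.sum_le_sum
        intro P hP
        refine (hf P hP).trans ?_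
        apply mul_le_mul_of_nonneg_left _ (by linarith)
        apply Real.rpow_le_rpow (by positivity) _ hε.le
        apply mul_le_mul_of_nonneg_right _ (by linarith)
        have := (Finset.mem_Icc.1 hP).2
        exact_mod_cast this
    _ = K * ((X : ℝ) * Y) * ((X : ℝ) * Y * Z) ^ ε := by
        rw [Finset.sum_const, Nat.card_Icc, nsmul_eq_mul, Nat.add_sub_cancel]
        push_cast
        ring

/-- The upper bound for the number of pairs in a box. -/
theorem box_upper (ε : ℝ) (hε : 0 < ε) : ∃ K : ℝ, 1 ≤ K ∧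
    ∀ (A B C : ℕ) (T : Finset (ℕ × ℕ)), 1 ≤ A → 1 ≤ B → 1 ≤ C →
      (∀ t ∈ T, 0 < t.1 ∧ 0 < t.2 ∧ Nat.Coprime t.1 t.2 ∧
        rr t.1 ≤ A ∧ rr t.2 ≤ B ∧ rr (t.1 + t.2) ≤ C) →
      (T.card : ℝ) ≤ K * ((A : ℝ) * B * C / max A (max B C)) * ((A : ℝ) * B * C) ^ ε := by
  classical
  obtain ⟨K, hK1, hK⟩ := pairs_fibre ε hε
  refine ⟨K, hK1, ?_⟩
  intro A B C T hA hB hC hT
  have hA' : (1 : ℝ) ≤ A := by exact_mod_cast hA
  have hB' : (1 : ℝ) ≤ B := by exact_mod_cast hB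
  have hC' : (1 : ℝ) ≤ C := by exact_mod_cast hC
  have hcop : ∀ t ∈ T, Nat.Coprime t.1 (t.1 + t.2) ∧ Nat.Coprime t.2 (t.1 + t.2) := by
    intro t ht'
    have h := (hT t ht').2.2.1
    exact ⟨(Nat.coprime_self_add_right).mpr h, (Nat.coprime_add_self_right).mpr h.symm⟩
  -- the three cases
  have hCmax : (T.card : ℝ) ≤ K * ((A : ℝ) * B) * ((A : ℝ) * B * C) ^ ε := by
    apply box_aux hε hK1 A B C hA hB hC T (fun t => rr t.1 * rr t.2)
    · intro t ht'
      obtain ⟨_, _, _, h4, h5, _⟩ := hT t ht'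
      exact ⟨Nat.mul_pos (rr_pos _) (rr_pos _), Nat.mul_le_mul h4 h5⟩
    · intro P hP
      apply hK P C _ (Finset.mem_Icc.1 hP).1 hC
      intro t ht'
      rw [Finset.mem_filter] at ht'
      obtain ⟨h1, h2, h3, _, _, h6⟩ := hT t ht'.1
      refine ⟨h1, h2, h3, Or.inl ⟨?_, ?_, h6⟩⟩
      · rw [← ht'.2]
        exact dvd_mul_right _ _
      · rw [← ht'.2]
        exact dvd_mul_left _ _
  have hBmax : (T.card : ℝ) ≤ K * ((A : ℝ) * C) * ((A : ℝ) * C * B) ^ ε := by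
    apply box_aux hε hK1 A C B hA hC hB T (fun t => rr t.1 * rr (t.1 + t.2))
    · intro t ht'
      obtain ⟨_, _, _, h4, _, h6⟩ := hT t ht'
      exact ⟨Nat.mul_pos (rr_pos _) (rr_pos _), Nat.mul_le_mul h4 h6⟩
    · intro P hP
      apply hK P B _ (Finset.mem_Icc.1 hP).1 hB
      intro t ht'
      rw [Finset.mem_filter] at ht'
      obtain ⟨h1, h2, h3, _, h5, _⟩ := hT t ht'.1
      refine ⟨h1, h2, h3, Or.inr (Or.inl ⟨?_, ?_, h5⟩)⟩
      · rw [← ht'.2]
        exact dvd_mul_right _ _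
      · rw [← ht'.2]
        exact dvd_mul_left _ _
  have hAmax : (T.card : ℝ) ≤ K * ((B : ℝ) * C) * ((B : ℝ) * C * A) ^ ε := by
    apply box_aux hε hK1 B C A hB hC hA T (fun t => rr t.2 * rr (t.1 + t.2))
    · intro t ht'
      obtain ⟨_, _, _, _, h5, h6⟩ := hT t ht'
      exact ⟨Nat.mul_pos (rr_pos _) (rr_pos _), Nat.mul_le_mul h5 h6⟩
    · intro P hP
      apply hK P A _ (Finset.mem_Icc.1 hP).1 hA
      intro t ht'
      rw [Finset.mem_filter] at ht'
      obtain ⟨h1, h2, h3, h4, _, _⟩ := hT t ht'.1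
      refine ⟨h1, h2, h3, Or.inr (Or.inr ⟨?_, ?_, h4⟩)⟩
      · rw [← ht'.2]
        exact dvd_mul_right _ _
      · rw [← ht'.2]
        exact dvd_mul_left _ _
  have e1 : (A : ℝ) * C * B = A * B * C := by ring
  have e2 : (B : ℝ) * C * A = A * B * C := by ring
  rw [e1] at hBmax
  rw [e2] at hAmax
  push_cast
  rcases max_cases (A : ℝ) (max (B : ℝ) C) with ⟨h, _⟩ | ⟨h, _⟩
  · rw [h]
    have e : (A : ℝ) * B * C / A = B * C := by field_simp
    rw [e]
    exact hAmax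
  · rcases max_cases (B : ℝ) (C : ℝ) with ⟨h', _⟩ | ⟨h', _⟩
    · rw [h, h']
      have e : (A : ℝ) * B * C / B = A * C := by field_simp
      rw [e]
      exact hBmax
    · rw [h, h']
      have e : (A : ℝ) * B * C / C = A * B := by field_simp
      rw [e]
      exact hCmax

end Pool.Agent.Lib.Pabc10
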