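import Mathlib
import Pool.Agent.Lib.Pabc1.SClass
import Pool.Agent.Lib.Pabc9.Root2

open Finset

namespace Pool.Agent.Lib.Pabc10

open Pool.Agent.Lib.Pabc2 Pool.Agent.Lib.Pabc1 Pool.Agent.Lib.Pabc9

/-- Exponents with the same band are nearly equal. -/
theorem band_le {W : ℝ} (hW : 2 ≤ W) {g1 g2 : ℕ} (h1 : 1 ≤ g1) (h2 : 1 ≤ g2)
    (h : ⌊Real.log g1 * W⌋₊ = ⌊Real.log g2 * W⌋₊) : (g1 : ℝ) ≤ (1 + 2 / W) * g2 := by
  have hW0 : 0 < W := by linarith
  have g1' : (1 : ℝ) ≤ g1 := by exact_mod_cast h1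
  have g2' : (1 : ℝ) ≤ g2 := by exact_mod_cast h2
  have h3 := abs_sub_le_of_floor_eq (Real.log_nonneg g1') (Real.log_nonneg g2') hW0 h
  have h4 := (abs_le.mp h3).2
  have h5 : 1 / W ≤ 1 / 2 := one_div_le_one_div_of_le (by norm_num) hW
  have h6 : (g1 : ℝ) = Real.exp (Real.log g1) := (Real.exp_log (by linarith)).symm
  have h7 : (g2 : ℝ) = Real.exp (Real.log g2) := (Real.exp_log (by linarith)).symm
  have h8 : Real.exp (1 / W) ≤ 1 + 2 / W := by
    have h9 := Real.one_sub_le_exp_neg (1 / W)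
    have h10 : 0 < 1 / W := by positivity
    have h11 : Real.exp (1 / W) * Real.exp (-(1 / W)) = 1 := by
      rw [← Real.exp_add]
      simp
    have h12 := Real.exp_pos (1 / W)
    have h13 : Real.exp (1 / W) * (1 - 1 / W) ≤ 1 :=
      (mul_le_mul_of_nonneg_left h9 h12.le).trans h11.le
    have h14 : 1 ≤ (1 + 2 / W) * (1 - 1 / W) := by
      have : (1 + 2 / W) * (1 - 1 / W) = 1 + 1 / W * (1 - 2 * (1 / W)) := by ring
      rw [this]
      have : 0 ≤ 1 / W * (1 - 2 * (1 / W)) := mul_nonneg h10.le (by linarith)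
      linarith
    have h15 : Real.exp (1 / W) * (1 - 1 / W) ≤ (1 + 2 / W) * (1 - 1 / W) := h13.trans h14
    exact le_of_mul_le_mul_right h15 (by linarith)
  calc (g1 : ℝ) = Real.exp (Real.log g1) := h6
    _ ≤ Real.exp (1 / W + Real.log g2) := Real.exp_le_exp.mpr (by linarith)
    _ = Real.exp (1 / W) * g2 := by rw [Real.exp_add, ← h7]
    _ ≤ _ := mul_le_mul_of_nonneg_right h8 (by linarith)

/-- Within a class, the special prime determines the triple. -/
theorem class_injE {δ : ℝ} (hδ : 0 < δ) (hδ1 : δ ≤ 1) {K0 : ℕ} (hK0 : 16 / δ ≤ K0)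
    {W : ℝ} (hW : 128 / δ ≤ W)
    (S : Finset ℕ) {t1 t2 : ℕ × ℕ} {R : ℕ} {l3 : Fin 3}
    (h1 : RootD δ S R l3 t1) (h2 : RootD δ S R l3 t2)
    (hg1 : 1 ≤ ex t1 R) (hg2 : 1 ≤ ex t2 R)
    (hg : ⌊Real.log (ex t1 R) * W⌋₊ = ⌊Real.log (ex t2 R) * W⌋₊) (hl : lab t1 R = lab t2 R)
    (hc : codeD K0 S t1 = codeD K0 S t2) (hh : codeH K0 (δ / 8) t1 = codeH K0 (δ / 8) t2)
    (hb1 : 2 / δ ≤ ht t1) (hb2 : 2 / δ ≤ ht t2) (hle : ht t1 ≤ ht t2) : t1 = t2 := by
  by_contra hne
  have H1 := ht_pos h1.h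
  have H2 := ht_pos h2.h
  have hR : R.Prime := Nat.prime_of_mem_primeFactors h1.memR
  have hK00 : (0 : ℝ) < K0 := lt_of_lt_of_le (by positivity) hK0
  have hK01 : 1 / (K0 : ℝ) ≤ δ / 16 := by
    rw [div_le_iff₀ hδ] at hK0
    rw [div_le_iff₀ hK00]
    linarith
  have hb1' : 1 ≤ ht t1 := by
    refine le_trans ?_ hb1
    rw [le_div_iff₀ hδ]
    linarith
  have hb2' : 1 ≤ ht t2 := by
    refine le_trans ?_ hb2
    rw [le_div_iff₀ hδ]
    linarith
  have ha : ⌊al t1 * K0⌋₊ = ⌊al t2 * K0⌋₊ := (Prod.ext_iff.mp hh).1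
  have hb : ⌊Real.log (ht t1) / Real.log (1 + δ / 8 / 4)⌋₊ =
    ⌊Real.log (ht t2) / Real.log (1 + δ / 8 / 4)⌋₊ := (Prod.ext_iff.mp hh).2
  have hratio := ratio_of_floor_eq (by linarith) hb1' hb2' hb
  have hW128 : (128 : ℝ) ≤ W := by
    refine le_trans ?_ hW
    rw [le_div_iff₀ hδ]
    linarith
  have hW0 : 0 < W := by linarith
  have hWδ : 2 / W ≤ δ / 64 := by
    rw [div_le_iff₀ hδ] at hW
    rw [div_le_div_iff₀ hW0 (by norm_num)]
    linarith
  have hg12 := band_le (by linarith) hg1 hg2 hg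
  have hg21 := band_le (by linarith) hg2 hg1 hg.symm
  have hpt : ∀ p (_ : p ∈ S), lab t1 p = lab t2 p ∧
      ⌊u t1 p * (K0 * S.card)⌋₊ = ⌊u t2 p * (K0 * S.card)⌋₊ := by
    intro p hp
    have := congrFun (congrFun hc p) hp
    exact Prod.ext_iff.mp this
  have hsumS : ∑ p ∈ S, |u t1 p - u t2 p| ≤ δ / 16 := by
    rcases S.eq_empty_or_nonempty with rfl | hne
    · simp only [Finset.sum_empty]
      positivity
    · have hcard : (0 : ℝ) < S.card := by exact_mod_cast hne.card_pos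
      calc ∑ p ∈ S, |u t1 p - u t2 p| ≤ ∑ _p ∈ S, 1 / (K0 * (S.card : ℝ)) := by
            apply Finset.sum_le_sum
            intro p hp
            exact abs_sub_le_of_floor_eq (u_nonneg h1.h p) (u_nonneg h2.h p) (by positivity)
              (hpt p hp).2
        _ = 1 / K0 := by
            rw [Finset.sum_const, nsmul_eq_mul]
            field_simp
        _ ≤ δ / 16 := hK01
  have huR1 : ∀ t, RootD δ S R l3 t → u t R ≤ 1 := by
    intro t h
    have hmem : R ∈ (N t).primeFactors.filter (fun p => lab t p = lab t R) :=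
      Finset.mem_filter.mpr ⟨h.memR, rfl⟩
    exact (Finset.single_le_sum (f := u t) (fun p _ => u_nonneg h.h p) hmem).trans
      (sum_lab_le_one h.h (lab t R))
  have hu1 := huR1 t1 h1
  have hu2 := huR1 t2 h2
  have hlogR : 0 ≤ Real.log (R : ℝ) := Real.log_natCast_nonneg R
  have huR : |u t1 R - u t2 R| ≤ δ / 16 := by
    have e1 : u t1 R * ht t1 = (ex t1 R : ℝ) * Real.log R := by unfold u; field_simp
    have e2 : u t2 R * ht t2 = (ex t2 R : ℝ) * Real.log R := by unfold u; field_simp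
    have h0 := u_nonneg h2.h R
    have h0' := u_nonneg h1.h R
    have f12 : u t1 R * ht t1 ≤ (1 + δ / 64) * (u t2 R * ht t2) := by
      rw [e1, e2]
      have : (ex t1 R : ℝ) ≤ (1 + δ / 64) * ex t2 R := by
        refine hg12.trans (mul_le_mul_of_nonneg_right (by linarith) (Nat.cast_nonneg _))
      calc (ex t1 R : ℝ) * Real.log R ≤ ((1 + δ / 64) * ex t2 R) * Real.log R :=
            mul_le_mul_of_nonneg_right this hlogR
        _ = _ := by ring
    have f21 : u t2 R * ht t2 ≤ (1 + δ / 64) * (u t1 R * ht t1) := by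
      rw [e1, e2]
      have : (ex t2 R : ℝ) ≤ (1 + δ / 64) * ex t1 R := by
        refine hg21.trans (mul_le_mul_of_nonneg_right (by linarith) (Nat.cast_nonneg _))
      calc (ex t2 R : ℝ) * Real.log R ≤ ((1 + δ / 64) * ex t1 R) * Real.log R :=
            mul_le_mul_of_nonneg_right this hlogR
        _ = _ := by ring
    rw [abs_le]
    constructor
    · -- u2 ≤ u1 + δ/16
      have a1 : u t2 R * ht t1 ≤ u t2 R * ht t2 := mul_le_mul_of_nonneg_left hle h0
      have a2 : u t2 R * ht t1 ≤ ((1 + δ / 64) * u t1 R) * ht t1 := by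
        calc u t2 R * ht t1 ≤ (1 + δ / 64) * (u t1 R * ht t1) := a1.trans f21
          _ = _ := by ring
      have a3 := le_of_mul_le_mul_right a2 H1
      nlinarith
    · have a1 : u t2 R * ht t2 ≤ u t2 R * ((1 + δ / 8 / 4) * ht t1) :=
        mul_le_mul_of_nonneg_left hratio h0
      have a2 : u t1 R * ht t1 ≤ ((1 + δ / 64) * (1 + δ / 8 / 4) * u t2 R) * ht t1 := by
        calc u t1 R * ht t1 ≤ (1 + δ / 64) * (u t2 R * ht t2) := f12
          _ ≤ (1 + δ / 64) * (u t2 R * ((1 + δ / 8 / 4) * ht t1)) :=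
              mul_le_mul_of_nonneg_left a1 (by positivity)
          _ = _ := by ring
      have a3 := le_of_mul_le_mul_right a2 H1
      have a4 : (1 + δ / 64) * (1 + δ / 8 / 4) ≤ 1 + δ / 16 := by nlinarith
      have a5 : (1 + δ / 64) * (1 + δ / 8 / 4) * u t2 R ≤ (1 + δ / 16) * u t2 R :=
        mul_le_mul_of_nonneg_right a4 h0
      nlinarith
  have hclose : CloseD δ (insert R S) t1 t2 := by
    refine ⟨h1.h, h2.h, ?_, ?_, ?_, ?_, h1.out, hb1⟩
    · intro p hp
      exact Nat.prime_of_mem_primeFactors (Finset.insert_subset h1.memR h1.sub hp)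
    · intro p hp
      rcases Finset.mem_insert.mp hp with rfl | hp
      · exact hl
      · exact (hpt p hp).1
    · rw [Finset.sum_insert h1.notR]
      linarith
    · have := abs_sub_le_of_floor_eq (al_nonneg h1.h) (al_nonneg h2.h) hK00 ha
      linarith
  refine hclose.gap hδ hδ1 hne hle (hratio.trans ?_)
  apply mul_le_mul_of_nonneg_right _ H1.le
  linarith

/-- The number of triples in a class, the exponents of the special primes being nearly equal. -/
theorem class_boundE {δ : ℝ} (hδ : 0 < δ) (hδ1 : δ ≤ 1) {K0 : ℕ} (hK0 : 16 / δ ≤ K0)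
    {W : ℝ} (hW : 128 / δ ≤ W)
    (S : Finset ℕ) (T : Finset (ℕ × ℕ)) (R : ℕ × ℕ → ℕ) (l1 l3 : Fin 3)
    (hD : ∀ t ∈ T, RootD δ S (R t) l3 t)
    (hg : ∀ t ∈ T, ∀ t' ∈ T,
      ⌊Real.log (ex t (R t)) * W⌋₊ = ⌊Real.log (ex t' (R t')) * W⌋₊)
    (hl : ∀ t ∈ T, lab t (R t) = l1)
    (hc : ∀ t ∈ T, ∀ t' ∈ T, codeD K0 S t = codeD K0 S t')
    (hh : ∀ t ∈ T, ∀ t' ∈ T, codeH K0 (δ / 8) t = codeH K0 (δ / 8) t')
    (ℓ : ℕ) (hℓ : 1 ≤ ℓ) (hgℓ : ∀ t ∈ T, 6400 * (ℓ : ℝ) ≤ δ * ex t (R t))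
    (hRbig : ∀ t ∈ T, 240 / δ ≤ Real.log (R t))
    (hRW : ∀ t ∈ T, 7 * (ℓ : ℝ) * Real.log (R t) ≤ W)
    (hbig : ∀ t ∈ T, 200 / δ ^ 2 ≤ ht t) (G : ℝ) (hG0 : 0 ≤ G)
    (hG : ∀ t ∈ T, (ex t (R t) : ℝ) ≤ G) :
    (T.card.choose ℓ : ℝ) ≤ G ^ S.card *
      (Real.exp (2600 / δ * ℓ) * ((∏ p ∈ S, p : ℕ) : ℝ)) ^ 2 := by
  classical
  have hℓ1 : (1 : ℝ) ≤ ℓ := by exact_mod_cast hℓ
  rcases T.eq_empty_or_nonempty with rfl | hne
  · rw [Finset.card_empty, Nat.choose_eq_zero_of_lt (by omega)]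
    simp only [Nat.cast_zero]
    positivity
  obtain ⟨t0, ht0, hmin⟩ := Finset.exists_min_image T ht hne
  have hI : ∀ t ∈ T, IsT t := fun t h => (hD t h).h
  have H0 := ht_pos (hI t0 ht0)
  have hSp : ∀ p ∈ S, p.Prime := fun p hp => Nat.prime_of_mem_primeFactors ((hD t0 ht0).sub hp)
  have hR : ∀ t ∈ T, (R t).Prime := fun t h => Nat.prime_of_mem_primeFactors (hD t h).memR
  have hRS : ∀ t ∈ T, R t ∉ S := fun t h => (hD t h).notR
  have hex1 : ∀ t ∈ T, 1 ≤ ex t (R t) := by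
    intro t ht'
    have h1 := hgℓ t ht'
    by_contra hcon
    push Not at hcon
    have h2 : ex t (R t) = 0 := by omega
    rw [h2] at h1
    simp at h1
    linarith
  have h13 : l1 ≠ l3 := by
    rw [← hl t0 ht0]
    exact (hD t0 ht0).labR
  obtain ⟨l2, h12, h23⟩ := exists_third l1 l3 h13
  have hK00 : (0 : ℝ) < K0 := lt_of_lt_of_le (by positivity) hK0
  have hK01 : 1 / (K0 : ℝ) ≤ δ / 16 := by
    rw [div_le_iff₀ hδ] at hK0
    rw [div_le_iff₀ hK00]
    linarith
  have hW128 : (128 : ℝ) ≤ W := by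
    refine le_trans ?_ hW
    rw [le_div_iff₀ hδ]
    linarith
  have hW0 : 0 < W := by linarith
  have hbigδ : ∀ t ∈ T, 2 / δ ≤ ht t := by
    intro t ht'
    refine le_trans ?_ (hbig t ht')
    rw [div_le_div_iff₀ hδ (by positivity)]
    have : δ ^ 2 ≤ δ := by nlinarith
    linarith
  have hbig1 : ∀ t ∈ T, 1 ≤ ht t := by
    intro t ht'
    refine le_trans ?_ (hbigδ t ht')
    rw [le_div_iff₀ hδ]
    linarith
  have hpt : ∀ t ∈ T, ∀ p ∈ S, lab t p = lab t0 p ∧
      ⌊u t p * (K0 * S.card)⌋₊ = ⌊u t0 p * (K0 * S.card)⌋₊ := by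
    intro t ht' p hp
    have := congrFun (congrFun (hc t ht' t0 ht0) p) hp
    exact Prod.ext_iff.mp this
  have hratio : ∀ t ∈ T, ht t ≤ 17 / 16 * ht t0 := by
    intro t ht'
    have hb : ⌊Real.log (ht t0) / Real.log (1 + δ / 8 / 4)⌋₊ =
      ⌊Real.log (ht t) / Real.log (1 + δ / 8 / 4)⌋₊ := (Prod.ext_iff.mp (hh t0 ht0 t ht')).2
    have := ratio_of_floor_eq (by linarith) (hbig1 t0 ht0) (hbig1 t ht') hb
    nlinarith
  -- injectivity
  have hinj : Set.InjOn R (T : Set (ℕ × ℕ)) := by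
    intro t1 h1 t2 h2 he
    have h1' : t1 ∈ T := h1
    have h2' : t2 ∈ T := h2
    have d1 := hD t1 h1'
    have d2 := hD t2 h2'
    have g1 := hex1 t1 h1'
    have g2 := hex1 t2 h2'
    have g12 := hg t1 h1' t2 h2'
    have l1' := hl t1 h1'
    have l2' := hl t2 h2'
    rw [← he] at d2 g2 l2' g12
    rcases le_total (ht t1) (ht t2) with hle | hle
    · exact class_injE hδ hδ1 hK0 hW S d1 d2 g1 g2 g12 (l1'.trans l2'.symm)
        (hc t1 h1' t2 h2') (hh t1 h1' t2 h2') (hbigδ t1 h1') (hbigδ t2 h2') hle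
    · exact (class_injE hδ hδ1 hK0 hW S d2 d1 g2 g1 g12.symm (l2'.trans l1'.symm)
        (hc t2 h2' t1 h1') (hh t2 h2' t1 h1') (hbigδ t2 h2') (hbigδ t1 h1') hle).symm
  set X := S.filter (fun p => lab t0 p = l1) with hX
  set Z := S.filter (fun p => lab t0 p = l2) with hZ
  set SM := S.filter (fun p => lab t0 p = l3) with hSM
  set m : ℕ → ℕ := fun p => T.inf' hne (fun t => ex t p) with hm
  set M : ℕ := ∏ p ∈ SM, p ^ m p with hM
  set r : ℕ := T.inf' hne (fun t => ex t (R t)) with hr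
  have hre : ∀ t ∈ T, r ≤ ex t (R t) := fun t ht' => Finset.inf'_le _ ht'
  obtain ⟨t1, ht1, hrt1⟩ := Finset.exists_mem_eq_inf' hne (fun t => ex t (R t))
  have hrt1' : r = ex t1 (R t1) := hrt1
  -- the components
  have hf1 : ∀ t ∈ T, (N t).primeFactors.filter (fun p => lab t p = l1) = insert (R t) X := by
    intro t ht'
    ext p
    rw [Finset.mem_filter, Finset.mem_insert, hX, Finset.mem_filter]
    constructor
    · rintro ⟨hp, hlp⟩
      by_cases hpS : p ∈ S
      · right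
        exact ⟨hpS, by rw [← (hpt t ht' p hpS).1]; exact hlp⟩
      · by_cases hpR : p = R t
        · left; exact hpR
        · exfalso
          have := (hD t ht').rest p hp hpS hpR
          exact h13 (hlp.symm.trans this)
    · rintro (rfl | ⟨hpS, hlp⟩)
      · exact ⟨(hD t ht').memR, hl t ht'⟩
      · exact ⟨(hD t ht').sub hpS, by rw [(hpt t ht' p hpS).1]; exact hlp⟩
  have hf2 : ∀ t ∈ T, (N t).primeFactors.filter (fun p => lab t p = l2) = Z := by
    intro t ht'
    ext p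
    rw [Finset.mem_filter, hZ, Finset.mem_filter]
    constructor
    · rintro ⟨hp, hlp⟩
      by_cases hpS : p ∈ S
      · exact ⟨hpS, by rw [← (hpt t ht' p hpS).1]; exact hlp⟩
      · exfalso
        by_cases hpR : p = R t
        · rw [hpR, hl t ht'] at hlp
          exact h12 hlp
        · have := (hD t ht').rest p hp hpS hpR
          exact h23 (hlp.symm.trans this)
    · rintro ⟨hpS, hlp⟩
      exact ⟨(hD t ht').sub hpS, by rw [(hpt t ht' p hpS).1]; exact hlp⟩
  have hcomp1 : ∀ t ∈ T, comp t l1 = R t ^ ex t (R t) * ∏ p ∈ X, p ^ ex t p := by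
    intro t ht'
    rw [comp_eq (hI t ht') l1, hf1 t ht',
      Finset.prod_insert (fun hmem => hRS t ht' (Finset.mem_filter.mp hmem).1)]
  have hcomp2 : ∀ t ∈ T, comp t l2 = ∏ p ∈ Z, p ^ ex t p := by
    intro t ht'
    rw [comp_eq (hI t ht') l2, hf2 t ht']
  have hMdvd : ∀ t ∈ T, M ∣ comp t l3 := by
    intro t ht'
    rw [comp_eq (hI t ht') l3, hM]
    refine dvd_trans (Finset.prod_dvd_prod_of_dvd _ (fun p => p ^ ex t p) ?_)
      (Finset.prod_dvd_prod_of_subset _ _ _ ?_)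
    · intro p _
      exact pow_dvd_pow p (Finset.inf'_le _ ht')
    · intro p hp
      rw [hSM, Finset.mem_filter] at hp
      rw [Finset.mem_filter]
      exact ⟨(hD t ht').sub hp.1, by rw [(hpt t ht' p hp.1).1]; exact hp.2⟩
  have hdiv : ∀ t ∈ T, (M : ℤ) ∣ ((R t ^ ex t (R t) * ∏ p ∈ X, p ^ ex t p : ℕ) : ℤ) -
      sg3 l3 * ((∏ p ∈ Z, p ^ ex t p : ℕ) : ℤ) := by
    intro t ht'
    rw [← hcomp1 t ht', ← hcomp2 t ht']
    exact (Int.natCast_dvd_natCast.mpr (hMdvd t ht')).trans (comp_rel3 h12 h13 h23)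
  have hXS : X ⊆ S := Finset.filter_subset _ _
  have hZS : Z ⊆ S := Finset.filter_subset _ _
  have hcop : ∀ q : ℕ, q.Prime → (q ∉ SM) → q.Coprime M := by
    intro q hq hqM
    rw [hM]
    apply Nat.Coprime.prod_right
    intro p hp
    apply Nat.Coprime.pow_right
    rw [Nat.coprime_primes hq (hSp p (Finset.mem_filter.mp hp).1)]
    intro h
    exact hqM (h ▸ hp)
  have hr0R : (0 : ℝ) < r := by
    rw [hrt1']
    have := hex1 t1 ht1
    have h2 : (1 : ℝ) ≤ ex t1 (R t1) := by exact_mod_cast this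
    linarith
  have hG1 : (r : ℝ) ≤ G := by rw [hrt1']; exact hG t1 ht1
  have hr1 : (1 : ℝ) ≤ r := by
    rw [hrt1']
    exact_mod_cast hex1 t1 ht1
  -- the size of M
  have hlogM : 15 / 16 * (δ * ht t0) ≤ Real.log M := by
    have e1 : Real.log M = ∑ p ∈ SM, (m p : ℝ) * Real.log p := by
      rw [hM]
      push_cast
      rw [Real.log_prod (fun p hp => by
        have : (0 : ℝ) < p := by exact_mod_cast (hSp p (Finset.mem_filter.mp hp).1).pos
        positivity)]
      exact Finset.sum_congr rfl (fun p _ => Real.log_pow _ _)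
    have e3 : δ ≤ ∑ p ∈ SM, u t0 p := (hD t0 ht0).mass
    rw [e1]
    have hterm : ∀ p ∈ SM, (u t0 p - 1 / (K0 * S.card)) * ht t0 ≤
        (m p : ℝ) * Real.log p := by
      intro p hp
      have hpS := (Finset.mem_filter.mp hp).1
      have hScard : (0 : ℝ) < S.card := by exact_mod_cast Finset.card_pos.mpr ⟨p, hpS⟩
      obtain ⟨t, ht', hmt⟩ := Finset.exists_mem_eq_inf' hne (fun t => ex t p)
      have hmt' : m p = ex t p := hmt
      rw [hmt']
      have e4 : (ex t p : ℝ) * Real.log p = u t p * ht t := by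
        have := ht_pos (hI t ht')
        unfold u
        field_simp
      rw [e4]
      have h3 := abs_sub_le_of_floor_eq (u_nonneg (hI t ht') p) (u_nonneg (hI t0 ht0) p)
        (by positivity) (hpt t ht' p hpS).2
      have h4 := (abs_le.mp h3).1
      have h5 := u_nonneg (hI t ht') p
      have h6 := hmin t ht'
      calc (u t0 p - 1 / (K0 * S.card)) * ht t0 ≤ u t p * ht t0 :=
            mul_le_mul_of_nonneg_right (by linarith) H0.le
        _ ≤ u t p * ht t := mul_le_mul_of_nonneg_left h6 h5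
    refine le_trans ?_ (Finset.sum_le_sum hterm)
    rw [← Finset.sum_mul, Finset.sum_sub_distrib, Finset.sum_const, nsmul_eq_mul]
    have h7 : (SM.card : ℝ) * (1 / (K0 * S.card)) ≤ δ / 16 := by
      rcases S.eq_empty_or_nonempty with hSe | hSne
      · rw [hSM, hSe]
        simp
        positivity
      · have hScard : (0 : ℝ) < S.card := by exact_mod_cast hSne.card_pos
        have hle : (SM.card : ℝ) ≤ S.card := by
          exact_mod_cast Finset.card_le_card (Finset.filter_subset _ _)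
        calc (SM.card : ℝ) * (1 / (K0 * S.card)) ≤ S.card * (1 / (K0 * S.card)) :=
              mul_le_mul_of_nonneg_right hle (by positivity)
          _ = 1 / K0 := by field_simp
          _ ≤ δ / 16 := hK01
    have h8 : 15 / 16 * δ ≤ ∑ p ∈ SM, u t0 p - (SM.card : ℝ) * (1 / (K0 * S.card)) := by
      linarith
    calc 15 / 16 * (δ * ht t0) = 15 / 16 * δ * ht t0 := by ring
      _ ≤ _ := mul_le_mul_of_nonneg_right h8 H0.le
  have hδ2 : 1 ≤ 2 / δ := by
    rw [le_div_iff₀ hδ]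
    linarith
  -- the bound
  have key := root_bound2 T X Z (fun p hp => hSp p (hXS hp)) (fun p hp => hSp p (hZS hp)) R hR hinj
    (fun t ht' h => hRS t ht' (hXS h)) (fun t ht' h => hRS t ht' (hZS h)) M
    (fun p hp => hcop p (hSp p (hXS hp)) (fun h => by
      rw [hX, Finset.mem_filter] at hp
      rw [hSM, Finset.mem_filter] at h
      exact h13 (hp.2.symm.trans h.2)))
    (fun p hp => hcop p (hSp p (hZS hp)) (fun h => by
      rw [hZ, Finset.mem_filter] at hp
      rw [hSM, Finset.mem_filter] at h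
      exact h23 (hp.2.symm.trans h.2)))
    (fun t ht' => hcop (R t) (hR t ht') (fun h => hRS t ht' (Finset.mem_filter.mp h).1))
    ex (fun t => ex t (R t)) r hre (sg3 l3) (sg3_sq l3) hdiv ℓ hℓ (17 / 16 * ht t0) (2 / δ) hδ2
    (by
      intro t ht'
      have h1 := log_comp_le (hI t ht') l1
      rw [hcomp1 t ht'] at h1
      push_cast at h1
      have hRp : (0 : ℝ) < R t := by exact_mod_cast (hR t ht').pos
      have hpp : ∀ p ∈ X, (p : ℝ) ^ ex t p ≠ 0 := fun p hp => by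
        have : (0 : ℝ) < p := by exact_mod_cast (hSp p (hXS hp)).pos
        positivity
      rw [Real.log_mul (by positivity) (Finset.prod_ne_zero_iff.mpr hpp), Real.log_pow,
        Real.log_prod hpp] at h1
      have h2 : ∑ p ∈ X, Real.log ((p : ℝ) ^ ex t p) = ∑ p ∈ X, (ex t p : ℝ) * Real.log p :=
        Finset.sum_congr rfl (fun p _ => Real.log_pow _ _)
      rw [h2] at h1
      exact h1.trans (hratio t ht')) (by
      intro t ht'
      have h1 := log_comp_le (hI t ht') l2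
      rw [hcomp2 t ht'] at h1
      push_cast at h1
      have hpp : ∀ p ∈ Z, (p : ℝ) ^ ex t p ≠ 0 := fun p hp => by
        have : (0 : ℝ) < p := by exact_mod_cast (hSp p (hZS hp)).pos
        positivity
      rw [Real.log_prod hpp] at h1
      have h2 : ∑ p ∈ Z, Real.log ((p : ℝ) ^ ex t p) = ∑ p ∈ Z, (ex t p : ℝ) * Real.log p :=
        Finset.sum_congr rfl (fun p _ => Real.log_pow _ _)
      rw [h2] at h1
      exact h1.trans (hratio t ht')) (by
      have h1 : 2 / δ * (15 / 16 * (δ * ht t0)) ≤ 2 / δ * Real.log M :=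
        mul_le_mul_of_nonneg_left hlogM (by positivity)
      have h2 : 2 / δ * (15 / 16 * (δ * ht t0)) = 30 / 16 * ht t0 := by
        field_simp
        ring
      linarith) (by
      have h1 := hgℓ t1 ht1
      rw [← hrt1'] at h1
      have h2 : 3200 * (2 / δ) * ℓ = 6400 * ℓ / δ := by ring
      rw [h2, div_le_iff₀ hδ]
      linarith) (by
      intro t ht'
      have := hRbig t ht'
      have h2 : 120 * (2 / δ) = 240 / δ := by ring
      rw [h2]
      exact this) (by
      intro t ht'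
      have h1 := band_le (by linarith) (hex1 t ht') (hex1 t1 ht1) (hg t ht' t1 ht1)
      rw [← hrt1'] at h1
      have h2 : ((ex t (R t) : ℕ) : ℝ) - r ≤ 2 / W * r := by linarith
      have h3 := hRW t ht'
      have hlogR : 0 ≤ Real.log (R t : ℝ) := Real.log_natCast_nonneg _
      have h4 : ((ex t (R t) : ℝ) - r) * Real.log (R t) ≤ 2 / W * r * Real.log (R t) :=
        mul_le_mul_of_nonneg_right h2 hlogR
      calc (ℓ : ℝ) * (((ex t (R t) : ℝ) - r) * Real.log (R t)) ≤
            ℓ * (2 / W * r * Real.log (R t)) := mul_le_mul_of_nonneg_left h4 (by positivity)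
        _ = 2 / 7 * r * (7 * ℓ * Real.log (R t)) / W := by ring
        _ ≤ 2 / 7 * r * W / W := by gcongr
        _ = 2 / 7 * r := by field_simp
        _ ≤ 3 / 10 * r := by linarith)
  have hMrad : ∏ p ∈ M.primeFactors, p ≤ ∏ p ∈ S, p := by
    apply Finset.prod_le_prod_of_subset_of_one_le'
    · intro p hp
      have hpp := Nat.prime_of_mem_primeFactors hp
      have hd := Nat.dvd_of_mem_primeFactors hp
      rw [hM] at hd
      obtain ⟨q, hq, hqd⟩ := (hpp.prime.dvd_finsetProd_iff _).mp hd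
      have hqS := (Finset.mem_filter.mp hq).1
      have := (Nat.prime_dvd_prime_iff_eq hpp (hSp q hqS)).mp (hpp.dvd_of_dvd_pow hqd)
      rw [this]
      exact hqS
    · intro p hp _
      exact (hSp p hp).one_lt.le
  have hXZ : (X ∪ Z).card ≤ S.card := Finset.card_le_card (Finset.union_subset hXS hZS)
  have e1 : 1300 * (2 / δ) * (ℓ : ℝ) = 2600 / δ * ℓ := by ring
  rw [e1] at key
  refine key.trans ?_
  have h1 : (r : ℝ) ^ (X ∪ Z).card ≤ G ^ S.card :=
    (pow_le_pow_right₀ hr1 hXZ).trans (pow_le_pow_left₀ hr0R.le hG1 _)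
  have h2 : ((∏ p ∈ M.primeFactors, p : ℕ) : ℝ) ≤ ((∏ p ∈ S, p : ℕ) : ℝ) := by
    exact_mod_cast hMrad
  gcongr

end Pool.Agent.Lib.Pabc10
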