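import Mathlib
import Pool.Agent.Lib.Pabc10.ClassR
import Pool.Agent.Lib.Pabc1.SCount

open Finset Filter Topology

namespace Pool.Agent.Lib.Pabc10

open Pool.Agent.Lib.Pabc2 Pool.Agent.Lib.Pabc1

/-- The class bound, analytic form. -/
theorem class_card_leE {δ : ℝ} (hδ : 0 < δ) (hδ1 : δ ≤ 1) {K0 : ℕ} (hK0 : 16 / δ ≤ K0)
    (n : ℕ) (A : ℝ) (hA : 0 ≤ A) (hn : 4 ≤ Real.log n)
    {W : ℝ} (hW : 128 / δ ≤ W)
    (S : Finset ℕ) (T : Finset (ℕ × ℕ)) (R : ℕ × ℕ → ℕ) (l1 l3 : Fin 3)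
    (hD : ∀ t ∈ T, RootD δ S (R t) l3 t)
    (hrd : ∀ t ∈ T, rd t ≤ n) (hht : ∀ t ∈ T, ht t ≤ (n : ℝ) ^ A)
    (hg : ∀ t ∈ T, ∀ t' ∈ T,
      ⌊Real.log (ex t (R t)) * W⌋₊ = ⌊Real.log (ex t' (R t')) * W⌋₊)
    (hl : ∀ t ∈ T, lab t (R t) = l1)
    (hc : ∀ t ∈ T, ∀ t' ∈ T, codeD K0 S t = codeD K0 S t')
    (hh : ∀ t ∈ T, ∀ t' ∈ T, codeH K0 (δ / 8) t = codeH K0 (δ / 8) t')
    (K : ℝ) (hK : 0 < K)
    (hgℓ : ∀ t ∈ T, 6400 * (⌈K * Real.log n⌉₊ : ℝ) ≤ δ * ex t (R t))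
    (hRbig : ∀ t ∈ T, 240 / δ ≤ Real.log (R t))
    (hRW : ∀ t ∈ T, 7 * (⌈K * Real.log n⌉₊ : ℝ) * Real.log (R t) ≤ W)
    (hbig : ∀ t ∈ T, 200 / δ ^ 2 ≤ ht t) :
    (T.card : ℝ) ≤ 2 * ⌈K * Real.log n⌉₊ * (Real.exp (5200 / δ) * (n : ℝ) ^ (2 * (A + 1) / K)) := by
  classical
  set x := Real.log (n : ℝ) with hx
  set ℓ := ⌈K * x⌉₊ with hℓ
  have hx0 : 0 < x := by linarith
  have hn0 : (0 : ℝ) < n := by
    rcases Nat.eq_zero_or_pos n with h | h
    · rw [h] at hx
      simp at hx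
      linarith
    · exact_mod_cast h
  have hℓ1 : 1 ≤ ℓ := by
    rw [hℓ, Nat.one_le_ceil_iff]
    positivity
  have hℓ0 : (0 : ℝ) < ℓ := by exact_mod_cast hℓ1
  have hℓge : K * x ≤ ℓ := Nat.le_ceil _
  rcases T.eq_empty_or_nonempty with hTe | hne
  · rw [hTe]
    simp only [Finset.card_empty, Nat.cast_zero]
    positivity
  obtain ⟨t0, ht0⟩ := hne
  have hI : ∀ t ∈ T, IsT t := fun t h => (hD t h).h
  have hRp : ∀ t ∈ T, (R t).Prime := fun t h => Nat.prime_of_mem_primeFactors (hD t h).memR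
  have hG0 : 0 ≤ 2 * (n : ℝ) ^ A := by positivity
  have key := class_boundE hδ hδ1 hK0 hW S T R l1 l3 hD hg hl hc hh ℓ hℓ1 hgℓ hRbig hRW hbig
    (2 * (n : ℝ) ^ A) hG0 (fun t h => ex_le_of_ht (hI t h) (hRp t h) (hht t h))
  have hSp : ∀ p ∈ S, p.Prime := fun p hp => Nat.prime_of_mem_primeFactors ((hD t0 ht0).sub hp)
  have hprodS : ∏ p ∈ S, p ≤ n := by
    refine le_trans ?_ (hrd t0 ht0)
    unfold rd
    apply Finset.prod_le_prod_of_subset_of_one_le' (hD t0 ht0).sub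
    intro p hp _
    exact (Nat.prime_of_mem_primeFactors hp).one_lt.le
  have hprodS0 : 0 < ∏ p ∈ S, p := Finset.prod_pos (fun p hp => (hSp p hp).pos)
  have hl2 : Real.log 2 ≤ 7 / 10 := log_two_bd
  have hl2' : 69 / 100 ≤ Real.log 2 := by linarith [Real.log_two_gt_d9]
  have hScard : (S.card : ℝ) ≤ 3 / 2 * x := by
    have h1 : 2 ^ S.card ≤ ∏ p ∈ S, p := Finset.pow_card_le_prod S _ 2 (fun p hp => (hSp p hp).two_le)
    have h2 : Real.log ((2 : ℝ) ^ S.card) ≤ x := by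
      apply Real.log_le_log (by positivity)
      exact_mod_cast h1.trans hprodS
    rw [Real.log_pow] at h2
    nlinarith
  have hlogG : Real.log (2 * (n : ℝ) ^ A) ≤ 7 / 10 + A * x := by
    rw [Real.log_mul (by norm_num) (by positivity), Real.log_rpow hn0]
    linarith
  have hlogG0 : 0 ≤ Real.log (2 * (n : ℝ) ^ A) := by
    apply Real.log_nonneg
    have hn1 : (1 : ℝ) ≤ n := by
      have : 0 < n := by exact_mod_cast hn0
      exact_mod_cast this
    have := Real.one_le_rpow hn1 hA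
    linarith
  have hexp : (T.card.choose ℓ : ℝ) ≤ Real.exp (ℓ * (2 * (A + 1) / K * x + 5200 / δ)) := by
    have hP : ((∏ p ∈ S, p : ℕ) : ℝ) ≤ n := by exact_mod_cast hprodS
    have h1 : (T.card.choose ℓ : ℝ) ≤ (2 * (n : ℝ) ^ A) ^ S.card *
        (Real.exp (2600 / δ * ℓ) * n) ^ 2 := by
      refine key.trans ?_
      gcongr
    refine h1.trans ?_
    rw [← Real.log_le_iff_le_exp (by positivity), Real.log_mul (by positivity) (by positivity),
      Real.log_pow, Real.log_pow, Real.log_mul (Real.exp_pos _).ne' hn0.ne', Real.log_exp, ← hx]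
    have h5 : (S.card : ℝ) * Real.log (2 * (n : ℝ) ^ A) ≤ 3 / 2 * x * (7 / 10 + A * x) := by
      apply mul_le_mul hScard hlogG hlogG0 (by positivity)
    have h6 : 2 * (A + 1) * x * x ≤ ℓ * (2 * (A + 1) / K * x) := by
      have : ℓ * (2 * (A + 1) / K * x) = (ℓ / K) * (2 * (A + 1) * x) := by field_simp
      rw [this]
      have h7 : x ≤ ℓ / K := by
        rw [le_div_iff₀ hK]
        linarith
      calc 2 * (A + 1) * x * x = x * (2 * (A + 1) * x) := by ring
        _ ≤ (ℓ / K) * (2 * (A + 1) * x) := mul_le_mul_of_nonneg_right h7 (by positivity)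
    have h8 : (4 : ℝ) * x ≤ x * x := by nlinarith
    have h9 : 0 ≤ A * x * x := by positivity
    have h10 : (ℓ : ℝ) * (2 * (A + 1) / K * x + 5200 / δ) =
        ℓ * (2 * (A + 1) / K * x) + 2 * (2600 / δ * ℓ) := by ring
    rw [h10]
    push_cast
    nlinarith
  have hΛ : 0 ≤ 2 * (A + 1) / K * x + 5200 / δ := by positivity
  have h9 := card_le_of_choose_le hℓ1 hΛ hexp
  have h10 : Real.exp (2 * (A + 1) / K * x + 5200 / δ) =
      Real.exp (5200 / δ) * (n : ℝ) ^ (2 * (A + 1) / K) := by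
    rw [Real.exp_add, Real.rpow_def_of_pos hn0, mul_comm, hx]
    congr 2
    ring
  rw [h10] at h9
  exact h9

/-- Triples with a given set `S`. -/
theorem fibre_card_leE {δ : ℝ} (hδ : 0 < δ) (hδ1 : δ ≤ 1) {K0 : ℕ} (hK0 : 16 / δ ≤ K0)
    (n : ℕ) (A : ℝ) (hA : 0 ≤ A) (hn : 4 ≤ Real.log n)
    {W : ℝ} (hW : 128 / δ ≤ W)
    (S : Finset ℕ) (T : Finset (ℕ × ℕ)) (R : ℕ × ℕ → ℕ) (L3 : ℕ × ℕ → Fin 3)
    (hD : ∀ t ∈ T, RootD δ S (R t) (L3 t) t)
    (hrd : ∀ t ∈ T, rd t ≤ n) (hht : ∀ t ∈ T, ht t ≤ (n : ℝ) ^ A)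
    (K : ℝ) (hK : 0 < K)
    (hg : ∀ t ∈ T, 6400 * (⌈K * Real.log n⌉₊ : ℝ) ≤ δ * ex t (R t))
    (hRbig : ∀ t ∈ T, 240 / δ ≤ Real.log (R t))
    (hRW : ∀ t ∈ T, 7 * (⌈K * Real.log n⌉₊ : ℝ) * Real.log (R t) ≤ W)
    (hbig : ∀ t ∈ T, 200 / δ ^ 2 ≤ ht t) :
    (T.card : ℝ) ≤ (2 * ⌈K * Real.log n⌉₊ *
        (Real.exp (5200 / δ) * (n : ℝ) ^ (2 * (A + 1) / K))) *
      (9 * (K0 + 1) * (A * Real.log n / Real.log (1 + δ / 32) + 1) *
        ((7 / 10 + A * Real.log n) * W + 1)) * BconD K0 ^ S.card := by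
  classical
  set x := Real.log (n : ℝ) with hx
  have hx0 : 0 < x := by linarith
  have hn0 : (0 : ℝ) < n := by
    rcases Nat.eq_zero_or_pos n with h | h
    · rw [h] at hx
      simp at hx
      linarith
    · exact_mod_cast h
  have hW0 : 0 < W := lt_of_lt_of_le (by positivity) hW
  have hI : ∀ t ∈ T, IsT t := fun t h => (hD t h).h
  have hRp : ∀ t ∈ T, (R t).Prime := fun t h => Nat.prime_of_mem_primeFactors (hD t h).memR
  have hK00 : (0 : ℝ) < K0 := lt_of_lt_of_le (by positivity) hK0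
  set B0 : ℝ := 2 * ⌈K * x⌉₊ * (Real.exp (5200 / δ) * (n : ℝ) ^ (2 * (A + 1) / K)) with hB0
  have hB00 : 0 ≤ B0 := by positivity
  have hl17 : 0 < Real.log (1 + δ / 32) := Real.log_pos (by linarith)
  set L : ℕ := ⌊A * x / Real.log (1 + δ / 32)⌋₊ with hL
  set G : ℕ := ⌊(7 / 10 + A * x) * W⌋₊ with hG
  set f : ℕ × ℕ → ((p : ℕ) → p ∈ S → Fin 3 × ℕ) × (ℕ × ℕ) × ℕ × Fin 3 × Fin 3 :=
    fun t => (codeD K0 S t, codeH K0 (δ / 8) t, ⌊Real.log (ex t (R t)) * W⌋₊, lab t (R t), L3 t)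
    with hf
  set C1 := T.image (codeD K0 S) with hC1
  have h1 : T.card ≤ ⌊B0⌋₊ * (T.image f).card := by
    apply Finset.card_le_mul_card_image
    intro c hc
    rw [Finset.mem_image] at hc
    obtain ⟨t0, ht0, rfl⟩ := hc
    apply Nat.le_floor
    have hm : ∀ t ∈ T.filter (fun a => f a = f t0), t ∈ T ∧ f t = f t0 := by
      intro t h
      rwa [Finset.mem_filter] at h
    apply class_card_leE hδ hδ1 hK0 n A hA hn hW S (T.filter (fun a => f a = f t0)) R
      (lab t0 (R t0)) (L3 t0)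
    · intro t h
      have h2 := (hm t h).2
      simp only [hf, Prod.mk.injEq] at h2
      rw [← h2.2.2.2.2]
      exact hD t (hm t h).1
    · exact fun t h => hrd t (hm t h).1
    · exact fun t h => hht t (hm t h).1
    · intro t h t' h'
      have e1 := (hm t h).2
      have e2 := (hm t' h').2
      simp only [hf, Prod.mk.injEq] at e1 e2
      rw [e1.2.2.1, e2.2.2.1]
    · intro t h
      have := (hm t h).2
      simp only [hf, Prod.mk.injEq] at this
      exact this.2.2.2.1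
    · intro t h t' h'
      have e1 := (hm t h).2
      have e2 := (hm t' h').2
      simp only [hf, Prod.mk.injEq] at e1 e2
      rw [e1.1, e2.1]
    · intro t h t' h'
      have e1 := (hm t h).2
      have e2 := (hm t' h').2
      simp only [hf, Prod.mk.injEq] at e1 e2
      rw [e1.2.1, e2.2.1]
    · exact hK
    · exact fun t h => hg t (hm t h).1
    · exact fun t h => hRbig t (hm t h).1
    · exact fun t h => hRW t (hm t h).1
    · exact fun t h => hbig t (hm t h).1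
  have hSsub : ∀ t ∈ T, S ⊆ (N t).primeFactors := fun t h => (hD t h).sub
  have h2 : (T.image f) ⊆ C1 ×ˢ ((Finset.range (K0 + 1) ×ˢ Finset.range (L + 1)) ×ˢ
      (Finset.range (G + 1) ×ˢ ((Finset.univ : Finset (Fin 3)) ×ˢ
        (Finset.univ : Finset (Fin 3))))) := by
    intro c hc
    rw [Finset.mem_image] at hc
    obtain ⟨t, ht', rfl⟩ := hc
    have hh0 := ht_pos (hI t ht')
    simp only [Finset.mem_product, hf]
    refine ⟨Finset.mem_image_of_mem _ ht', ⟨?_, ?_⟩, ?_, Finset.mem_univ _, Finset.mem_univ _⟩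
    · rw [Finset.mem_range, Nat.lt_succ_iff]
      simp only [codeH]
      have ha := al_le_one (hI t ht')
      apply Nat.floor_le_of_le
      nlinarith
    · rw [Finset.mem_range, Nat.lt_succ_iff]
      simp only [codeH]
      rw [hL]
      apply Nat.floor_le_floor
      rw [show (1 : ℝ) + δ / 8 / 4 = 1 + δ / 32 by ring]
      apply div_le_div_of_nonneg_right _ hl17.le
      calc Real.log (ht t) ≤ Real.log ((n : ℝ) ^ A) := Real.log_le_log hh0 (hht t ht')
        _ = A * x := Real.log_rpow hn0 A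
    · rw [Finset.mem_range, Nat.lt_succ_iff]
      apply Nat.floor_le_floor
      apply mul_le_mul_of_nonneg_right _ hW0.le
      have h3 := ex_le_of_ht (hI t ht') (hRp t ht') (hht t ht')
      rcases Nat.eq_zero_or_pos (ex t (R t)) with h0 | h0
      · rw [h0]
        simp only [Nat.cast_zero, Real.log_zero]
        positivity
      · have h0' : (0 : ℝ) < ex t (R t) := by exact_mod_cast h0
        have h4 := Real.log_le_log h0' h3
        rw [Real.log_mul (by norm_num) (by positivity), Real.log_rpow hn0] at h4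
        have hl2 : Real.log 2 ≤ 7 / 10 := log_two_bd
        linarith
  have h3 : ((T.image f).card : ℝ) ≤ C1.card * (((K0 + 1) * (L + 1)) * ((G + 1) * 9)) := by
    have := Finset.card_le_card h2
    rw [Finset.card_product, Finset.card_product, Finset.card_product, Finset.card_product,
      Finset.card_product, Finset.card_range, Finset.card_range, Finset.card_range,
      Finset.card_univ, Fintype.card_fin] at this
    exact_mod_cast this
  have h4 : (C1.card : ℝ) ≤ BconD K0 ^ S.card := by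
    apply card_codesD_le
    intro c hc
    rw [hC1, Finset.mem_image] at hc
    obtain ⟨t, ht', rfl⟩ := hc
    simp only [codeD]
    rw [Finset.sum_attach S (fun p => ⌊u t p * (K0 * S.card)⌋₊)]
    have hu := sum_u_le (hI t ht') (hSsub t ht')
    have h5 : ((∑ p ∈ S, ⌊u t p * (K0 * S.card)⌋₊ : ℕ) : ℝ) ≤
        ((3 * K0 * S.card : ℕ) : ℝ) := by
      push_cast
      calc ∑ p ∈ S, (⌊u t p * (K0 * S.card)⌋₊ : ℝ) ≤ ∑ p ∈ S, u t p * (K0 * S.card) := by
            apply Finset.sum_le_sum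
            intro p _
            apply Nat.floor_le
            have := u_nonneg (hI t ht') p
            positivity
        _ = (∑ p ∈ S, u t p) * (K0 * S.card) := by rw [Finset.sum_mul]
        _ ≤ 3 * (K0 * S.card) := by gcongr
        _ ≤ _ := by linarith
    exact_mod_cast h5
  have hLle : (L : ℝ) ≤ A * x / Real.log (1 + δ / 32) := Nat.floor_le (by positivity)
  have hGle : (G : ℝ) ≤ (7 / 10 + A * x) * W := Nat.floor_le (by positivity)
  have hBp : 0 ≤ BconD K0 ^ S.card := pow_nonneg (BconD_pos K0).le _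
  have h6 : (⌊B0⌋₊ : ℝ) ≤ B0 := Nat.floor_le hB00
  calc (T.card : ℝ) ≤ (⌊B0⌋₊ : ℝ) * (T.image f).card := by exact_mod_cast h1
    _ ≤ B0 * (C1.card * (((K0 + 1) * (L + 1)) * ((G + 1) * 9))) := by gcongr
    _ ≤ B0 * (BconD K0 ^ S.card * (((K0 + 1) * (A * x / Real.log (1 + δ / 32) + 1)) *
        (((7 / 10 + A * x) * W + 1) * 9))) := by gcongr
    _ = _ := by ring

/-- Triples of root type with a large exponent: no loss in the height. -/
theorem count_rootE (δ A σ η : ℝ) (hδ : 0 < δ) (hδ1 : δ ≤ 1) (hA : 0 ≤ A) (hη : 0 < η) :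
    ∃ (K : ℝ) (R0 : ℕ), 0 < K ∧ ∀ᶠ n : ℕ in atTop, ∀ T : Finset (ℕ × ℕ),
      (∀ t ∈ T, rd t ≤ n ∧ ht t ≤ (n : ℝ) ^ A ∧ 200 / δ ^ 2 ≤ ht t ∧
        ∃ (S : Finset ℕ) (R : ℕ) (l3 : Fin 3), RootD δ S R l3 t ∧
          ((∏ p ∈ S, p : ℕ) : ℝ) ≤ (n : ℝ) ^ σ ∧ R0 ≤ R ∧
          K * Real.log n ≤ ex t R) →
      (T.card : ℝ) ≤ (n : ℝ) ^ (σ + η) := by
  classical
  set K : ℝ := 4 * (A + 1) / η with hK
  have hK0 : 0 < K := by positivity
  refine ⟨6400 * (K + 1) / δ, ⌈Real.exp (240 / δ)⌉₊, by positivity, ?_⟩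
  have hKη : 2 * (A + 1) / K = η / 2 := by
    rw [hK]
    field_simp
    ring
  set K0 : ℕ := ⌈16 / δ⌉₊ with hK0def
  have hK0' : 16 / δ ≤ K0 := Nat.le_ceil _
  set B := BconD K0 with hB
  have hB0 : 0 < B := BconD_pos K0
  have hl17 : 0 < Real.log (1 + δ / 32) := Real.log_pos (by linarith)
  set E0 : ℝ := Real.exp (5200 / δ) with hE0
  set W0 : ℝ := 7 * (K + 1) + 128 / δ with hW0
  have hW00 : 0 < W0 := by positivity
  set C0 : ℝ := 2 * (K + 1) * E0 * (9 * (K0 + 1) * (A / Real.log (1 + δ / 32) + 1) *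
    ((1 + A) * W0 + 1)) with hC0
  have hlim : Tendsto (fun n : ℕ => Real.log (n : ℝ)) atTop atTop :=
    Real.tendsto_log_atTop.comp tendsto_natCast_atTop_atTop
  filter_upwards [hlim.eventually (eventually_ge_atTop 4),
    ev_log_pow_le C0 (5 + 27 * B) (η / 2) (by positivity), eventually_ge_atTop 1] with
    n h4 hlogpow hn1 T hT
  set x := Real.log (n : ℝ) with hx
  have hx0 : 0 < x := by linarith
  have hx1 : 1 ≤ x := by linarith
  have hn0 : (0 : ℝ) < n := by exact_mod_cast hn1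
  have hn1' : (1 : ℝ) ≤ n := by exact_mod_cast hn1
  choose! S R L3 hR using fun t (h : t ∈ T) => (hT t h).2.2.2
  set P := Nat.primesLE n with hP
  have hPp : ∀ p ∈ P, p.Prime := fun p hp => (Nat.mem_primesLE.mp hp).2
  have hpn : ∀ t ∈ T, ∀ p ∈ (N t).primeFactors, p ≤ n := by
    intro t htT p hp
    refine le_trans ?_ (hT t htT).1
    exact Nat.le_of_dvd (Finset.prod_pos (fun q hq => (Nat.prime_of_mem_primeFactors hq).pos))
      (Finset.dvd_prod_of_mem (fun p => p) hp)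
  have hsubP : ∀ t ∈ T, (N t).primeFactors ⊆ P := by
    intro t htT p hp
    rw [hP, Nat.mem_primesLE]
    exact ⟨hpn t htT p hp, Nat.prime_of_mem_primeFactors hp⟩
  set F := P.powerset.filter (fun S => ((∏ p ∈ S, p : ℕ) : ℝ) ≤ (n : ℝ) ^ σ) with hF
  have hceil : (⌈K * x⌉₊ : ℝ) ≤ (K + 1) * x := by
    have := (Nat.ceil_lt_add_one (show 0 ≤ K * x by positivity)).le
    nlinarith
  set W : ℝ := 7 * ⌈K * x⌉₊ * x + 128 / δ with hW
  have hWge : 128 / δ ≤ W := by
    have : 0 ≤ 7 * (⌈K * x⌉₊ : ℝ) * x := by positivity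
    linarith
  have hWle : W ≤ W0 * x ^ 2 := by
    have h1 : 7 * (⌈K * x⌉₊ : ℝ) * x ≤ 7 * ((K + 1) * x) * x := by gcongr
    have h2 : 128 / δ * 1 ≤ 128 / δ * x ^ 2 := by
      apply mul_le_mul_of_nonneg_left _ (by positivity)
      nlinarith
    rw [hW, hW0]
    nlinarith
  set A0 : ℝ := (2 * ⌈K * x⌉₊ * (E0 * (n : ℝ) ^ (2 * (A + 1) / K))) *
      (9 * (K0 + 1) * (A * x / Real.log (1 + δ / 32) + 1) * ((7 / 10 + A * x) * W + 1)) with hA0
  have hWpos : 0 < W := lt_of_lt_of_le (by positivity) hWge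
  have hA00 : 0 ≤ A0 := by positivity
  have hmapsF : ∀ t ∈ T, S t ∈ F := by
    intro t ht'
    rw [hF, Finset.mem_filter, Finset.mem_powerset]
    exact ⟨(hR t ht').1.sub.trans (hsubP t ht'), (hR t ht').2.1⟩
  have h5 : (T.card : ℝ) ≤ A0 * ∑ S ∈ F, B ^ S.card := by
    rw [Finset.card_eq_sum_card_fiberwise (f := S) (t := F)
      (fun t ht => hmapsF t ht), Finset.mul_sum]
    push_cast
    apply Finset.sum_le_sum
    intro S' _
    have hm : ∀ t ∈ T.filter (fun t => S t = S'), t ∈ T ∧ S t = S' := by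
      intro t h
      rwa [Finset.mem_filter] at h
    apply fibre_card_leE hδ hδ1 hK0' n A hA h4 hWge S' _ R L3
    · intro t h
      have h1 := (hR t (hm t h).1).1
      rwa [(hm t h).2] at h1
    · exact fun t h => (hT t (hm t h).1).1
    · exact fun t h => (hT t (hm t h).1).2.1
    · exact hK0
    · intro t h
      have h1 := (hR t (hm t h).1).2.2.2
      have h2 : δ * (6400 * (K + 1) / δ * x) ≤ δ * ex t (R t) :=
        mul_le_mul_of_nonneg_left h1 hδ.le
      have h3 : δ * (6400 * (K + 1) / δ * x) = 6400 * ((K + 1) * x) := by field_simp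
      linarith
    · intro t h
      have h1 := (hR t (hm t h).1).2.2.1
      have h2 : Real.exp (240 / δ) ≤ R t := (Nat.le_ceil _).trans (by exact_mod_cast h1)
      rw [Real.le_log_iff_exp_le (lt_of_lt_of_le (Real.exp_pos _) h2)]
      exact h2
    · intro t h
      have h1 : Real.log (R t) ≤ x := by
        apply Real.log_le_log
        · exact_mod_cast (Nat.prime_of_mem_primeFactors (hR t (hm t h).1).1.memR).pos
        · exact_mod_cast hpn t (hm t h).1 _ (hR t (hm t h).1).1.memR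
      have h2 : 7 * (⌈K * x⌉₊ : ℝ) * Real.log (R t) ≤ 7 * ⌈K * x⌉₊ * x :=
        mul_le_mul_of_nonneg_left h1 (by positivity)
      have h3 : 0 < 128 / δ := by positivity
      linarith
    · exact fun t h => (hT t (hm t h).1).2.2.1
  have b2 := sum_small P hPp B ((n : ℝ) ^ σ) hB0.le (by positivity)
  have hmert := mert_le n B hB0.le h4
  have hA0le : A0 ≤ C0 * x ^ (5 : ℝ) * (n : ℝ) ^ (η / 2) := by
    have h7 : A * x / Real.log (1 + δ / 32) + 1 ≤ (A / Real.log (1 + δ / 32) + 1) * x := by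
      have : A * x / Real.log (1 + δ / 32) = A / Real.log (1 + δ / 32) * x := by ring
      rw [this]
      nlinarith
    have h8 : (7 / 10 + A * x) * W + 1 ≤ ((1 + A) * W0 + 1) * x ^ 3 := by
      have h9 : 7 / 10 + A * x ≤ (1 + A) * x := by nlinarith
      have h10 : (7 / 10 + A * x) * W ≤ ((1 + A) * x) * (W0 * x ^ 2) :=
        mul_le_mul h9 hWle hWpos.le (by positivity)
      have h11 : 1 ≤ x ^ 3 := one_le_pow₀ hx1
      nlinarith
    rw [hA0, hKη]
    calc (2 * (⌈K * x⌉₊ : ℝ) * (E0 * (n : ℝ) ^ (η / 2))) *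
        (9 * (K0 + 1) * (A * x / Real.log (1 + δ / 32) + 1) * ((7 / 10 + A * x) * W + 1)) ≤
        (2 * ((K + 1) * x) * (E0 * (n : ℝ) ^ (η / 2))) *
        (9 * (K0 + 1) * ((A / Real.log (1 + δ / 32) + 1) * x) *
          (((1 + A) * W0 + 1) * x ^ 3)) := by
          have : 0 ≤ A * x / Real.log (1 + δ / 32) + 1 := by positivity
          gcongr
      _ = C0 * x ^ 5 * (n : ℝ) ^ (η / 2) := by
          rw [hC0]
          ring
      _ = C0 * x ^ (5 : ℝ) * (n : ℝ) ^ (η / 2) := by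
          rw [show (5 : ℝ) = ((5 : ℕ) : ℝ) by norm_num, Real.rpow_natCast]
  have hC00 : 0 ≤ C0 := by positivity
  calc (T.card : ℝ) ≤ A0 * ∑ S ∈ F, B ^ S.card := h5
    _ ≤ A0 * ((n : ℝ) ^ σ * Real.exp (B * ∑ p ∈ P, 1 / (p : ℝ))) :=
        mul_le_mul_of_nonneg_left b2 hA00
    _ ≤ (C0 * x ^ (5 : ℝ) * (n : ℝ) ^ (η / 2)) *
        ((n : ℝ) ^ σ * x ^ (27 * B)) := by gcongr
    _ = (C0 * (x ^ (5 : ℝ) * x ^ (27 * B))) * ((n : ℝ) ^ (η / 2) * (n : ℝ) ^ σ) := by ring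
    _ = (C0 * x ^ (5 + 27 * B)) * ((n : ℝ) ^ (η / 2) * (n : ℝ) ^ σ) := by
        rw [Real.rpow_add hx0]
    _ ≤ (n : ℝ) ^ (η / 2) * ((n : ℝ) ^ (η / 2) * (n : ℝ) ^ σ) := by
        gcongr
    _ = (n : ℝ) ^ (σ + η) := by
        rw [← Real.rpow_add hn0, ← Real.rpow_add hn0]
        congr 1
        ring

end Pool.Agent.Lib.Pabc10
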