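import Mathlib
import Pool.Agent.Lib.Pabc10.MainSharp
import Pool.Agent.Lib.Pabc9.ThmEProof

open Finset Filter Topology

namespace Pool.Agent.Lib.Pabc10

open Pool.Agent.Lib.Pabc2 Pool.Agent.Lib.Pabc1 Pool.Agent.Lib.Pabc8 Pool.Agent.Lib.Pabc9

/-- All triples of radical at most `n` have height at most `exp (n ^ 3)`. -/
theorem ht_le_cube : ∀ᶠ n : ℕ in atTop, ∀ t : ℕ × ℕ, IsT t → rd t ≤ n →
    ht t ≤ (n : ℝ) ^ (3 : ℝ) := by
  filter_upwards [height thmE 1 one_pos, eventually_ge_atTop 1] with n hn hn1 t hI hrd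
  obtain ⟨R, hR⟩ := exists_prime hI
  have hn0 : (0 : ℝ) < n := by exact_mod_cast hn1
  refine (hn t hI hrd R hR).trans ?_
  have h1 : ∏ p ∈ (N t).primeFactors.erase R, (p : ℝ) ≤ n := by
    rw [← Nat.cast_prod]
    have h2 : ∏ p ∈ (N t).primeFactors.erase R, p ≤ rd t :=
      Finset.prod_le_prod_of_subset_of_one_le' (Finset.erase_subset _ _) (fun p h _ =>
        (Nat.prime_of_mem_primeFactors h).one_lt.le)
    exact_mod_cast h2.trans hrd
  have h3 : 0 ≤ ∏ p ∈ (N t).primeFactors.erase R, (p : ℝ) :=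
    Finset.prod_nonneg fun p _ => Nat.cast_nonneg p
  rw [Real.rpow_one, show (3 : ℝ) = ((3 : ℕ) : ℝ) by norm_num, Real.rpow_natCast]
  calc (∏ p ∈ (N t).primeFactors.erase R, (p : ℝ)) ^ 2 * (n : ℝ) ≤ (n : ℝ) ^ 2 * n := by
        gcongr
    _ = (n : ℝ) ^ 3 := by ring

/-- Upper bound for the number of all triples with a member of radical at most `n ^ η`. -/
theorem main_all_sharp (η ε : ℝ) (hε : 0 < ε) :
    ∀ᶠ n : ℕ in atTop, ∀ T : Finset (ℕ × ℕ),
      (∀ t ∈ T, IsT t ∧ rd t ≤ n ∧ ∃ s : Fin 3, Wt 1 (comp t s) ≤ (n : ℝ) ^ η) →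
      2 * (T.card : ℝ) ≤ (n : ℝ) ^ ((1 + η) / 2 + ε) := by
  filter_upwards [main_sharp 3 η ε (by norm_num) hε, ht_le_cube] with n h1 h2 T hT
  exact h1 T (fun t ht' => ⟨(hT t ht').1, (hT t ht').2.1, h2 t (hT t ht').1 (hT t ht').2.1,
    (hT t ht').2.2⟩)

/-- The product of the radicals of the three members is the radical of the triple. -/
theorem Wt_prod {t : ℕ × ℕ} (hI : IsT t) :
    Wt 1 (comp t 0) * Wt 1 (comp t 1) * Wt 1 (comp t 2) = rd t := by
  have h1 : 0 < t.1 := hI.1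
  have h2 : 0 < t.2 := hI.pos2
  have hcop := hI.2.2
  have hW : ∀ x : ℕ, Wt 1 x = ((∏ p ∈ x.primeFactors, p : ℕ) : ℝ) := by
    intro x
    rw [Wt_eq, one_pow, mul_one]
  rw [hW, hW, hW, comp0, comp1, comp2]
  unfold rd N
  have c1 : Nat.Coprime (t.1 * t.2) (t.1 + t.2) := by
    apply Nat.Coprime.mul_left
    · exact (Nat.coprime_self_add_right).mpr hcop
    · exact (Nat.coprime_add_self_right).mpr hcop.symm
  rw [c1.primeFactors_mul, hcop.primeFactors_mul, Finset.prod_union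
    (by
      rw [← hcop.primeFactors_mul]
      exact c1.disjoint_primeFactors), Finset.prod_union hcop.disjoint_primeFactors]
  push_cast
  rfl

/-- Some member has radical at most the cube root of the radical. -/
theorem exists_small_member {t : ℕ × ℕ} (hI : IsT t) {n : ℕ} (hn : 1 ≤ n) (hrd : rd t ≤ n) :
    ∃ s : Fin 3, Wt 1 (comp t s) ≤ (n : ℝ) ^ (1 / 3 : ℝ) := by
  by_contra hcon
  push Not at hcon
  have hn0 : (0 : ℝ) < n := by exact_mod_cast hn
  set y : ℝ := (n : ℝ) ^ (1 / 3 : ℝ) with hy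
  have hy0 : 0 < y := Real.rpow_pos_of_pos hn0 _
  have hy3 : y ^ 3 = n := by
    rw [hy, ← Real.rpow_natCast, ← Real.rpow_mul hn0.le]
    norm_num
  have h := Wt_prod hI
  have h0 := hcon 0
  have h1 := hcon 1
  have h2 := hcon 2
  have h3 : y * y * y < Wt 1 (comp t 0) * Wt 1 (comp t 1) * Wt 1 (comp t 2) := by
    have h4 : y * y < Wt 1 (comp t 0) * Wt 1 (comp t 1) :=
      mul_lt_mul'' h0 h1 hy0.le hy0.le
    exact mul_lt_mul'' h4 h2 (by positivity) hy0.le
  rw [h] at h3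
  have h5 : (rd t : ℝ) ≤ n := by exact_mod_cast hrd
  nlinarith

end Pool.Agent.Lib.Pabc10
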